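import Pool.Agent.H33.CR.Inj

/-!
# CR GB: holomorphic maps near the identity

`HP σ S = {w | S < σ Re w + 4 Im w}`, used with `σ = 1` and `σ = -1`. With `L w = σ Re w + 4 Im w` we have `|L w| ≤ 5 ‖w‖`
(`17 ≤ 25`), so `closedBall w 1 ⊆ HP σ S` for `w ∈ HP σ (S + 5)`; Cauchy's estimate gives `‖deriv (g - id)‖ ≤ c` on `HP σ (S + 5)`.
-/

set_option autoImplicit false

open Set Filter Topology Metric

namespace Pool.Agent.CR

/-- half planes -/
def HP (σ S : ℝ) : Set ℂ := {w | S < σ * w.re + 4 * w.im}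

theorem isOpen_HP (σ S : ℝ) : IsOpen (HP σ S) := by
  unfold HP
  exact isOpen_lt continuous_const (by fun_prop)

theorem convex_HP (σ S : ℝ) : Convex ℝ (HP σ S) := by
  intro x hx y hy a b ha hb hab
  simp only [HP, mem_ofPred_eq] at hx hy ⊢
  simp only [Complex.add_re, Complex.add_im, Complex.real_smul, Complex.mul_re, Complex.mul_im, Complex.ofReal_re,
    Complex.ofReal_im, zero_mul, sub_zero, add_zero]
  have h1 : S = a * S + b * S := by rw [← add_mul, hab, one_mul]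
  rcases ha.eq_or_lt with rfl | ha'
  · have hb1 : b = 1 := by linarith
    subst hb1
    nlinarith
  · nlinarith [mul_lt_mul_of_pos_left hx ha', mul_le_mul_of_nonneg_left hy.le hb]

theorem HP_shift {σ S : ℝ} (hσ : |σ| ≤ 1) {w w' : ℂ} {d : ℝ} (hd : ‖w' - w‖ ≤ d) (hw : w ∈ HP σ (S + 5 * d)) :
    w' ∈ HP σ S := by
  simp only [HP, mem_ofPred_eq] at hw ⊢
  have h1 : |(w' - w).re| ≤ ‖w' - w‖ := Complex.abs_re_le_norm _
  have h2 : |(w' - w).im| ≤ ‖w' - w‖ := Complex.abs_im_le_norm _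
  have h3 : |σ * (w' - w).re| ≤ d := by
    rw [abs_mul]
    calc |σ| * |(w' - w).re| ≤ 1 * ‖w' - w‖ := mul_le_mul hσ h1 (abs_nonneg _) zero_le_one
      _ ≤ d := by rw [one_mul]; exact hd
  rw [Complex.sub_re] at h3
  rw [Complex.sub_im] at h2
  have h4 := abs_le.1 h3
  have h5 := abs_le.1 (h2.trans hd)
  nlinarith [h4.1, h5.1]

/-- Cauchy's estimate for `g - id` on balls of radius `1/2` about the points of `ball x (1/2)` (`≤ c / (1/2)`;
`Complex.norm_deriv_le_of_forall_mem_sphere_norm_le` on spheres of radius `r < 1/2`, `r → 1/2`), then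
`Convex.norm_image_sub_le_of_norm_deriv_le` on `ball x (1/2)`. -/
theorem near_id_ball {x : ℂ} {g : ℂ → ℂ} {c : ℝ} (hd : DifferentiableOn ℂ g (ball x 1))
    (hg : ∀ w ∈ ball x 1, ‖g w - w‖ ≤ c) :
    ∀ w ∈ ball x (1 / 2), ∀ w' ∈ ball x (1 / 2), ‖g w - g w' - (w - w')‖ ≤ 2 * c * ‖w - w'‖ := by
  have hd2 : DifferentiableOn ℂ (fun w => g w - w) (ball x 1) := hd.sub differentiableOn_id
  have hball : ∀ y ∈ ball x (1 / 2 : ℝ), closedBall y (1 / 2) ⊆ ball x 1 := by
    intro y hy z hz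
    rw [mem_ball] at hy ⊢
    rw [mem_closedBall] at hz
    have := dist_triangle z y x
    linarith
  have hderiv : ∀ y ∈ ball x (1 / 2 : ℝ), ‖deriv (fun w => g w - w) y‖ ≤ 2 * c := by
    intro y hy
    have h1 : DiffContOnCl ℂ (fun w => g w - w) (ball y (1 / 2)) :=
      hd2.diffContOnCl_ball (hball y hy)
    have h2 := Complex.norm_deriv_le_of_forall_mem_sphere_norm_le (by norm_num : (0 : ℝ) < 1 / 2) h1
      (C := c) (fun z hz => hg z (hball y hy (sphere_subset_closedBall hz)))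
    linarith
  have hdiff : ∀ y ∈ ball x (1 / 2 : ℝ), DifferentiableAt ℂ (fun w => g w - w) y := by
    intro y hy
    apply hd2.differentiableAt
    exact isOpen_ball.mem_nhds (hball y hy (mem_closedBall_self (by norm_num)))
  intro w hw w' hw'
  have h3 := (convex_ball x (1 / 2)).norm_image_sub_le_of_norm_deriv_le hdiff hderiv hw' hw
  have h4 : g w - g w' - (w - w') = (g w - w) - (g w' - w') := by ring
  rw [h4]
  exact h3

/-- `near_id_ball` with `2 c ≤ 1/4` on the sphere of radius `3/8` about `x`: `‖g z - g x‖ ≥ (3/4) (3/8) = 9/32`, so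
`DiffContOnCl.ball_subset_image_closedBall` gives `ball (g x) (9/64) ⊆ g '' closedBall x (3/8)`, and `‖g x - x‖ ≤ 1/8 < 9/64`; so there
is `w ∈ closedBall x (3/8)` with `g w = x`, and `‖w - x‖ = ‖w - g w‖ ≤ c`. -/
theorem near_id_solve {x : ℂ} {g : ℂ → ℂ} {c : ℝ} (hc : c ≤ 1 / 8) (hd : DifferentiableOn ℂ g (ball x 1))
    (hg : ∀ w ∈ ball x 1, ‖g w - w‖ ≤ c) : ∃ w : ℂ, ‖w - x‖ ≤ c ∧ g w = x := by
  have hb := near_id_ball hd hg
  have hx : x ∈ ball x (1 / 2 : ℝ) := mem_ball_self (by norm_num)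
  have hlow : ∀ z ∈ ball x (1 / 2 : ℝ), 3 / 4 * ‖z - x‖ ≤ ‖g z - g x‖ := by
    intro z hz
    have h1 := hb z hz x hx
    have h2 : ‖z - x‖ ≤ ‖g z - g x‖ + ‖g z - g x - (z - x)‖ := by
      have h3 := norm_sub_le (g z - g x) (g z - g x - (z - x))
      have h4 : g z - g x - (g z - g x - (z - x)) = z - x := by ring
      rwa [h4] at h3
    have h5 : 2 * c * ‖z - x‖ ≤ 1 / 4 * ‖z - x‖ :=
      mul_le_mul_of_nonneg_right (by linarith) (norm_nonneg _)
    linarith
  have hcl : closedBall x (3 / 8 : ℝ) ⊆ ball x 1 := closedBall_subset_ball (by norm_num)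
  have h1 : DiffContOnCl ℂ g (ball x (3 / 8)) := hd.diffContOnCl_ball hcl
  have hfreq : ∃ᶠ z in 𝓝 x, g z ≠ g x := by
    have h2 : ∀ᶠ z in 𝓝[≠] x, g z ≠ g x := by
      have h3 : ∀ᶠ z in 𝓝[≠] x, z ∈ ball x (1 / 2 : ℝ) :=
        nhdsWithin_le_nhds (isOpen_ball.mem_nhds hx)
      filter_upwards [h3, self_mem_nhdsWithin] with z hz hne heq
      have h4 := hlow z hz
      rw [heq, sub_self, norm_zero] at h4
      have h5 : 0 < ‖z - x‖ := norm_pos_iff.mpr (sub_ne_zero.mpr hne)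
      linarith
    exact h2.frequently.filter_mono nhdsWithin_le_nhds
  have hsub := h1.ball_subset_image_closedBall (by norm_num) (ε := 9 / 32) (fun z hz => by
    have h4 := hlow z (sphere_subset_closedBall.trans (closedBall_subset_ball (by norm_num)) hz)
    rw [mem_sphere, dist_eq_norm] at hz
    rw [hz] at h4
    linarith) hfreq
  have hmem : x ∈ ball (g x) (9 / 32 / 2 : ℝ) := by
    rw [mem_ball, dist_eq_norm, norm_sub_rev]
    have := hg x (mem_ball_self (by norm_num))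
    linarith
  obtain ⟨w, hw, hgw⟩ := hsub hmem
  refine ⟨w, ?_, hgw⟩
  have h6 := hg w (hcl hw)
  rwa [hgw, norm_sub_rev] at h6

/-- `Convex.norm_image_sub_le_of_norm_deriv_le` for `g - id` on the convex set `HP σ (S+5)`; the derivative is bounded by Cauchy's estimate
on spheres of radius `1` (the closed ball of radius `1` about a point of `HP σ (S+5)` is contained in `HP σ S` by `HP_shift`). -/
theorem near_id_lip {σ S : ℝ} (hσ : |σ| ≤ 1) {g : ℂ → ℂ} {c : ℝ} (hd : DifferentiableOn ℂ g (HP σ S))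
    (hg : ∀ w ∈ HP σ S, ‖g w - w‖ ≤ c) :
    ∀ w ∈ HP σ (S + 5), ∀ w' ∈ HP σ (S + 5), ‖g w - g w' - (w - w')‖ ≤ c * ‖w - w'‖ := by
  have hd2 : DifferentiableOn ℂ (fun w => g w - w) (HP σ S) := hd.sub differentiableOn_id
  have hball : ∀ y ∈ HP σ (S + 5), closedBall y 1 ⊆ HP σ S := by
    intro y hy z hz
    rw [mem_closedBall, dist_eq_norm] at hz
    apply HP_shift hσ hz
    rwa [mul_one]
  have hderiv : ∀ y ∈ HP σ (S + 5), ‖deriv (fun w => g w - w) y‖ ≤ c := by
    intro y hy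
    have h1 : DiffContOnCl ℂ (fun w => g w - w) (ball y 1) :=
      hd2.diffContOnCl_ball (hball y hy)
    have h2 := Complex.norm_deriv_le_of_forall_mem_sphere_norm_le (by norm_num : (0 : ℝ) < 1) h1
      (C := c) (fun z hz => hg z (hball y hy (sphere_subset_closedBall hz)))
    linarith
  have hdiff : ∀ y ∈ HP σ (S + 5), DifferentiableAt ℂ (fun w => g w - w) y := by
    intro y hy
    apply hd2.differentiableAt
    exact (isOpen_HP σ S).mem_nhds (hball y hy (mem_closedBall_self (by norm_num)))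
  intro w hw w' hw'
  have h3 := (convex_HP σ (S + 5)).norm_image_sub_le_of_norm_deriv_le hdiff hderiv hw' hw
  have h4 : g w - g w' - (w - w') = (g w - w) - (g w' - w') := by ring
  rw [h4]
  exact h3

/-- Injectivity: `near_id_lip`. For `ω ∈ HP σ (S+8)` the ball `ball ω 1` is contained in `HP σ S`, `near_id_solve` gives `w` with `g w = ω`,
`‖w - ω‖ ≤ 1/8`, so `w ∈ HP σ (S+7)` (`HP_shift`). Choose; holomorphy: `differentiableAt_lift` (module Inj) with `ψ = id`. -/
theorem near_id_inv {σ S : ℝ} (hσ : |σ| ≤ 1) {g : ℂ → ℂ} (hd : DifferentiableOn ℂ g (HP σ S))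
    (hg : ∀ w ∈ HP σ S, ‖g w - w‖ ≤ 1 / 8) :
    InjOn g (HP σ (S + 5)) ∧ ∃ h : ℂ → ℂ, DifferentiableOn ℂ h (HP σ (S + 8)) ∧
      (∀ w ∈ HP σ (S + 8), h w ∈ HP σ (S + 7) ∧ g (h w) = w ∧ ‖h w - w‖ ≤ 1 / 8) ∧
      ∀ w ∈ HP σ (S + 9), h (g w) = w := by
  have hmono : ∀ {A B : ℝ}, A ≤ B → HP σ B ⊆ HP σ A := by
    intro A B hAB w hw
    simp only [HP, mem_ofPred_eq] at hw ⊢
    linarith
  have hlip := near_id_lip hσ hd hg
  have hinj : InjOn g (HP σ (S + 5)) := by
    intro w hw w' hw' heq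
    have h1 := hlip w hw w' hw'
    rw [heq, sub_self, zero_sub, norm_neg] at h1
    have h2 : ‖w - w'‖ = 0 := by
      have := norm_nonneg (w - w')
      linarith
    exact sub_eq_zero.mp (norm_eq_zero.mp h2)
  have hex : ∀ ω : ℂ, ∃ w : ℂ, ω ∈ HP σ (S + 8) → w ∈ HP σ (S + 7) ∧ g w = ω ∧ ‖w - ω‖ ≤ 1 / 8 := by
    intro ω
    by_cases hω : ω ∈ HP σ (S + 8)
    · have hb : ball ω 1 ⊆ HP σ S := by
        intro z hz
        rw [mem_ball, dist_eq_norm] at hz
        exact HP_shift hσ hz.le (hmono (by linarith) hω)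
      obtain ⟨w, hw1, hw2⟩ := near_id_solve (le_refl (1 / 8 : ℝ)) (hd.mono hb) (fun z hz => hg z (hb hz))
      refine ⟨w, fun _ => ⟨?_, hw2, hw1⟩⟩
      exact HP_shift hσ hw1 (hmono (by linarith) hω)
    · exact ⟨0, fun h => absurd h hω⟩
  choose h hh using hex
  refine ⟨hinj, h, ?_, hh, ?_⟩
  · intro ω hω
    have h1 : ∀ᶠ w' in 𝓝 ω, h w' ∈ HP σ (S + 5) ∧ g (h w') = id w' := by
      filter_upwards [(isOpen_HP σ (S + 8)).mem_nhds hω] with w' hw'
      exact ⟨hmono (by linarith) (hh w' hw').1, (hh w' hw').2.1⟩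
    exact (differentiableAt_lift (isOpen_HP σ (S + 5)) (hd.mono (hmono (by linarith))) hinj
      differentiableAt_id h1).differentiableWithinAt
  · intro w hw
    have hwS : w ∈ HP σ S := hmono (by linarith) hw
    have h1 : g w ∈ HP σ (S + 8) := HP_shift hσ (hg w hwS) (hmono (by linarith) hw)
    have h2 := hh (g w) h1
    exact hinj (hmono (by linarith) h2.1) (hmono (by linarith) hw) h2.2.1

/-- image of an open set under an injective holomorphic function is open -/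
theorem isOpen_image_of_injOn {g : ℂ → ℂ} {Ω : Set ℂ} (ho : IsOpen Ω) (hd : DifferentiableOn ℂ g Ω) (hi : InjOn g Ω) :
    IsOpen (g '' Ω) := by
  rw [isOpen_iff_mem_nhds]
  rintro _ ⟨z, hz, rfl⟩
  have h1 : HasStrictDerivAt g (deriv g z) z := (hd.analyticAt (ho.mem_nhds hz)).hasStrictDerivAt
  rw [← h1.map_nhds_eq (deriv_ne_of_injOn ho hd hi hz)]
  exact image_mem_map (ho.mem_nhds hz)

end Pool.Agent.CR
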