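import Mathlib

/-!
# CR GA: a sum bound

`∑_{k<m} (max M |x+k|)^(-(1+α)) ≤ T M^(-α)` for all real `x`, all `m` and all `M ≥ 1`, with `T` depending only on `α > 0`.
Proof: (1) telescoping: `(M+i)^(-(1+α)) ≤ (2^(1+α)/α) ((M+i)^(-α) - (M+i+1)^(-α))` for `i : ℕ` (mean value theorem, `M+i+1 ≤ 2(M+i)`),
so `∑_{i<n} (M+i)^(-(1+α)) ≤ (2^(1+α)/α) M^(-α)` for all `n`.
(2) The map `k ↦ ⌊|x+k|⌋₊` is injective on `{k | 0 ≤ x+k}` and on `{k | x+k < 0}`, and `max M |x+k| ≥ (M + ⌊|x+k|⌋₊)/2`; so each of the two parts of the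
sum is at most `2^(1+α)` times a sum of `(M+i)^(-(1+α))` over distinct `i`.
-/

set_option autoImplicit false

open Set Filter Topology

namespace Pool.Agent.CR

private theorem GA_step {α a : ℝ} (hα : 0 < α) (ha : 1 ≤ a) :
    a ^ (-(1 + α)) ≤ 2 ^ (1 + α) / α * (a ^ (-α) - (a + 1) ^ (-α)) := by
  have ha0 : 0 < a := by linarith
  have h1 : 1 + α / (a + 1) ≤ ((a + 1) / a) ^ α := by
    have h2 : ((a + 1) / a) ^ α = Real.exp (Real.log ((a + 1) / a) * α) :=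
      Real.rpow_def_of_pos (by positivity) α
    have h3 : 1 / (a + 1) ≤ Real.log ((a + 1) / a) := by
      have h4 := Real.one_sub_inv_le_log_of_pos (show 0 < (a + 1) / a by positivity)
      have h5 : 1 - ((a + 1) / a)⁻¹ = 1 / (a + 1) := by
        field_simp
        ring
      rwa [h5] at h4
    rw [h2]
    have h6 := Real.add_one_le_exp (Real.log ((a + 1) / a) * α)
    have h7 : 1 / (a + 1) * α ≤ Real.log ((a + 1) / a) * α := mul_le_mul_of_nonneg_right h3 hα.le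
    have h8 : 1 / (a + 1) * α = α / (a + 1) := by ring
    linarith
  have h2 : (a + 1) ^ (-α) * ((a + 1) / a) ^ α = a ^ (-α) := by
    rw [Real.div_rpow (by positivity) ha0.le, Real.rpow_neg (by positivity), Real.rpow_neg ha0.le]
    have : (a + 1) ^ α ≠ 0 := by positivity
    field_simp
  have h3 : α * (a + 1) ^ (-(1 + α)) ≤ a ^ (-α) - (a + 1) ^ (-α) := by
    have h4 : (a + 1) ^ (-(1 + α)) = (a + 1) ^ (-α) / (a + 1) := by
      have e : -(1 + α) = -α + -1 := by ring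
      rw [e, Real.rpow_add (by positivity), Real.rpow_neg_one]
      rfl
    have h5 : 0 ≤ (a + 1) ^ (-α) := by positivity
    have h6 := mul_le_mul_of_nonneg_left h1 h5
    rw [h2] at h6
    rw [h4]
    have h7 : (a + 1) ^ (-α) * (1 + α / (a + 1)) = (a + 1) ^ (-α) +
        α * ((a + 1) ^ (-α) / (a + 1)) := by ring
    linarith
  have h4 : (2 * a) ^ (-(1 + α)) ≤ (a + 1) ^ (-(1 + α)) :=
    Real.rpow_le_rpow_of_nonpos (by positivity) (by linarith) (by linarith)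
  have h5 : (2 * a) ^ (-(1 + α)) = (2 ^ (1 + α))⁻¹ * a ^ (-(1 + α)) := by
    rw [Real.mul_rpow (by norm_num) ha0.le, Real.rpow_neg (by norm_num)]
  rw [h5] at h4
  have h6 : 0 < (2 : ℝ) ^ (1 + α) := by positivity
  have h7 : α * ((2 ^ (1 + α))⁻¹ * a ^ (-(1 + α))) ≤ a ^ (-α) - (a + 1) ^ (-α) :=
    (mul_le_mul_of_nonneg_left h4 hα.le).trans h3
  calc a ^ (-(1 + α)) = 2 ^ (1 + α) / α * (α * ((2 ^ (1 + α))⁻¹ * a ^ (-(1 + α)))) := by
        field_simp
    _ ≤ _ := mul_le_mul_of_nonneg_left h7 (by positivity)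

private theorem GA_range {α M : ℝ} (hα : 0 < α) (hM : 1 ≤ M) (n : ℕ) :
    ∑ i ∈ Finset.range n, (M + i) ^ (-(1 + α)) ≤
      2 ^ (1 + α) / α * (M ^ (-α) - (M + n) ^ (-α)) := by
  induction n with
  | zero => simp
  | succ n ih =>
    rw [Finset.sum_range_succ]
    have h := GA_step hα (a := M + n) (by
      have : (0 : ℝ) ≤ n := Nat.cast_nonneg n
      linarith)
    push_cast
    have e : M + ((n : ℝ) + 1) = M + n + 1 := by ring
    rw [e]
    have e2 : 2 ^ (1 + α) / α * (M ^ (-α) - (M + n + 1) ^ (-α)) =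
        2 ^ (1 + α) / α * (M ^ (-α) - (M + n) ^ (-α)) +
          2 ^ (1 + α) / α * ((M + n) ^ (-α) - (M + n + 1) ^ (-α)) := by ring
    rw [e2]
    exact add_le_add ih h

private theorem GA_set {α M : ℝ} (hα : 0 < α) (hM : 1 ≤ M) (S : Finset ℕ) :
    ∑ i ∈ S, (M + i) ^ (-(1 + α)) ≤ 2 ^ (1 + α) / α * M ^ (-α) := by
  have hpos : ∀ i : ℕ, 0 ≤ (M + i) ^ (-(1 + α)) := fun i => by positivity
  have hsub : S ⊆ Finset.range (S.sup id + 1) := by
    intro i hi
    rw [Finset.mem_range]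
    have : i ≤ S.sup id := Finset.le_sup (f := id) hi
    omega
  refine (Finset.sum_le_sum_of_subset_of_nonneg hsub fun i _ _ => hpos i).trans ?_
  refine (GA_range hα hM _).trans ?_
  apply mul_le_mul_of_nonneg_left _ (by positivity)
  have : 0 ≤ (M + ((S.sup id + 1 : ℕ) : ℝ)) ^ (-α) := by positivity
  linarith

private theorem GA_part {α M : ℝ} (hα : 0 < α) (hM : 1 ≤ M) (x : ℝ) (F : Finset ℕ)
    (hF : ∀ k ∈ F, ∀ l ∈ F, ⌊|x + k|⌋₊ = ⌊|x + l|⌋₊ → k = l) :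
    ∑ k ∈ F, (max M |x + k|) ^ (-(1 + α)) ≤ 2 ^ (1 + α) * (2 ^ (1 + α) / α * M ^ (-α)) := by
  have h1 : ∀ k ∈ F, (max M |x + k|) ^ (-(1 + α)) ≤
      2 ^ (1 + α) * (M + (⌊|x + k|⌋₊ : ℕ)) ^ (-(1 + α)) := by
    intro k _
    have h2 : (M + (⌊|x + k|⌋₊ : ℕ)) / 2 ≤ max M |x + k| := by
      have h3 : ((⌊|x + k|⌋₊ : ℕ) : ℝ) ≤ |x + k| := Nat.floor_le (abs_nonneg _)
      have h4 := le_max_left M |x + k|
      have h5 := le_max_right M |x + k|
      linarith
    have h3 : 0 < (M + (⌊|x + k|⌋₊ : ℕ)) / 2 := by positivity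
    refine (Real.rpow_le_rpow_of_nonpos h3 h2 (by linarith)).trans (le_of_eq ?_)
    rw [Real.div_rpow (by positivity) (by norm_num), Real.rpow_neg (by norm_num : (0 : ℝ) ≤ 2),
      div_inv_eq_mul, mul_comm]
  refine (Finset.sum_le_sum h1).trans ?_
  rw [← Finset.mul_sum]
  apply mul_le_mul_of_nonneg_left _ (by positivity)
  have h2 : ∑ k ∈ F, (M + (⌊|x + k|⌋₊ : ℕ)) ^ (-(1 + α)) =
      ∑ i ∈ F.image (fun k : ℕ => ⌊|x + k|⌋₊), (M + (i : ℕ)) ^ (-(1 + α)) := by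
    rw [Finset.sum_image]
    intro k hk l hl h
    exact hF k hk l hl h
  rw [h2]
  exact GA_set hα hM _

private theorem GA_floor {u v : ℝ} (hu : 0 ≤ u) (hv : 0 ≤ v) (h : ⌊u⌋₊ = ⌊v⌋₊) : |u - v| < 1 := by
  have h1 := Nat.floor_le hu
  have h2 := Nat.lt_floor_add_one u
  have h3 := Nat.floor_le hv
  have h4 := Nat.lt_floor_add_one v
  rw [h] at h1 h2
  rw [abs_lt]
  constructor <;> linarith

private theorem GA_nat {k l : ℕ} (h : |(k : ℝ) - l| < 1) : k = l := by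
  rw [abs_lt] at h
  have h1 : (k : ℝ) < l + 1 := by linarith
  have h2 : (l : ℝ) < k + 1 := by linarith
  have h3 : k < l + 1 := by exact_mod_cast h1
  have h4 : l < k + 1 := by exact_mod_cast h2
  omega

theorem rsum {α : ℝ} (hα : 0 < α) : ∃ T : ℝ, 0 < T ∧ ∀ M : ℝ, 1 ≤ M → ∀ (x : ℝ) (m : ℕ),
    ∑ k ∈ Finset.range m, (max M |x + k|) ^ (-(1 + α)) ≤ T * M ^ (-α) := by
  refine ⟨2 * (2 ^ (1 + α) * (2 ^ (1 + α) / α)), by positivity, fun M hM x m => ?_⟩
  rw [← Finset.sum_filter_add_sum_filter_not (Finset.range m) (fun k : ℕ => 0 ≤ x + k)]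
  have h1 := GA_part hα hM x ((Finset.range m).filter fun k : ℕ => 0 ≤ x + k) (by
    intro k hk l hl h
    have hk' := (Finset.mem_filter.1 hk).2
    have hl' := (Finset.mem_filter.1 hl).2
    apply GA_nat
    have h2 := GA_floor (abs_nonneg _) (abs_nonneg _) h
    rw [abs_of_nonneg hk', abs_of_nonneg hl'] at h2
    have h3 : x + k - (x + l) = (k : ℝ) - l := by ring
    rwa [h3] at h2)
  have h2 := GA_part hα hM x ((Finset.range m).filter fun k : ℕ => ¬ 0 ≤ x + k) (by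
    intro k hk l hl h
    have hk' := not_le.1 (Finset.mem_filter.1 hk).2
    have hl' := not_le.1 (Finset.mem_filter.1 hl).2
    apply GA_nat
    have h2 := GA_floor (abs_nonneg _) (abs_nonneg _) h
    rw [abs_of_neg hk', abs_of_neg hl'] at h2
    have h3 : -(x + k) - -(x + l) = -((k : ℝ) - l) := by ring
    rwa [h3, abs_neg] at h2)
  calc _ ≤ 2 ^ (1 + α) * (2 ^ (1 + α) / α * M ^ (-α)) +
        2 ^ (1 + α) * (2 ^ (1 + α) / α * M ^ (-α)) := add_le_add h1 h2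
    _ = _ := by ring

end Pool.Agent.CR
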