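import Pool.Agent.H48.CR.Chart
import Pool.Agent.H33.CR.GA
import Pool.Agent.H33.CR.GB

/-!
# CR GC: orbits in the limit chart

`orb c j k w`: the orbit of `w` under the maps `w ↦ w + 1 + δ0 i w`, `i = j, j + p, j + 2p, …`; `Wq a M`: the points of modulus
`≥ M` with `-Im w ≤ a |Re w|`. If `w + k ∈ Wq (2/5) M` for `k ≤ m` then the orbit stays within `T M^(-1/q)` of `w + k`.
-/

set_option autoImplicit false

open Set Filter Topology Metric

namespace Pool.Agent.CR

variable {p q s e : ℕ}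

/-- orbits in the limit chart -/
noncomputable def orb (c : Chart p q s e) (j : ℤ) : ℕ → ℂ → ℂ
  | 0, w => w
  | k + 1, w => orb c j k w + 1 + c.δ0 (j + k * p) (orb c j k w)

/-- domains of the plane -/
def Wq (a M : ℝ) : Set ℂ := {w | M ≤ ‖w‖ ∧ -w.im ≤ a * |w.re|}

theorem orb_zero (c : Chart p q s e) (j : ℤ) (w : ℂ) : orb c j 0 w = w := rfl

theorem orb_succ (c : Chart p q s e) (j : ℤ) (k : ℕ) (w : ℂ) :
    orb c j (k + 1) w = orb c j k w + 1 + c.δ0 (j + k * p) (orb c j k w) := rfl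

/-- Induction on `b`. -/
theorem orb_add (c : Chart p q s e) (j : ℤ) (a b : ℕ) (w : ℂ) :
    orb c j (a + b) w = orb c (j + a * p) b (orb c j a w) := by
  induction b with
  | zero => rfl
  | succ b ih =>
    rw [← add_assoc, orb_succ, orb_succ, ih]
    have h1 : j + ((a + b : ℕ) : ℤ) * p = j + a * p + b * p := by
      push_cast
      ring
    rw [h1]

/-- `orb_add` with `a = 1`. -/
theorem orb_succ' (c : Chart p q s e) (j : ℤ) (k : ℕ) (w : ℂ) :
    orb c j (k + 1) w = orb c (j + p) k (w + 1 + c.δ0 j w) := by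
  rw [add_comm k 1, orb_add]
  have h1 : j + ((1 : ℕ) : ℤ) * p = j + p := by
    push_cast
    ring
  have h2 : orb c j 1 w = w + 1 + c.δ0 j w := by
    rw [orb_succ c j 0 w, orb_zero]
    have h3 : j + ((0 : ℕ) : ℤ) * p = j := by
      push_cast
      ring
    rw [h3]
  rw [h1, h2]

/-- Induction on `k`. -/
theorem orb_eq_sum (c : Chart p q s e) (j : ℤ) (k : ℕ) (w : ℂ) :
    orb c j k w = w + k + ∑ i ∈ Finset.range k, c.δ0 (j + i * p) (orb c j i w) := by
  induction k with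
  | zero => simp [orb_zero]
  | succ k ih =>
    rw [orb_succ, Finset.sum_range_succ]
    push_cast
    linear_combination ih

private theorem re_near {w w' : ℂ} (h : ‖w' - w‖ ≤ 1) : |w'.re - w.re| ≤ 1 := by
  have h1 := (Complex.abs_re_le_norm (w' - w)).trans h
  rwa [Complex.sub_re] at h1

private theorem im_near {w w' : ℂ} (h : ‖w' - w‖ ≤ 1) : |w'.im - w.im| ≤ 1 := by
  have h1 := (Complex.abs_im_le_norm (w' - w)).trans h
  rwa [Complex.sub_im] at h1

/-- If `|Re w'| < 23` then `|Re w| < 24`, `-Im w ≤ 12`, so `|Im w| ≥ √(60² - 24²) > 50` and `Im w > 50`; otherwise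
`-Im w' ≤ a |Re w| + 1 ≤ a |Re w'| + 3/2 ≤ b |Re w'|`. -/
theorem Wq_near {a b M M' : ℝ} (ha : 0 ≤ a) (ha' : a ≤ 1 / 2) (hab : a + 1 / 15 ≤ b) (hM' : 60 ≤ M') (hM : M + 1 ≤ M')
    {w w' : ℂ} (hw : w ∈ Wq a M') (h : ‖w' - w‖ ≤ 1) : w' ∈ Wq b M := by
  obtain ⟨h1, h2⟩ := hw
  have hre := re_near h
  have him := im_near h
  have hnorm : ‖w‖ ≤ ‖w'‖ + 1 := by
    have h3 : w = w' - (w' - w) := by ring
    calc ‖w‖ = ‖w' - (w' - w)‖ := by rw [← h3]
      _ ≤ ‖w'‖ + ‖w' - w‖ := norm_sub_le _ _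
      _ ≤ ‖w'‖ + 1 := by linarith
  refine ⟨by linarith, ?_⟩
  have e1 : |w.re| ≤ |w'.re| + 1 := by
    have := abs_sub_abs_le_abs_sub w.re w'.re
    rw [abs_sub_comm] at hre
    linarith
  have e2 := abs_le.1 him
  have e3 := abs_nonneg w'.re
  have e4 := abs_nonneg w.re
  by_cases hc : |w'.re| < 23
  · have h3 : |w.re| < 24 := by linarith
    have h4 : a * |w.re| ≤ 12 := by nlinarith
    have h5 : w.re ^ 2 < 576 := by
      rw [← sq_abs]
      nlinarith
    have h6 : 3600 ≤ w.re ^ 2 + w.im ^ 2 := by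
      have h7 : ‖w‖ ^ 2 = w.re ^ 2 + w.im ^ 2 := by
        rw [← Complex.normSq_eq_norm_sq, Complex.normSq_apply]
        ring
      have h8 : (60 : ℝ) ≤ ‖w‖ := by linarith
      nlinarith
    have h7 : 50 < w.im := by
      by_contra hcon
      push Not at hcon
      nlinarith
    have h8 : 0 ≤ b * |w'.re| := mul_nonneg (by linarith) e3
    linarith [e2.1]
  · push Not at hc
    have h3 : a * |w.re| ≤ a * |w'.re| + 1 / 2 := by nlinarith
    have h4 : (a + 1 / 15) * |w'.re| ≤ b * |w'.re| := mul_le_mul_of_nonneg_right hab e3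
    nlinarith [e2.1]

/-- As `Wq_near`, with strict inequalities. -/
theorem Wq_near_Wi {R M : ℝ} (hR : 4 ≤ R) (hM : R + 60 ≤ M) {w w' : ℂ} (hw : w ∈ Wq (2 / 5) M) (h : ‖w' - w‖ ≤ 1) :
    w' ∈ Wi0 R ∧ w' ∈ Wd0 R := by
  have h1 := Wq_near (b := 7 / 15) (M := M - 1) (by norm_num) (by norm_num) (by norm_num)
    (by linarith) (by linarith) hw h
  obtain ⟨h2, h3⟩ := h1
  have h4 : 0 < ‖w'‖ := by linarith
  have key : -w'.im < |w'.re| / 2 := by
    rcases eq_or_ne w'.re 0 with h0 | h0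
    · rw [h0, abs_zero] at h3 ⊢
      have h5 : w'.im ≠ 0 := by
        intro h6
        have h7 : w' = 0 := Complex.ext h0 h6
        rw [h7, norm_zero] at h4
        exact lt_irrefl _ h4
      have h6 : 0 < w'.im := lt_of_le_of_ne (by linarith) h5.symm
      linarith
    · have h5 := abs_pos.2 h0
      linarith
  have h5 := abs_nonneg w'.re
  exact ⟨⟨by linarith, key⟩, ⟨by linarith, by linarith⟩⟩

/-- `‖w‖ ≥ (σ Re w + 4 Im w)/5`; and `-Im w < σ Re w / 4 ≤ |Re w| / 4`. -/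
theorem HP_sub_Wq {σ S : ℝ} (hσ : |σ| ≤ 1) (hS : 0 ≤ S) {w : ℂ} (hw : w ∈ HP σ S) : w ∈ Wq (1 / 4) (S / 5) := by
  have h1 : S < σ * w.re + 4 * w.im := hw
  have h2 : |σ * w.re| ≤ |w.re| := by
    rw [abs_mul]
    have := abs_nonneg w.re
    nlinarith
  have h3 := abs_le.1 h2
  have h4 := Complex.abs_re_le_norm w
  have h5 := Complex.abs_im_le_norm w
  have h6 := le_abs_self w.im
  exact ⟨by linarith, by linarith⟩

theorem isOpen_Wd0 (R : ℝ) : IsOpen (Wd0 R) := by
  have h1 : Wd0 R = {w : ℂ | R < ‖w‖} ∩ {w : ℂ | -w.im < |w.re|} := rfl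
  rw [h1]
  exact (isOpen_lt continuous_const continuous_norm).inter
    (isOpen_lt (Complex.continuous_im.neg) (Complex.continuous_re.abs))

theorem isOpen_Wi0 (R : ℝ) : IsOpen (Wi0 R) := by
  have h1 : Wi0 R = {w : ℂ | R + 1 < ‖w‖} ∩ {w : ℂ | -w.im < |w.re| / 2} := rfl
  rw [h1]
  exact (isOpen_lt continuous_const continuous_norm).inter
    (isOpen_lt (Complex.continuous_im.neg) (Complex.continuous_re.abs.div_const 2))

end Pool.Agent.CR
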