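import Pool.Agent.H33.CR.GC

/-!
# CR GC2: the orbit estimate
-/

set_option autoImplicit false

open Set Filter Topology Metric

namespace Pool.Agent.CR

variable {p q s e : ℕ}

/-- the bound of one term -/
private theorem GC2_term (c : Chart p q s e) {M : ℝ} (hM : c.R + 60 ≤ M) (i0 : ℤ) {w x : ℂ}
    (h1 : w ∈ Wq (2 / 5) M) (h2 : w + 1 ∈ Wq (2 / 5) M) (hx : ‖x - w‖ ≤ 1 / 8) :
    ‖c.δ0 i0 x‖ ≤ c.C * 2 ^ (1 + 1 / (q : ℝ)) * (max M |w.re|) ^ (-(1 + 1 / (q : ℝ))) ∧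
      x ∈ Wd0 c.R ∧ x + 1 ∈ Wi0 c.R := by
  have hR := c.R_ge
  have hx1 := Wq_near_Wi hR hM h1 (hx.trans (by norm_num))
  have hx2 : x + 1 ∈ Wi0 c.R := by
    refine (Wq_near_Wi hR hM h2 (w' := x + 1) ?_).1
    have h3 : x + 1 - (w + 1) = x - w := by ring
    rw [h3]
    exact hx.trans (by norm_num)
  refine ⟨?_, hx1.2, hx2⟩
  have hexp : (0 : ℝ) ≤ 1 + 1 / (q : ℝ) := by positivity
  have hw1 : M ≤ ‖w‖ := h1.1
  have hmax : max M |w.re| ≤ ‖w‖ := max_le hw1 (Complex.abs_re_le_norm w)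
  have hmax0 : 0 < max M |w.re| := lt_of_lt_of_le (by linarith) (le_max_left M |w.re|)
  have hnx : ‖w‖ / 2 ≤ ‖x‖ := by
    have h3 : ‖w‖ ≤ ‖x‖ + ‖x - w‖ := by
      have h4 := norm_sub_le x (x - w)
      rwa [sub_sub_cancel] at h4
    linarith
  have h5 : ‖x‖ ^ (-(1 + 1 / (q : ℝ))) ≤ (max M |w.re| / 2) ^ (-(1 + 1 / (q : ℝ))) :=
    Real.rpow_le_rpow_of_nonpos (by positivity) (by linarith) (by linarith)
  have h6 : (max M |w.re| / 2) ^ (-(1 + 1 / (q : ℝ))) =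
      2 ^ (1 + 1 / (q : ℝ)) * (max M |w.re|) ^ (-(1 + 1 / (q : ℝ))) := by
    rw [Real.div_rpow hmax0.le (by norm_num), Real.rpow_neg (by norm_num : (0 : ℝ) ≤ 2), div_inv_eq_mul,
      mul_comm]
  calc ‖c.δ0 i0 x‖ ≤ c.C * ‖x‖ ^ (-(1 + 1 / (q : ℝ))) := (c.δ0_small i0 x hx1.2 hx2).2
    _ ≤ c.C * (max M |w.re| / 2) ^ (-(1 + 1 / (q : ℝ))) := mul_le_mul_of_nonneg_left h5 c.C_pos.le
    _ = _ := by rw [h6, mul_assoc]

/-- **Orbit estimate.** Let `α = 1/q` and let `T0` be the constant of `rsum`. `T = C 2^(1+α) T0` (`C = c.C`); `M0` large. Induction on `k ≤ m`: if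
`‖orb i - (w+i)‖ ≤ 1` for `i < k`, then `‖orb i‖ ≥ ‖w+i‖ - 1 ≥ ‖w+i‖/2 ≥ max M |Re w + i| / 2`, so (field `δ0_small`, usable because of
`Wq_near_Wi` for `orb i` near `w + i` and `orb i + 1` near `w + (i+1)`)
`‖δ0 (orb i)‖ ≤ C 2^(1+α) (max M |Re w + i|)^(-(1+α))`; the sum over `i < k` is `≤ C 2^(1+α) T0 M^(-α) = T M^(-α) ≤ 1/8` for `M ≥ M0`; with
`orb_eq_sum` this gives `‖orb k - (w+k)‖ ≤ 1/8`. The last statement: `map0` and induction. -/
theorem orb_main (c : Chart p q s e) (hq : 0 < q) : ∃ T M0 : ℝ, 0 < T ∧ c.R + 60 ≤ M0 ∧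
    (∀ M ≥ M0, T * M ^ (-(1 / (q : ℝ))) ≤ 1 / 8) ∧
    ∀ M ≥ M0, ∀ (j : ℤ) (w : ℂ) (m : ℕ), (∀ k ≤ m, w + k ∈ Wq (2 / 5) M) →
      ∀ k ≤ m, ∑ i ∈ Finset.range k, ‖c.δ0 (j + i * p) (orb c j i w)‖ ≤ T * M ^ (-(1 / (q : ℝ))) ∧
        (f (mu ((p : ℝ) / q)))^[k] (c.W0 j w) = c.W0 (j + k * p) (orb c j k w) := by
  have hα : (0 : ℝ) < 1 / q := by positivity
  obtain ⟨T0, hT0, hsum⟩ := rsum hα
  obtain ⟨T, hT⟩ : ∃ T : ℝ, T = c.C * 2 ^ (1 + 1 / (q : ℝ)) * T0 := ⟨_, rfl⟩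
  have hTpos : 0 < T := by
    rw [hT]
    exact mul_pos (mul_pos c.C_pos (Real.rpow_pos_of_pos (by norm_num) _)) hT0
  have htend : Tendsto (fun M : ℝ => T * M ^ (-(1 / (q : ℝ)))) atTop (𝓝 0) := by
    have h1 := (tendsto_rpow_neg_atTop hα).const_mul T
    rwa [mul_zero] at h1
  obtain ⟨M1, hM1⟩ := eventually_atTop.mp
    (htend.eventually_le_const (by norm_num : (0 : ℝ) < 1 / 8))
  refine ⟨T, max (c.R + 60) M1, hTpos, le_max_left _ _,
    fun M hM => hM1 M ((le_max_right _ _).trans hM), ?_⟩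
  intro M hM j w m hw
  have hMR : c.R + 60 ≤ M := (le_max_left _ _).trans hM
  have hM1' : T * M ^ (-(1 / (q : ℝ))) ≤ 1 / 8 := hM1 M ((le_max_right _ _).trans hM)
  have hR := c.R_ge
  -- the estimate of the sums
  have hS : ∀ k ≤ m, ∑ i ∈ Finset.range k, ‖c.δ0 (j + i * p) (orb c j i w)‖ ≤
      T * M ^ (-(1 / (q : ℝ))) := by
    intro k
    induction k using Nat.strong_induction_on with
    | _ k ih =>
      intro hk
      have hterm : ∀ i ∈ Finset.range k, ‖c.δ0 (j + i * p) (orb c j i w)‖ ≤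
          c.C * 2 ^ (1 + 1 / (q : ℝ)) * (max M |w.re + i|) ^ (-(1 + 1 / (q : ℝ))) := by
        intro i hi
        have hik : i < k := Finset.mem_range.mp hi
        have hd : ‖orb c j i w - (w + i)‖ ≤ 1 / 8 := by
          rw [orb_eq_sum, add_sub_cancel_left]
          exact (norm_sum_le _ _).trans ((ih i hik (by omega)).trans hM1')
        have h2 : w + i + 1 ∈ Wq (2 / 5) M := by
          have h3 := hw (i + 1) (by omega)
          push_cast at h3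
          rwa [← add_assoc] at h3
        have h4 := (GC2_term c hMR (j + i * p) (hw i (by omega)) h2 hd).1
        rwa [Complex.add_re, Complex.natCast_re] at h4
      calc ∑ i ∈ Finset.range k, ‖c.δ0 (j + i * p) (orb c j i w)‖
          ≤ ∑ i ∈ Finset.range k, c.C * 2 ^ (1 + 1 / (q : ℝ)) *
              (max M |w.re + i|) ^ (-(1 + 1 / (q : ℝ))) := Finset.sum_le_sum hterm
        _ = c.C * 2 ^ (1 + 1 / (q : ℝ)) * ∑ i ∈ Finset.range k,
              (max M |w.re + i|) ^ (-(1 + 1 / (q : ℝ))) := by rw [Finset.mul_sum]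
        _ ≤ c.C * 2 ^ (1 + 1 / (q : ℝ)) * (T0 * M ^ (-(1 / (q : ℝ)))) :=
            mul_le_mul_of_nonneg_left (hsum M (by linarith) w.re k)
              (mul_pos c.C_pos (Real.rpow_pos_of_pos (by norm_num) _)).le
        _ = T * M ^ (-(1 / (q : ℝ))) := by
            rw [hT]
            ring
  intro k hk
  refine ⟨hS k hk, ?_⟩
  induction k with
  | zero => simp [orb_zero]
  | succ k ih =>
    have hd : ‖orb c j k w - (w + k)‖ ≤ 1 / 8 := by
      rw [orb_eq_sum, add_sub_cancel_left]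
      exact (norm_sum_le _ _).trans ((hS k (by omega)).trans hM1')
    have h2 : w + k + 1 ∈ Wq (2 / 5) M := by
      have h3 := hw (k + 1) hk
      push_cast at h3
      rwa [← add_assoc] at h3
    obtain ⟨-, h4, h5⟩ := GC2_term c hMR (j + k * p) (hw k (by omega)) h2 hd
    rw [Function.iterate_succ_apply', ih (by omega), c.map0 _ _ h4 h5, orb_succ]
    congr 1
    push_cast
    ring

/-- the constants of `orb_main` -/
noncomputable def Chart.T (c : Chart p q s e) (hq : 0 < q) : ℝ := (orb_main c hq).choose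

noncomputable def Chart.M0 (c : Chart p q s e) (hq : 0 < q) : ℝ := (orb_main c hq).choose_spec.choose

theorem Chart.T_pos (c : Chart p q s e) (hq : 0 < q) : 0 < c.T hq := (orb_main c hq).choose_spec.choose_spec.1

theorem Chart.M0_ge (c : Chart p q s e) (hq : 0 < q) : c.R + 60 ≤ c.M0 hq :=
  (orb_main c hq).choose_spec.choose_spec.2.1

theorem Chart.T_le (c : Chart p q s e) (hq : 0 < q) : ∀ M ≥ c.M0 hq, c.T hq * M ^ (-(1 / (q : ℝ))) ≤ 1 / 8 :=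
  (orb_main c hq).choose_spec.choose_spec.2.2.1

theorem Chart.orb_sum (c : Chart p q s e) (hq : 0 < q) : ∀ M ≥ c.M0 hq, ∀ (j : ℤ) (w : ℂ) (m : ℕ),
    (∀ k ≤ m, w + k ∈ Wq (2 / 5) M) → ∀ k ≤ m,
      ∑ i ∈ Finset.range k, ‖c.δ0 (j + i * p) (orb c j i w)‖ ≤ c.T hq * M ^ (-(1 / (q : ℝ))) ∧
        (f (mu ((p : ℝ) / q)))^[k] (c.W0 j w) = c.W0 (j + k * p) (orb c j k w) :=
  (orb_main c hq).choose_spec.choose_spec.2.2.2

end Pool.Agent.CR
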