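import Pool.Agent.H33.CR.GC2

/-!
# CR GC3: consequences of the orbit estimate
-/

set_option autoImplicit false

open Set Filter Topology Metric

namespace Pool.Agent.CR

variable {p q s e : ℕ}

/-- `orb_eq_sum` and `orb_sum`. -/
theorem Chart.orb_est (c : Chart p q s e) (hq : 0 < q) {M : ℝ} (hM : c.M0 hq ≤ M) (j : ℤ) (w : ℂ) (m : ℕ)
    (h : ∀ k ≤ m, w + k ∈ Wq (2 / 5) M) : ∀ k ≤ m, ‖orb c j k w - (w + k)‖ ≤ c.T hq * M ^ (-(1 / (q : ℝ))) := by
  intro k hk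
  rw [orb_eq_sum, add_sub_cancel_left]
  exact (norm_sum_le _ _).trans (c.orb_sum hq M hM j w m h k hk).1

private theorem GC3_one (c : Chart p q s e) (hq : 0 < q) {M : ℝ} (hM : c.M0 hq ≤ M) (j : ℤ) (w : ℂ) (m : ℕ)
    (h : ∀ k ≤ m, w + k ∈ Wq (2 / 5) M) : ∀ k ≤ m, ‖orb c j k w - (w + k)‖ ≤ 1 := by
  intro k hk
  exact (c.orb_est hq hM j w m h k hk).trans ((c.T_le hq M hM).trans (by norm_num))

/-- `orb_est` and `Wq_near_Wi`. -/
theorem Chart.orb_mem (c : Chart p q s e) (hq : 0 < q) {M : ℝ} (hM : c.M0 hq ≤ M) (j : ℤ) (w : ℂ) (m : ℕ)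
    (h : ∀ k ≤ m, w + k ∈ Wq (2 / 5) M) : ∀ k ≤ m, orb c j k w ∈ Wi0 c.R ∧ orb c j k w ∈ Wd0 c.R ∧
      (k < m → orb c j k w + 1 ∈ Wi0 c.R) := by
  intro k hk
  have hR := c.R_ge
  have hMR : c.R + 60 ≤ M := (c.M0_ge hq).trans hM
  have h1 := GC3_one c hq hM j w m h k hk
  have h2 := Wq_near_Wi hR hMR (h k hk) h1
  refine ⟨h2.1, h2.2, fun hkm => ?_⟩
  refine (Wq_near_Wi hR hMR (h (k + 1) hkm) (w' := orb c j k w + 1) ?_).1
  have h3 : orb c j k w + 1 - (w + (k + 1 : ℕ)) = orb c j k w - (w + k) := by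
    push_cast
    ring
  rw [h3]
  exact h1

/-- The orbit is holomorphic where it is controlled. Induction on `k`: by `orb_mem` the point `orb c j k w` lies in the set where `δ0_diff` gives
differentiability for `k < m`; this set is open (`isOpen_Wd0`, `isOpen_Wi0`). -/
theorem orb_diff (c : Chart p q s e) (hq : 0 < q) {M : ℝ} (hM : c.M0 hq ≤ M) (j : ℤ) {Ω : Set ℂ} (ho : IsOpen Ω) (m : ℕ)
    (h : ∀ w ∈ Ω, ∀ k ≤ m, w + k ∈ Wq (2 / 5) M) : ∀ k ≤ m, DifferentiableOn ℂ (orb c j k) Ω := by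
  intro k
  induction k with
  | zero =>
    intro _
    exact differentiableOn_id
  | succ k ih =>
    intro hk
    have h1 := ih (by omega)
    have h2 : DifferentiableOn ℂ (fun w => c.δ0 (j + k * p) (orb c j k w)) Ω := by
      refine (c.δ0_diff (j + k * p)).comp h1 ?_
      intro w hw
      have h3 := c.orb_mem hq hM j w m (h w hw) k (by omega)
      exact ⟨h3.2.1, h3.2.2 (by omega)⟩
    exact (h1.add_const 1).add h2

/-- The error bound in the form which is used for convergence: for `i < m`, `‖orb i‖ ≥ ‖w + i‖ - 1`. -/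
theorem δ0_orb_le (c : Chart p q s e) (hq : 0 < q) {M : ℝ} (hM : c.M0 hq ≤ M) (j : ℤ) (w : ℂ) (m : ℕ)
    (h : ∀ k ≤ m, w + k ∈ Wq (2 / 5) M) : ∀ i < m,
      ‖c.δ0 (j + i * p) (orb c j i w)‖ ≤ c.C * (‖w + i‖ - 1) ^ (-(1 + 1 / (q : ℝ))) := by
  intro i hi
  have hR := c.R_ge
  have hMR : c.R + 60 ≤ M := (c.M0_ge hq).trans hM
  have h1 := c.orb_mem hq hM j w m h i hi.le
  have h2 := GC3_one c hq hM j w m h i hi.le
  have h3 : M ≤ ‖w + i‖ := (h i hi.le).1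
  have h4 : ‖w + i‖ - 1 ≤ ‖orb c j i w‖ := by
    have h5 := norm_sub_le (orb c j i w) (orb c j i w - (w + i))
    rw [sub_sub_cancel] at h5
    linarith
  have hexp : (0 : ℝ) ≤ 1 + 1 / (q : ℝ) := by positivity
  refine ((c.δ0_small (j + i * p) _ h1.2.1 (h1.2.2 hi)).2).trans ?_
  exact mul_le_mul_of_nonneg_left
    (Real.rpow_le_rpow_of_nonpos (by linarith) h4 (by linarith)) c.C_pos.le

end Pool.Agent.CR
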