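import Pool.Agent.H33.CR.GC3
import Pool.Agent.H48.CR.Fat

/-!
# CR GD: regions; the attracting Fatou coordinate in the chart

`Ea a M = {w | w + k ∈ Wq a M for all k}`, `Er a M = {w | w - k ∈ Wq a M for all k}`. The first lemmas are elementary.
-/

set_option autoImplicit false

open Set Filter Topology Metric

namespace Pool.Agent.CR

variable {p q s e : ℕ}

def Ea (a M : ℝ) : Set ℂ := {w | ∀ k : ℕ, w + k ∈ Wq a M}

def Er (a M : ℝ) : Set ℂ := {w | ∀ k : ℕ, w - k ∈ Wq a M}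

/-- attracting Fatou coordinate in the chart (sheet `j`) -/
noncomputable def phiC (c : Chart p q s e) (j : ℤ) (w : ℂ) : ℂ := w + ∑' k : ℕ, c.δ0 (j + k * p) (orb c j k w)

theorem Wq_mono {a a' M M' : ℝ} (ha : a ≤ a') (hM : M' ≤ M) : Wq a M ⊆ Wq a' M' := by
  rintro w ⟨h1, h2⟩
  exact ⟨hM.trans h1, h2.trans (mul_le_mul_of_nonneg_right ha (abs_nonneg _))⟩

theorem Ea_mono {a a' M M' : ℝ} (ha : a ≤ a') (hM : M' ≤ M) : Ea a M ⊆ Ea a' M' :=
  fun _ hw k => Wq_mono ha hM (hw k)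

theorem Er_mono {a a' M M' : ℝ} (ha : a ≤ a') (hM : M' ≤ M) : Er a M ⊆ Er a' M' :=
  fun _ hw k => Wq_mono ha hM (hw k)

/-- `Wq_near` -/
theorem Ea_near {a b M M' : ℝ} (ha : 0 ≤ a) (ha' : a ≤ 1 / 2) (hab : a + 1 / 15 ≤ b) (hM' : 60 ≤ M') (hM : M + 1 ≤ M')
    {w w' : ℂ} (hw : w ∈ Ea a M') (h : ‖w' - w‖ ≤ 1) : w' ∈ Ea b M := by
  intro k
  refine Wq_near ha ha' hab hM' hM (hw k) ?_
  have h1 : w' + k - (w + k) = w' - w := by ring
  rw [h1]
  exact h

theorem Er_near {a b M M' : ℝ} (ha : 0 ≤ a) (ha' : a ≤ 1 / 2) (hab : a + 1 / 15 ≤ b) (hM' : 60 ≤ M') (hM : M + 1 ≤ M')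
    {w w' : ℂ} (hw : w ∈ Er a M') (h : ‖w' - w‖ ≤ 1) : w' ∈ Er b M := by
  intro k
  refine Wq_near ha ha' hab hM' hM (hw k) ?_
  have h1 : w' - k - (w - k) = w' - w := by ring
  rw [h1]
  exact h

/-- `HP 1 S` is invariant under `w ↦ w + 1`; `HP_sub_Wq`. -/
theorem HP_sub_Ea {S : ℝ} (hS : 0 ≤ S) : HP 1 S ⊆ Ea (1 / 4) (S / 5) := by
  intro w hw k
  refine HP_sub_Wq (σ := 1) (by rw [abs_one]) hS ?_
  have h1 : S < 1 * w.re + 4 * w.im := hw
  show S < 1 * (w + k).re + 4 * (w + k).im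
  rw [Complex.add_re, Complex.add_im, Complex.natCast_re, Complex.natCast_im]
  have h2 : (0 : ℝ) ≤ k := Nat.cast_nonneg k
  linarith

theorem HP_sub_Er {S : ℝ} (hS : 0 ≤ S) : HP (-1) S ⊆ Er (1 / 4) (S / 5) := by
  intro w hw k
  refine HP_sub_Wq (σ := -1) (by rw [abs_neg, abs_one]) hS ?_
  have h1 : S < -1 * w.re + 4 * w.im := hw
  show S < -1 * (w - k).re + 4 * (w - k).im
  rw [Complex.sub_re, Complex.sub_im, Complex.natCast_re, Complex.natCast_im]
  have h2 : (0 : ℝ) ≤ k := Nat.cast_nonneg k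
  linarith

theorem Ra_sub_Ea {r : ℝ} (hr : 0 ≤ r) : Ra r ⊆ Ea (1 / 4) r := by
  intro w hw k
  have h2 : (0 : ℝ) ≤ k := Nat.cast_nonneg k
  have e1 : (w + k).re = w.re + k := by rw [Complex.add_re, Complex.natCast_re]
  have e2 : (w + k).im = w.im := by rw [Complex.add_im, Complex.natCast_im, add_zero]
  have h3 := Complex.abs_re_le_norm (w + k)
  have h4 := Complex.abs_im_le_norm (w + k)
  rw [e1] at h3
  rw [e2] at h4
  rcases hw with ⟨h5, h6⟩ | h5
  · have h7 := le_abs_self (w.re + k)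
    refine ⟨by linarith, ?_⟩
    rw [e1, e2]
    linarith
  · have h7 := le_abs_self w.im
    have h8 := abs_nonneg (w.re + k)
    refine ⟨by linarith, ?_⟩
    rw [e1, e2]
    linarith

theorem Rr_sub_Er {r : ℝ} (hr : 0 ≤ r) : Rr r ⊆ Er (1 / 4) r := by
  intro w hw k
  have h2 : (0 : ℝ) ≤ k := Nat.cast_nonneg k
  have e1 : (w - k).re = w.re - k := by rw [Complex.sub_re, Complex.natCast_re]
  have e2 : (w - k).im = w.im := by rw [Complex.sub_im, Complex.natCast_im, sub_zero]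
  have h3 := Complex.abs_re_le_norm (w - k)
  have h4 := Complex.abs_im_le_norm (w - k)
  rw [e1] at h3
  rw [e2] at h4
  rcases hw with ⟨h5, h6⟩ | h5
  · have h7 := neg_le_abs (w.re - k)
    refine ⟨by linarith, ?_⟩
    rw [e1, e2]
    linarith
  · have h7 := le_abs_self w.im
    have h8 := abs_nonneg (w.re - k)
    refine ⟨by linarith, ?_⟩
    rw [e1, e2]
    linarith

/-- If `Im w > S/5` the second alternative holds; otherwise `Re w > S/5` and `-4 Im w < Re w - S`. -/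
theorem HP_sub_Ra {S : ℝ} (hS : 0 ≤ S) : HP 1 S ⊆ Ra (S / 5) := by
  intro w hw
  have h1 : S < 1 * w.re + 4 * w.im := hw
  by_cases h2 : S / 5 < w.im
  · exact Or.inr h2
  · push Not at h2
    exact Or.inl ⟨by linarith, by linarith⟩

theorem HP_sub_Rr {S : ℝ} (hS : 0 ≤ S) : HP (-1) S ⊆ Rr (S / 5) := by
  intro w hw
  have h1 : S < -1 * w.re + 4 * w.im := hw
  by_cases h2 : S / 5 < w.im
  · exact Or.inr h2
  · push Not at h2
    exact Or.inl ⟨by linarith, by linarith⟩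

theorem Ea_add {a M : ℝ} {w : ℂ} (hw : w ∈ Ea a M) (k : ℕ) : w + k ∈ Ea a M := by
  intro k'
  have h1 := hw (k + k')
  push_cast at h1
  rwa [add_assoc]

theorem Er_sub {a M : ℝ} {w : ℂ} (hw : w ∈ Er a M) (k : ℕ) : w - k ∈ Er a M := by
  intro k'
  have h1 := hw (k + k')
  push_cast at h1
  rwa [sub_sub]

/-- Every point comes into `Er` (take `n ≥ |Re w| + 4 |Im w| + M`). -/
theorem exists_Er (M : ℝ) (w : ℂ) : ∀ᶠ n : ℕ in atTop, w - n ∈ Er (1 / 4) M := by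
  filter_upwards [eventually_ge_atTop ⌈|w.re| + 4 * |w.im| + |M|⌉₊] with n hn k
  have h0 : |w.re| + 4 * |w.im| + |M| ≤ n := (Nat.le_ceil _).trans (Nat.cast_le.2 hn)
  have h2 : (0 : ℝ) ≤ k := Nat.cast_nonneg k
  have e1 : (w - n - k).re = w.re - n - k := by
    rw [Complex.sub_re, Complex.sub_re, Complex.natCast_re, Complex.natCast_re]
  have e2 : (w - n - k).im = w.im := by
    rw [Complex.sub_im, Complex.sub_im, Complex.natCast_im, Complex.natCast_im, sub_zero, sub_zero]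
  have h3 := Complex.abs_re_le_norm (w - n - k)
  rw [e1] at h3
  have h4 := neg_le_abs (w.re - n - k)
  have h5 := le_abs_self w.re
  have h6 := neg_le_abs w.im
  have h7 := le_abs_self M
  have h8 := abs_nonneg w.im
  have h9 := abs_nonneg M
  refine ⟨by linarith, ?_⟩
  rw [e1, e2]
  linarith

end Pool.Agent.CR
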