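import Pool.Agent.H33.CR.GD

/-!
# CR GD2: the attracting Fatou coordinate in the chart

`phiC c j w = w + ∑' k, c.δ0 (j + k p) (orb c j k w)`.
`phiC_summable`: partial sums are bounded by `orb_sum` (`summable_of_sum_range_le`).
`phiC_est`: `tsum_of_norm_bounded`-type bound by the same estimate (limit of partial sums).
`phiC_lim`: `orb_eq_sum`.
`phiC_orb`: by `orb_add` the series of `orb c j k w` (index `j + k p`) is the tail of the series of `w`, and
`orb c j k w = w + k + ∑_{i<k}` (`orb_eq_sum`); `Summable.sum_add_tsum_nat_add`.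
`phiC_diff`: near a point `w0 ∈ Ω`, on `ball w0 ρ ⊆ Ω`, `δ0_orb_le` gives for `i > ‖w0‖ + ρ + 2` the majorant
`C (i - ‖w0‖ - ρ - 1)^(-(1+1/q))` of the terms (`‖w + i‖ ≥ i - ‖w0‖ - ρ`), and for the other `i` the majorant `1/8`
(field `δ0_small`, `orb_mem`); `differentiableOn_tsum_of_summable_norm`; the terms are holomorphic by `orb_diff` and `δ0_diff`.
-/

set_option autoImplicit false

open Set Filter Topology Metric

namespace Pool.Agent.CR

variable {p q s e : ℕ}

private theorem GD2_sum (c : Chart p q s e) (hq : 0 < q) {M : ℝ} (hM : c.M0 hq ≤ M) (j : ℤ) {w : ℂ}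
    (hw : w ∈ Ea (2 / 5) M) (n : ℕ) : ∑ k ∈ Finset.range n, ‖c.δ0 (j + k * p) (orb c j k w)‖ ≤
      c.T hq * M ^ (-(1 / (q : ℝ))) :=
  (c.orb_sum hq M hM j w n (fun k _ => hw k) n le_rfl).1

theorem phiC_summable (c : Chart p q s e) (hq : 0 < q) {M : ℝ} (hM : c.M0 hq ≤ M) (j : ℤ) {w : ℂ}
    (hw : w ∈ Ea (2 / 5) M) : Summable fun k : ℕ => ‖c.δ0 (j + k * p) (orb c j k w)‖ :=
  summable_of_sum_range_le (fun _ => norm_nonneg _) (GD2_sum c hq hM j hw)

theorem phiC_est (c : Chart p q s e) (hq : 0 < q) {M : ℝ} (hM : c.M0 hq ≤ M) (j : ℤ) {w : ℂ}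
    (hw : w ∈ Ea (2 / 5) M) : ‖phiC c j w - w‖ ≤ c.T hq * M ^ (-(1 / (q : ℝ))) := by
  rw [phiC, add_sub_cancel_left]
  exact (norm_tsum_le_tsum_norm (phiC_summable c hq hM j hw)).trans
    (Real.tsum_le_of_sum_range_le (fun _ => norm_nonneg _) (GD2_sum c hq hM j hw))

theorem phiC_lim (c : Chart p q s e) (hq : 0 < q) (j : ℤ) {w : ℂ} (hw : w ∈ Ea (2 / 5) (c.M0 hq)) :
    Tendsto (fun k : ℕ => orb c j k w - k) atTop (𝓝 (phiC c j w)) := by
  have h1 := ((phiC_summable c hq le_rfl j hw).of_norm).hasSum.tendsto_sum_nat.const_add w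
  refine h1.congr fun k => ?_
  rw [orb_eq_sum]
  ring

theorem phiC_orb (c : Chart p q s e) (hq : 0 < q) (j : ℤ) {w : ℂ} (hw : w ∈ Ea (2 / 5) (c.M0 hq)) (k : ℕ) :
    phiC c (j + k * p) (orb c j k w) = phiC c j w + k := by
  have h1 := ((phiC_summable c hq le_rfl j hw).of_norm).sum_add_tsum_nat_add k
  have h2 : ∀ i : ℕ, c.δ0 (j + k * p + i * p) (orb c (j + k * p) i (orb c j k w)) =
      c.δ0 (j + (i + k : ℕ) * p) (orb c j (i + k) w) := by
    intro i
    rw [← orb_add, add_comm i k]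
    congr 1
    push_cast
    ring
  rw [phiC, phiC, tsum_congr h2, ← h1, orb_eq_sum]
  ring

theorem phiC_diff (c : Chart p q s e) (hq : 0 < q) (j : ℤ) {Ω : Set ℂ} (ho : IsOpen Ω) (h : Ω ⊆ Ea (2 / 5) (c.M0 hq)) :
    DifferentiableOn ℂ (phiC c j) Ω := by
  intro w0 hw0
  obtain ⟨ρ, hρ, hρΩ⟩ := Metric.isOpen_iff.mp ho w0 hw0
  have hb : ball w0 (min ρ 1) ⊆ Ω := (ball_subset_ball (min_le_left _ _)).trans hρΩ
  have hr : 0 < min ρ 1 := lt_min hρ one_pos
  have hexp : (0 : ℝ) ≤ 1 + 1 / (q : ℝ) := by positivity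
  obtain ⟨K, hK⟩ := exists_nat_ge (‖w0‖ + 3)
  obtain ⟨u, hu⟩ : ∃ u : ℕ → ℝ, u = fun i => if i < K then 1 / 8 else
    c.C * (((i - K : ℕ) : ℝ) + 1) ^ (-(1 + 1 / (q : ℝ))) := ⟨_, rfl⟩
  have husum : Summable u := by
    rw [← summable_nat_add_iff K]
    have h1 : (fun i => u (i + K)) = fun i : ℕ => c.C * (((i + 1 : ℕ) : ℝ)) ^ (-(1 + 1 / (q : ℝ))) := by
      funext i
      rw [hu]
      simp only
      rw [if_neg (by omega), Nat.add_sub_cancel]
      push_cast
      rfl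
    rw [h1]
    refine Summable.mul_left _ ?_
    have h2 : Summable fun n : ℕ => (n : ℝ) ^ (-(1 + 1 / (q : ℝ))) := by
      rw [Real.summable_nat_rpow]
      have h3 : (0 : ℝ) < 1 / (q : ℝ) := by positivity
      linarith
    exact (summable_nat_add_iff 1).mpr h2
  have hd : ∀ i : ℕ, DifferentiableOn ℂ (fun w => c.δ0 (j + i * p) (orb c j i w)) (ball w0 (min ρ 1)) := by
    intro i
    have h1 : DifferentiableOn ℂ (orb c j i) (ball w0 (min ρ 1)) :=
      orb_diff c hq le_rfl j isOpen_ball (i + 1) (fun w hw k _ => h (hb hw) k) i (by omega)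
    refine (c.δ0_diff (j + i * p)).comp h1 ?_
    intro w hw
    have h3 := c.orb_mem hq le_rfl j w (i + 1) (fun k _ => h (hb hw) k) i (by omega)
    exact ⟨h3.2.1, h3.2.2 (by omega)⟩
  have hle : ∀ (i : ℕ) (w : ℂ), w ∈ ball w0 (min ρ 1) → ‖c.δ0 (j + i * p) (orb c j i w)‖ ≤ u i := by
    intro i w hw
    have hww : ‖w - w0‖ < 1 := by
      rw [← dist_eq_norm]
      exact lt_of_lt_of_le (mem_ball.mp hw) (min_le_right _ _)
    rw [hu]
    simp only
    split_ifs with hi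
    · have h3 := c.orb_mem hq le_rfl j w (i + 1) (fun k _ => h (hb hw) k) i (by omega)
      exact (c.δ0_small (j + i * p) _ h3.2.1 (h3.2.2 (by omega))).1
    · refine (δ0_orb_le c hq le_rfl j w (i + 1) (fun k _ => h (hb hw) k) i (by omega)).trans ?_
      refine mul_le_mul_of_nonneg_left ?_ c.C_pos.le
      refine Real.rpow_le_rpow_of_nonpos (by positivity) ?_ (by linarith)
      have h4 : (((i - K : ℕ)) : ℝ) = (i : ℝ) - K := by
        rw [Nat.cast_sub (by omega)]
      have h5 : (i : ℝ) ≤ ‖w + i‖ + ‖w‖ := by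
        have h6 := norm_sub_le (w + i) w
        rwa [add_sub_cancel_left, Complex.norm_natCast] at h6
      have h7 : ‖w‖ ≤ ‖w0‖ + 1 := by
        have h8 := norm_add_le w0 (w - w0)
        rw [add_sub_cancel] at h8
        linarith
      rw [h4]
      linarith
  have hts := Complex.differentiableOn_tsum_of_summable_norm husum hd isOpen_ball hle
  have hmem : w0 ∈ ball w0 (min ρ 1) := mem_ball_self hr
  have h1 : DifferentiableAt ℂ (fun w => ∑' i : ℕ, c.δ0 (j + i * p) (orb c j i w)) w0 :=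
    hts.differentiableAt (isOpen_ball.mem_nhds hmem)
  exact (differentiableAt_id.add h1).differentiableWithinAt

end Pool.Agent.CR
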