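import Pool.Agent.H33.CR.GD

/-!
# CR GE: the repelling Fatou parametrisation in the chart

`UU c j w = lim_n orb c (j - n p) n (w - n)` for `w ∈ Er (1/3) M`, `M ≥ M0 + 1`. Write `Un n w = orb c (j - n p) n (w - n)`.
For `w' ∈ ball w 1` we have `w' ∈ Er (2/5) (M-1)` (`Er_near`), so `‖Un n w' - w'‖ ≤ 1/8` (`orb_est` with `(w' - n) + k = w' - (n - k)`), and `Un n` is
holomorphic on the ball (`orb_diff`); hence `‖Un n w' - Un n w‖ ≤ 2 ‖w' - w‖` on `ball w (1/2)` (`near_id_ball`).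
By `orb_succ'`: `Un (n+1) w = orb c (j - n p) n (w - n + δ) = Un n (w + δ)` with `δ = δ0 (j - (n+1) p) (w - (n+1))`,
`‖δ‖ ≤ C ‖w - (n+1)‖^(-(1+1/q))` (field `δ0_small`), `‖δ‖ ≤ 1/8`. So `‖Un (n+1) w - Un n w‖ ≤ 2 C ‖w - (n+1)‖^(-(1+1/q))`, which is summable in `n`,
locally uniformly in `w` (`‖w - (n+1)‖ ≥ n + 1 - ‖w‖`).
`UU_tendsto`: `cauchySeq_of_dist_le_of_summable`, `limUnder`. `UU_est`: limit of `orb_est`.
`UU_diff`: locally uniform limits (`TendstoLocallyUniformlyOn.differentiableOn`; for the uniform rate use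
`dist_le_tsum_of_dist_le_of_tendsto` with a majorant valid on a small ball).
-/

set_option autoImplicit false

open Set Filter Topology Metric

namespace Pool.Agent.CR

variable {p q s e : ℕ}

/-- repelling Fatou parametrisation in the chart (sheet `j`) -/
noncomputable def UU (c : Chart p q s e) (j : ℤ) (w : ℂ) : ℂ :=
  limUnder atTop fun n : ℕ => orb c (j - n * p) n (w - n)

private theorem GE_shift {a M : ℝ} {w : ℂ} (hw : w ∈ Er a M) {n k : ℕ} (hk : k ≤ n) :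
    (w - n) + k ∈ Wq a M := by
  have h1 := hw (n - k)
  rw [Nat.cast_sub hk] at h1
  have e : w - n + k = w - ((n : ℂ) - k) := by ring
  rw [e]
  exact h1

private theorem GE_M0 (c : Chart p q s e) (hq : 0 < q) : 64 ≤ c.M0 hq := by
  have h1 := c.M0_ge hq
  have h2 := c.R_ge
  linarith

/-- the approximations -/
private noncomputable def GE_U (c : Chart p q s e) (j : ℤ) (n : ℕ) (w : ℂ) : ℂ :=
  orb c (j - n * p) n (w - n)

private theorem GE_est (c : Chart p q s e) (hq : 0 < q) {M : ℝ} (hM : c.M0 hq ≤ M) (j : ℤ) {w : ℂ}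
    (hw : w ∈ Er (2 / 5) M) (n : ℕ) : ‖GE_U c j n w - w‖ ≤ c.T hq * M ^ (-(1 / (q : ℝ))) := by
  have h1 := c.orb_est hq hM (j - n * p) (w - n) n (fun k hk => GE_shift hw hk) n le_rfl
  rwa [sub_add_cancel] at h1

private theorem GE_diff (c : Chart p q s e) (hq : 0 < q) {M : ℝ} (hM : c.M0 hq ≤ M) (j : ℤ)
    {Ω : Set ℂ} (ho : IsOpen Ω) (h : Ω ⊆ Er (2 / 5) M) (n : ℕ) :
    DifferentiableOn ℂ (GE_U c j n) Ω := by
  have ho' : IsOpen {u : ℂ | u + n ∈ Ω} := ho.preimage (by fun_prop)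
  have h1 := orb_diff c hq hM (j - n * p) ho' n (fun u hu k hk => by
    have h2 := GE_shift (h hu) hk
    rwa [add_sub_cancel_right] at h2) n le_rfl
  have h3 : DifferentiableOn ℂ (fun w : ℂ => w - n) Ω := by fun_prop
  refine h1.comp h3 ?_
  intro w hw
  change w - n + n ∈ Ω
  rwa [sub_add_cancel]

private theorem GE_delta (c : Chart p q s e) (hq : 0 < q) {M : ℝ} (hM : c.M0 hq + 1 ≤ M) (j : ℤ)
    {w : ℂ} (hw : w ∈ Er (1 / 3) M) (n : ℕ) :
    ‖c.δ0 j (w - (n + 1 : ℕ))‖ ≤ 1 / 8 ∧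
      ‖c.δ0 j (w - (n + 1 : ℕ))‖ ≤ c.C * ‖w - (n + 1 : ℕ)‖ ^ (-(1 + 1 / (q : ℝ))) := by
  have h0 := c.M0_ge hq
  have hRM : c.R + 60 ≤ M := by linarith
  have h1 : w - (n + 1 : ℕ) ∈ Wq (2 / 5) M := Wq_mono (by norm_num) le_rfl (hw (n + 1))
  have h2 : w - (n : ℕ) ∈ Wq (2 / 5) M := Wq_mono (by norm_num) le_rfl (hw n)
  have h3 := (Wq_near_Wi c.R_ge hRM h1 (w' := w - (n + 1 : ℕ)) (by simp)).2
  have h4 := (Wq_near_Wi c.R_ge hRM h2 (w' := w - (n : ℕ)) (by simp)).1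
  refine c.δ0_small j _ h3 ?_
  have e : w - (n + 1 : ℕ) + 1 = w - (n : ℕ) := by
    push_cast
    ring
  rw [e]
  exact h4

private theorem GE_step (c : Chart p q s e) (j : ℤ) (n : ℕ) (w : ℂ) :
    orb c (j - (n + 1 : ℕ) * p) (n + 1) (w - (n + 1 : ℕ)) =
      GE_U c j n (w + c.δ0 (j - (n + 1 : ℕ) * p) (w - (n + 1 : ℕ))) := by
  rw [orb_succ']
  unfold GE_U
  have e1 : j - ((n + 1 : ℕ) : ℤ) * p + p = j - n * p := by
    push_cast
    ring
  have e2 : w - ((n + 1 : ℕ) : ℂ) + 1 + c.δ0 (j - (n + 1 : ℕ) * p) (w - (n + 1 : ℕ)) =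
      w + c.δ0 (j - (n + 1 : ℕ) * p) (w - (n + 1 : ℕ)) - n := by
    push_cast
    ring
  rw [e1, e2]

theorem UU_cauchy (c : Chart p q s e) (hq : 0 < q) {M : ℝ} (hM : c.M0 hq + 1 ≤ M) (j : ℤ) {w : ℂ}
    (hw : w ∈ Er (1 / 3) M) (n : ℕ) :
    ‖orb c (j - (n + 1 : ℕ) * p) (n + 1) (w - (n + 1 : ℕ)) - orb c (j - n * p) n (w - n)‖ ≤
      2 * c.C * ‖w - (n + 1 : ℕ)‖ ^ (-(1 + 1 / (q : ℝ))) := by
  have hM0 := GE_M0 c hq
  have hMM : c.M0 hq ≤ M - 1 := by linarith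
  obtain ⟨h1, h2⟩ := GE_delta c hq hM (j - (n + 1 : ℕ) * p) hw n
  rw [GE_step]
  change ‖GE_U c j n (w + c.δ0 (j - (n + 1 : ℕ) * p) (w - (n + 1 : ℕ))) - GE_U c j n w‖ ≤ _
  obtain ⟨δ, hδ⟩ : ∃ δ, δ = c.δ0 (j - (n + 1 : ℕ) * p) (w - (n + 1 : ℕ)) := ⟨_, rfl⟩
  rw [← hδ] at h1 h2 ⊢
  have hball : ball w 1 ⊆ Er (2 / 5) (M - 1) := by
    intro w' hw'
    rw [mem_ball, dist_eq_norm] at hw'
    exact Er_near (by norm_num) (by norm_num) (by norm_num) (by linarith) (by linarith) hw hw'.le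
  have h3 := near_id_ball (x := w) (g := GE_U c j n) (c := 1 / 8)
    (GE_diff c hq hMM j isOpen_ball hball n)
    (fun w' hw' => (GE_est c hq hMM j (hball hw') n).trans (c.T_le hq _ hMM))
    (w + δ) (by
      rw [mem_ball, dist_eq_norm, add_sub_cancel_left]
      linarith) w (by simp)
  rw [add_sub_cancel_left] at h3
  have h4 : ‖GE_U c j n (w + δ) - GE_U c j n w‖ ≤ 2 * ‖δ‖ := by
    have h5 : GE_U c j n (w + δ) - GE_U c j n w =
        (GE_U c j n (w + δ) - GE_U c j n w - δ) + δ := by ring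
    rw [h5]
    refine (norm_add_le _ _).trans ?_
    have := norm_nonneg δ
    linarith
  calc ‖GE_U c j n (w + δ) - GE_U c j n w‖ ≤ 2 * ‖δ‖ := h4
    _ ≤ 2 * (c.C * ‖w - (n + 1 : ℕ)‖ ^ (-(1 + 1 / (q : ℝ)))) := by linarith
    _ = 2 * c.C * ‖w - (n + 1 : ℕ)‖ ^ (-(1 + 1 / (q : ℝ))) := by ring

/-- the majorant -/
private noncomputable def GE_G (c : Chart p q s e) (A : ℝ) (n : ℕ) : ℝ :=
  2 * c.C * (((n + 1 : ℕ) : ℝ) / (A + 1)) ^ (-(1 + 1 / (q : ℝ)))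

private theorem GE_summable (c : Chart p q s e) (hq : 0 < q) {A : ℝ} (hA : 0 ≤ A) :
    Summable (GE_G c A) := by
  have hq' : (0 : ℝ) < 1 / (q : ℝ) := by
    have : (0 : ℝ) < q := by exact_mod_cast hq
    positivity
  have h1 : Summable fun n : ℕ => (n : ℝ) ^ (-(1 + 1 / (q : ℝ))) :=
    Real.summable_nat_rpow.2 (by linarith)
  have h2 := (summable_nat_add_iff 1).2 h1
  have h3 := h2.mul_left (2 * c.C * (A + 1) ^ (1 + 1 / (q : ℝ)))
  refine h3.congr ?_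
  intro n
  unfold GE_G
  have hA1 : 0 < A + 1 := by linarith
  rw [Real.div_rpow (Nat.cast_nonneg _) hA1.le, Real.rpow_neg hA1.le, div_inv_eq_mul]
  ring

private theorem GE_le (c : Chart p q s e) (hq : 0 < q) {M A : ℝ} (hM : 1 ≤ M) {w : ℂ}
    (hw : w ∈ Er (1 / 3) M) (hA : ‖w‖ ≤ A) (n : ℕ) :
    2 * c.C * ‖w - (n + 1 : ℕ)‖ ^ (-(1 + 1 / (q : ℝ))) ≤ GE_G c A n := by
  have hA0 : 0 ≤ A := (norm_nonneg _).trans hA
  have hA1 : 0 < A + 1 := by linarith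
  unfold GE_G
  refine mul_le_mul_of_nonneg_left ?_ (by
    have := c.C_pos
    positivity)
  have hn : (0 : ℝ) < ((n + 1 : ℕ) : ℝ) := by positivity
  have hq' : (0 : ℝ) < 1 / (q : ℝ) := by
    have : (0 : ℝ) < q := by exact_mod_cast hq
    positivity
  refine Real.rpow_le_rpow_of_nonpos (by positivity) ?_ (by linarith)
  have h1 : 1 ≤ ‖w - (n + 1 : ℕ)‖ := hM.trans (hw (n + 1)).1
  have h2 : ((n + 1 : ℕ) : ℝ) - A ≤ ‖w - (n + 1 : ℕ)‖ := by
    have h3 := norm_sub_norm_le (((n + 1 : ℕ) : ℂ)) w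
    rw [Complex.norm_natCast, norm_sub_rev] at h3
    linarith
  rw [div_le_iff₀ hA1]
  rcases le_or_gt ((n + 1 : ℕ) : ℝ) (A + 1) with h3 | h3
  · nlinarith
  · have h4 : ((n + 1 : ℕ) : ℝ) ≤ (((n + 1 : ℕ) : ℝ) - A) * (A + 1) := by nlinarith
    exact h4.trans (mul_le_mul_of_nonneg_right h2 hA1.le)

private theorem GE_dist (c : Chart p q s e) (hq : 0 < q) {M A : ℝ} (hM : c.M0 hq + 1 ≤ M) (j : ℤ)
    {w : ℂ} (hw : w ∈ Er (1 / 3) M) (hA : ‖w‖ ≤ A) (n : ℕ) :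
    dist (GE_U c j n w) (GE_U c j (n + 1) w) ≤ GE_G c A n := by
  rw [dist_comm, dist_eq_norm]
  refine (UU_cauchy c hq hM j hw n).trans ?_
  refine GE_le c hq ?_ hw hA n
  have := GE_M0 c hq
  linarith


theorem UU_tendsto (c : Chart p q s e) (hq : 0 < q) {M : ℝ} (hM : c.M0 hq + 1 ≤ M) (j : ℤ) {w : ℂ}
    (hw : w ∈ Er (1 / 3) M) : Tendsto (fun n : ℕ => orb c (j - n * p) n (w - n)) atTop (𝓝 (UU c j w)) := by
  have h1 : CauchySeq fun n : ℕ => GE_U c j n w :=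
    cauchySeq_of_dist_le_of_summable (GE_G c ‖w‖) (GE_dist c hq hM j hw le_rfl)
      (GE_summable c hq (norm_nonneg _))
  exact h1.tendsto_limUnder


theorem UU_est (c : Chart p q s e) (hq : 0 < q) {M : ℝ} (hM : c.M0 hq + 1 ≤ M) (j : ℤ) {w : ℂ}
    (hw : w ∈ Er (1 / 3) M) : ‖UU c j w - w‖ ≤ c.T hq * M ^ (-(1 / (q : ℝ))) := by
  have h1 := ((UU_tendsto c hq hM j hw).sub_const w).norm
  refine le_of_tendsto h1 (Eventually.of_forall fun n => ?_)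
  exact GE_est c hq (by linarith) j (Er_mono (by norm_num) le_rfl hw) n


theorem UU_diff (c : Chart p q s e) (hq : 0 < q) (j : ℤ) {Ω : Set ℂ} (ho : IsOpen Ω)
    (h : Ω ⊆ Er (1 / 3) (c.M0 hq + 1)) : DifferentiableOn ℂ (UU c j) Ω := by
  have hM : c.M0 hq + 1 ≤ c.M0 hq + 1 := le_rfl
  have h1 : TendstoLocallyUniformlyOn (fun n : ℕ => GE_U c j n) (UU c j) atTop Ω := by
    rw [Metric.tendstoLocallyUniformlyOn_iff]
    intro ε hε x hx
    refine ⟨ball x 1 ∩ Ω, ?_, ?_⟩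
    · exact inter_mem (mem_nhdsWithin_of_mem_nhds (ball_mem_nhds x one_pos)) self_mem_nhdsWithin
    · have hA : 0 ≤ ‖x‖ + 1 := by positivity
      have h2 := tendsto_sum_nat_add (GE_G c (‖x‖ + 1))
      have h3 := (tendsto_order.1 h2).2 ε hε
      filter_upwards [h3] with n hn w hw
      have hwx : ‖w‖ ≤ ‖x‖ + 1 := by
        have h4 := mem_ball.1 hw.1
        rw [dist_eq_norm] at h4
        have h5 := norm_add_le (w - x) x
        rw [sub_add_cancel] at h5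
        linarith
      have h6 := dist_le_tsum_of_dist_le_of_tendsto (GE_G c (‖x‖ + 1))
        (GE_dist c hq hM j (h hw.2) hwx) (GE_summable c hq hA)
        (UU_tendsto c hq hM j (h hw.2)) n
      rw [dist_comm]
      refine lt_of_le_of_lt h6 ?_
      refine lt_of_le_of_lt (le_of_eq ?_) hn
      exact tsum_congr fun k => by rw [Nat.add_comm n k]
  refine h1.differentiableOn (Eventually.of_forall fun n => ?_) ho
  refine GE_diff c hq le_rfl j ho ?_ n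
  exact h.trans (Er_mono (by norm_num) (by linarith))


end Pool.Agent.CR
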