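import Pool.Agent.H33.CR.GE

/-!
# CR GF: the repelling Fatou parametrisations `psiR j : ℂ → ℂ`

`E = Er (1/3) (M0 + 1)`.
`UU_mem`: `UU_est` (`≤ 1/8`), `Wq_near_Wi`.
`UU_step`: if `w, w + 1 ∈ E`: `orb c (j + p - (n+1) p) (n+1) (w + 1 - (n+1)) = F (orb c (j - n p) n (w - n))` with `F x = x + 1 + δ0 j x` (`orb_succ`:
the index is `(j - n p) + n p = j`); let `n → ∞`, `δ0 j` is continuous at `UU c j w` (`UU_mem` gives the domain conditions: `UU c j w + 1` is
within `1/8` of `w + 1`). The second part: `map0`.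
`psiR_eq`: for `w - n ∈ E` the values for `n` and `n + 1` agree (`UU_step` at `w - (n+1)`, `Function.iterate_succ_apply`), so all values agree with the
value at any large `n`; the definition uses such an `n` (`exists_Er`, `Er_mono`).
`psiR_f`: take `n` with `w - n ∈ E`; then `w + 1 - (n+1) = w - n`; `psiR (j+p) (w+1) = f^(n+1) (W0 (j + p - (n+1) p) (UU .. (w - n)))`.
`psiR_tendsto`: take `n0` with `w - n0 ∈ E`; for `n ≥ n0`:
`f^n (W0 (j - n p) (w - n)) = f^n0 (W0 (j - n0 p) (orb c (j - n p) (n - n0) (w - n)))` (`orb_sum`), and with `j0 = j - n0 p`, `w0 = w - n0` this is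
`f^n0 (W0 j0 (orb c (j0 - k p) k (w0 - k)))`, `k = n - n0`, which converges to `f^n0 (W0 j0 (UU c j0 w0)) = psiR j w` (`UU_tendsto`, continuity of `W0 j0`
at `UU c j0 w0 ∈ Wd0`).
`psiR_per`: the sequences of `psiR_tendsto` for `j + q` and `j` coincide (`per0`); `tendsto_nhds_unique`.
`psiR_diff`: near `w` one `n` works for all points (`Er_near`, `Er_mono`: if `w - n ∈ Er (1/4) (M0 + 2)` then the ball of radius `1` about `w - n` is in `E`);
`psiR_eq` and `UU_diff` on the ball.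
-/

set_option autoImplicit false

open Set Filter Topology Metric

namespace Pool.Agent.CR

variable {p q s e : ℕ}

private theorem GF_dist (c : Chart p q s e) (hq : 0 < q) (j : ℤ) {w : ℂ}
    (hw : w ∈ Er (1 / 3) (c.M0 hq + 1)) : ‖UU c j w - w‖ ≤ 1 / 8 :=
  (UU_est c hq (le_refl _) j hw).trans (c.T_le hq _ (by linarith))

private theorem GF_Wq (c : Chart p q s e) (hq : 0 < q) {w : ℂ}
    (hw : w ∈ Er (1 / 3) (c.M0 hq + 1)) (k : ℕ) : w - k ∈ Wq (2 / 5) (c.M0 hq) :=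
  Wq_mono (by norm_num) (by linarith) (hw k)

theorem UU_mem (c : Chart p q s e) (hq : 0 < q) (j : ℤ) {w : ℂ} (hw : w ∈ Er (1 / 3) (c.M0 hq + 1)) :
    UU c j w ∈ Wi0 c.R ∧ UU c j w ∈ Wd0 c.R := by
  have h0 := GF_Wq c hq hw 0
  rw [Nat.cast_zero, sub_zero] at h0
  exact Wq_near_Wi c.R_ge (c.M0_ge hq) h0 ((GF_dist c hq j hw).trans (by norm_num))

private theorem GF_mem1 (c : Chart p q s e) (hq : 0 < q) (j : ℤ) {w : ℂ}
    (hw : w ∈ Er (1 / 3) (c.M0 hq + 1)) (hw1 : w + 1 ∈ Er (1 / 3) (c.M0 hq + 1)) :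
    UU c j w + 1 ∈ Wi0 c.R := by
  have h0 := GF_Wq c hq hw1 0
  rw [Nat.cast_zero, sub_zero] at h0
  refine (Wq_near_Wi c.R_ge (c.M0_ge hq) h0 ?_).1
  have h1 : UU c j w + 1 - (w + 1) = UU c j w - w := by ring
  rw [h1]
  exact (GF_dist c hq j hw).trans (by norm_num)

theorem UU_step (c : Chart p q s e) (hq : 0 < q) (j : ℤ) {w : ℂ} (hw : w ∈ Er (1 / 3) (c.M0 hq + 1))
    (hw1 : w + 1 ∈ Er (1 / 3) (c.M0 hq + 1)) :
    UU c (j + p) (w + 1) = UU c j w + 1 + c.δ0 j (UU c j w) ∧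
      f (mu ((p : ℝ) / q)) (c.W0 j (UU c j w)) = c.W0 (j + p) (UU c (j + p) (w + 1)) := by
  have hm := UU_mem c hq j hw
  have hm1 := GF_mem1 c hq j hw hw1
  have ht := UU_tendsto c hq (le_refl _) j hw
  have ht1 := (UU_tendsto c hq (le_refl _) (j + p) hw1).comp (tendsto_add_atTop_nat 1)
  have hopen : IsOpen {w : ℂ | w ∈ Wd0 c.R ∧ w + 1 ∈ Wi0 c.R} :=
    (isOpen_Wd0 c.R).inter ((isOpen_Wi0 c.R).preimage (continuous_id.add continuous_const))
  have hcont : ContinuousAt (c.δ0 j) (UU c j w) :=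
    ((c.δ0_diff j).differentiableAt (hopen.mem_nhds ⟨hm.2, hm1⟩)).continuousAt
  have ht2 : Tendsto (fun n : ℕ => orb c (j - n * p) n (w - n) + 1 +
      c.δ0 j (orb c (j - n * p) n (w - n))) atTop (𝓝 (UU c j w + 1 + c.δ0 j (UU c j w))) :=
    (ht.add_const 1).add (hcont.tendsto.comp ht)
  have heq : ((fun n : ℕ => orb c (j + p - n * p) n (w + 1 - n)) ∘ fun a => a + 1)
      = fun n : ℕ => orb c (j - n * p) n (w - n) + 1 + c.δ0 j (orb c (j - n * p) n (w - n)) := by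
    funext n
    simp only [Function.comp_apply]
    have h1 : (j + p - ((n + 1 : ℕ) : ℤ) * p : ℤ) = j - n * p := by
      push_cast
      ring
    have h2 : (w + 1 - ((n + 1 : ℕ) : ℂ) : ℂ) = w - n := by
      push_cast
      ring
    rw [h1, h2, orb_succ]
    have h3 : (j - n * p + n * p : ℤ) = j := by ring
    rw [h3]
  rw [heq] at ht1
  have h5 := tendsto_nhds_unique ht1 ht2
  refine ⟨h5, ?_⟩
  rw [c.map0 j _ hm.2 hm1, h5]

/-- the repelling Fatou parametrisation of sheet `j` -/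
noncomputable def psiR (c : Chart p q s e) (hq : 0 < q) (j : ℤ) (w : ℂ) : ℂ :=
  (f (mu ((p : ℝ) / q)))^[(exists_Er (c.M0 hq + 1) w).exists.choose]
    (c.W0 (j - (exists_Er (c.M0 hq + 1) w).exists.choose * p)
      (UU c (j - (exists_Er (c.M0 hq + 1) w).exists.choose * p) (w - (exists_Er (c.M0 hq + 1) w).exists.choose)))

private theorem GF_succ (c : Chart p q s e) (hq : 0 < q) (j : ℤ) (w : ℂ) (n : ℕ)
    (hn : w - n ∈ Er (1 / 3) (c.M0 hq + 1)) :
    (f (mu ((p : ℝ) / q)))^[n + 1] (c.W0 (j - (n + 1 : ℕ) * p) (UU c (j - (n + 1 : ℕ) * p) (w - (n + 1 : ℕ))))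
      = (f (mu ((p : ℝ) / q)))^[n] (c.W0 (j - n * p) (UU c (j - n * p) (w - n))) := by
  have h1 : w - ((n + 1 : ℕ) : ℂ) ∈ Er (1 / 3) (c.M0 hq + 1) := by
    have h2 := Er_sub hn 1
    have h3 : w - (n : ℂ) - ((1 : ℕ) : ℂ) = w - ((n + 1 : ℕ) : ℂ) := by
      push_cast
      ring
    rwa [h3] at h2
  have h4 : w - ((n + 1 : ℕ) : ℂ) + 1 = w - n := by
    push_cast
    ring
  have h5 : (j - ((n + 1 : ℕ) : ℤ) * p + p : ℤ) = j - n * p := by
    push_cast
    ring
  have h6 := (UU_step c hq (j - ((n + 1 : ℕ) : ℤ) * p) h1 (by rw [h4]; exact hn)).2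
  rw [h4, h5] at h6
  rw [Function.iterate_succ_apply, h6]

private theorem GF_add (c : Chart p q s e) (hq : 0 < q) (j : ℤ) (w : ℂ) (n : ℕ)
    (hn : w - n ∈ Er (1 / 3) (c.M0 hq + 1)) (m : ℕ) :
    (f (mu ((p : ℝ) / q)))^[n + m] (c.W0 (j - (n + m : ℕ) * p) (UU c (j - (n + m : ℕ) * p) (w - (n + m : ℕ))))
      = (f (mu ((p : ℝ) / q)))^[n] (c.W0 (j - n * p) (UU c (j - n * p) (w - n))) := by
  induction m with
  | zero => rw [add_zero]
  | succ m ih =>
    have h1 : w - ((n + m : ℕ) : ℂ) ∈ Er (1 / 3) (c.M0 hq + 1) := by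
      have h2 := Er_sub hn m
      have h3 : w - (n : ℂ) - (m : ℂ) = w - ((n + m : ℕ) : ℂ) := by
        push_cast
        ring
      rwa [h3] at h2
    rw [← ih]
    exact GF_succ c hq j w (n + m) h1

theorem psiR_eq (c : Chart p q s e) (hq : 0 < q) (j : ℤ) (w : ℂ) (n : ℕ) (hn : w - n ∈ Er (1 / 3) (c.M0 hq + 1)) :
    psiR c hq j w = (f (mu ((p : ℝ) / q)))^[n] (c.W0 (j - n * p) (UU c (j - n * p) (w - n))) := by
  unfold psiR
  set n0 := (exists_Er (c.M0 hq + 1) w).exists.choose with hn0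
  have h1 : w - n0 ∈ Er (1 / 3) (c.M0 hq + 1) :=
    Er_mono (by norm_num) (le_refl _) (exists_Er (c.M0 hq + 1) w).exists.choose_spec
  have h2 := GF_add c hq j w n0 h1 n
  have h3 := GF_add c hq j w n hn n0
  rw [← h2, ← h3, add_comm n0 n]

/-- `psiR_eq` with `n = 0`. -/
theorem psiR_W0 (c : Chart p q s e) (hq : 0 < q) (j : ℤ) {w : ℂ} (hw : w ∈ Er (1 / 3) (c.M0 hq + 1)) :
    psiR c hq j w = c.W0 j (UU c j w) := by
  have h := psiR_eq c hq j w 0 (by simpa using hw)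
  simpa using h

private theorem GF_ex (c : Chart p q s e) (hq : 0 < q) (w : ℂ) :
    ∃ n : ℕ, w - n ∈ Er (1 / 3) (c.M0 hq + 1) := by
  obtain ⟨n, hn⟩ := (exists_Er (c.M0 hq + 1) w).exists
  exact ⟨n, Er_mono (by norm_num) (le_refl _) hn⟩

theorem psiR_f (c : Chart p q s e) (hq : 0 < q) (j : ℤ) (w : ℂ) :
    f (mu ((p : ℝ) / q)) (psiR c hq j w) = psiR c hq (j + p) (w + 1) := by
  obtain ⟨n, hn⟩ := GF_ex c hq w
  have h1 : w + 1 - ((n + 1 : ℕ) : ℂ) = w - n := by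
    push_cast
    ring
  have h2 : (j + p - ((n + 1 : ℕ) : ℤ) * p : ℤ) = j - n * p := by
    push_cast
    ring
  rw [psiR_eq c hq j w n hn, psiR_eq c hq (j + p) (w + 1) (n + 1) (by rw [h1]; exact hn), h1, h2,
    Function.iterate_succ_apply']

theorem psiR_tendsto (c : Chart p q s e) (hq : 0 < q) (j : ℤ) (w : ℂ) :
    Tendsto (fun n : ℕ => (f (mu ((p : ℝ) / q)))^[n] (c.W0 (j - n * p) (w - n))) atTop (𝓝 (psiR c hq j w)) := by
  obtain ⟨n0, hn0⟩ := GF_ex c hq w
  rw [← tendsto_add_atTop_iff_nat n0, psiR_eq c hq j w n0 hn0]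
  set j0 : ℤ := j - n0 * p with hj0
  set w0 : ℂ := w - n0 with hw0
  have heq : (fun k : ℕ => (f (mu ((p : ℝ) / q)))^[k + n0] (c.W0 (j - (k + n0 : ℕ) * p) (w - (k + n0 : ℕ))))
      = fun k : ℕ => (f (mu ((p : ℝ) / q)))^[n0] (c.W0 j0 (orb c (j0 - k * p) k (w0 - k))) := by
    funext k
    have h1 : w - ((k + n0 : ℕ) : ℂ) = w0 - k := by
      rw [hw0]
      push_cast
      ring
    have h2 : (j - ((k + n0 : ℕ) : ℤ) * p : ℤ) = j0 - k * p := by
      rw [hj0]
      push_cast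
      ring
    rw [h1, h2, add_comm k n0, Function.iterate_add_apply]
    have h3 : ∀ i ≤ k, w0 - k + i ∈ Wq (2 / 5) (c.M0 hq) := by
      intro i hi
      have h4 := GF_Wq c hq hn0 (k - i)
      have h5 : w0 - ((k - i : ℕ) : ℂ) = w0 - k + i := by
        rw [Nat.cast_sub hi]
        ring
      rwa [h5] at h4
    rw [(c.orb_sum hq (c.M0 hq) (le_refl _) (j0 - k * p) (w0 - k) k h3 k (le_refl _)).2]
    have h6 : (j0 - k * p + k * p : ℤ) = j0 := by ring
    rw [h6]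
  rw [heq]
  have hm := UU_mem c hq j0 hn0
  have ht := UU_tendsto c hq (le_refl _) j0 hn0
  have hcont : ContinuousAt (c.W0 j0) (UU c j0 w0) :=
    ((c.diff0 j0).differentiableAt ((isOpen_Wd0 c.R).mem_nhds hm.2)).continuousAt
  have hf : Continuous (f (mu ((p : ℝ) / q))) := by
    unfold f
    fun_prop
  exact ((hf.iterate n0).tendsto _).comp (hcont.tendsto.comp ht)

theorem psiR_per (c : Chart p q s e) (hq : 0 < q) (j : ℤ) (w : ℂ) : psiR c hq (j + q) w = psiR c hq j w := by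
  have h1 := psiR_tendsto c hq (j + q) w
  have h2 := psiR_tendsto c hq j w
  have heq : (fun n : ℕ => (f (mu ((p : ℝ) / q)))^[n] (c.W0 (j + q - n * p) (w - n)))
      = fun n : ℕ => (f (mu ((p : ℝ) / q)))^[n] (c.W0 (j - n * p) (w - n)) := by
    funext n
    have h3 : (j + q - n * p : ℤ) = j - n * p + q := by ring
    rw [h3, c.per0]
  rw [heq] at h1
  exact tendsto_nhds_unique h1 h2

theorem psiR_diff (c : Chart p q s e) (hq : 0 < q) (j : ℤ) : Differentiable ℂ (psiR c hq j) := by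
  intro w
  obtain ⟨n, hn⟩ := (exists_Er (c.M0 hq + 2) w).exists
  have hM := c.M0_ge hq
  have hR := c.R_ge
  have hball : ball (w - n) 1 ⊆ Er (1 / 3) (c.M0 hq + 1) := by
    intro z hz
    rw [mem_ball, dist_eq_norm] at hz
    exact Er_near (by norm_num) (by norm_num) (by norm_num) (by linarith) (by linarith) hn hz.le
  have hmem : w - n ∈ ball (w - n : ℂ) 1 := mem_ball_self one_pos
  have hev : psiR c hq j =ᶠ[𝓝 w] fun z =>
      (f (mu ((p : ℝ) / q)))^[n] (c.W0 (j - n * p) (UU c (j - n * p) (z - n))) := by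
    filter_upwards [isOpen_ball.mem_nhds (mem_ball_self (x := w) one_pos)] with z hz
    apply psiR_eq
    apply hball
    rw [mem_ball, dist_eq_norm] at hz ⊢
    have : z - (n : ℂ) - (w - n) = z - w := by ring
    rwa [this]
  refine (DifferentiableAt.congr_of_eventuallyEq ?_ hev)
  have hU : DifferentiableAt ℂ (UU c (j - n * p)) (w - n) :=
    (UU_diff c hq (j - n * p) isOpen_ball hball).differentiableAt (isOpen_ball.mem_nhds hmem)
  have hU2 : DifferentiableAt ℂ (fun z : ℂ => UU c (j - n * p) (z - n)) w :=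
    DifferentiableAt.comp (g := UU c (j - n * p)) (f := fun z : ℂ => z - n) w hU
      (differentiableAt_id.sub_const _)
  have hm := UU_mem c hq (j - n * p) (hball hmem)
  have hW : DifferentiableAt ℂ (c.W0 (j - n * p)) (UU c (j - n * p) (w - n)) :=
    (c.diff0 (j - n * p)).differentiableAt ((isOpen_Wd0 c.R).mem_nhds hm.2)
  have hW2 : DifferentiableAt ℂ (fun z : ℂ => c.W0 (j - n * p) (UU c (j - n * p) (z - n))) w :=
    DifferentiableAt.comp (g := c.W0 (j - n * p)) w hW hU2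
  have hf : Differentiable ℂ (f (mu ((p : ℝ) / q))) := by
    unfold f
    fun_prop
  exact DifferentiableAt.comp (g := (f (mu ((p : ℝ) / q)))^[n]) w (hf.iterate n _) hW2

end Pool.Agent.CR
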