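import Pool.Agent.H33.CR.GD2

/-!
# CR GG: the basin of index `-1` and its Fatou coordinate

`BB_of_Ea`: by `orb_sum`, `f^(m+k) z = W0 (-1 + (m+k) p) (orb c (-1 + m p) k w)` for all `k`, and by `orb_est` the point `orb .. k w` is within `1/8` of `w + k`, which is in
`HP 1 (S0 + 1)` for large `k` (`HP_shift`).
`phiF_eq`: for two representations `(m, w)`, `(m', w')` of `z` let `m1 = max m m'`; `f^m1 z = W0 (-1 + m1 p) (orb .. (m1 - m) w) = W0 (-1 + m1 p) (orb .. (m1 - m') w')`, so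
the two orbit points agree (`inj0`, `orb_mem`), and `phiC_orb` gives `phiC .. w + (m1 - m) = phiC .. w' + (m1 - m')`. (The chosen `w'` is in `HP 1 S0 ⊆ Ea (1/4) (M0+1) ⊆ Ea (2/5) M0`.)
`isOpen_BB`: `W0 j '' HP 1 S0` is open (`isOpen_image_of_injOn`, `diff0`, `inj0`), `f^m` is continuous.
`phiF_diff`: near `z ∈ BB` with representation `(m, w)`, `w ∈ HP 1 S0`: for `z'` near `z` the point `f^m z'` is in the open set `W0 (-1 + m p) '' HP 1 S0`; let `g z'` be its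
preimage; `g` is holomorphic (`differentiableAt_lift` with `h = W0 (-1 + m p)`, `s = HP 1 S0`, `ψ = f^m`), and `phiF z' = phiC c (-1 + m p) (g z') - m`.
-/

set_option autoImplicit false

open Set Filter Topology Metric

namespace Pool.Agent.CR

variable {p q s e : ℕ}

noncomputable def Chart.S0 (c : Chart p q s e) (hq : 0 < q) : ℝ := 5 * (c.M0 hq + 1)

/-- the basin of index `-1` -/
def BB (c : Chart p q s e) (hq : 0 < q) : Set ℂ :=
  {z | ∃ m : ℕ, ∃ w ∈ HP 1 (c.S0 hq), (f (mu ((p : ℝ) / q)))^[m] z = c.W0 (-1 + m * p) w}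

open Classical in
/-- its Fatou coordinate -/
noncomputable def phiF (c : Chart p q s e) (hq : 0 < q) (z : ℂ) : ℂ :=
  if h : z ∈ BB c hq then phiC c (-1 + h.choose * p) h.choose_spec.choose - h.choose else 0

theorem HP_S0_sub (c : Chart p q s e) (hq : 0 < q) : HP 1 (c.S0 hq) ⊆ Ea (1 / 4) (c.M0 hq + 1) ∧
    HP 1 (c.S0 hq) ⊆ Ea (2 / 5) (c.M0 hq) ∧ HP 1 (c.S0 hq) ⊆ Wd0 c.R := by
  have hM := c.M0_ge hq
  have hR := c.R_ge
  have hS : 0 ≤ c.S0 hq := by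
    unfold Chart.S0
    linarith
  have e1 : c.S0 hq / 5 = c.M0 hq + 1 := by
    unfold Chart.S0
    ring
  have h1 : HP 1 (c.S0 hq) ⊆ Ea (1 / 4) (c.M0 hq + 1) := by
    rw [← e1]
    exact HP_sub_Ea hS
  have h2 : HP 1 (c.S0 hq) ⊆ Ea (2 / 5) (c.M0 hq) :=
    h1.trans (Ea_mono (by norm_num) (by linarith))
  refine ⟨h1, h2, ?_⟩
  intro w hw
  have h3 : w ∈ Wq (2 / 5) (c.M0 hq) := by
    have h4 := h2 hw 0
    rwa [Nat.cast_zero, add_zero] at h4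
  exact (Wq_near_Wi hR hM h3 (by rw [sub_self, norm_zero]; exact zero_le_one)).2

private theorem GG_step (c : Chart p q s e) (hq : 0 < q) {z : ℂ} {m : ℕ} {w : ℂ}
    (hw : w ∈ Ea (2 / 5) (c.M0 hq))
    (h : (f (mu ((p : ℝ) / q)))^[m] z = c.W0 (-1 + m * p) w) (k : ℕ) :
    (f (mu ((p : ℝ) / q)))^[m + k] z = c.W0 (-1 + m * p + k * p) (orb c (-1 + m * p) k w) ∧
      orb c (-1 + m * p) k w ∈ Wd0 c.R ∧ ‖orb c (-1 + m * p) k w - (w + k)‖ ≤ 1 / 8 := by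
  have hall : ∀ i ≤ k, w + i ∈ Wq (2 / 5) (c.M0 hq) := fun i _ => hw i
  refine ⟨?_, (c.orb_mem hq le_rfl _ w k hall k le_rfl).2.1, ?_⟩
  · rw [Nat.add_comm m k, Function.iterate_add_apply, h]
    exact (c.orb_sum hq _ le_rfl _ w k hall k le_rfl).2
  · exact (c.orb_est hq le_rfl _ w k hall k le_rfl).trans (c.T_le hq _ le_rfl)

private theorem GG_injOn (c : Chart p q s e) (hq : 0 < q) (j : ℤ) : InjOn (c.W0 j) (HP 1 (c.S0 hq)) := by
  intro w hw w' hw' h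
  exact (c.inj0 j j w ((HP_S0_sub c hq).2.2 hw) w' ((HP_S0_sub c hq).2.2 hw') h).1

private theorem GG_diffOn (c : Chart p q s e) (hq : 0 < q) (j : ℤ) :
    DifferentiableOn ℂ (c.W0 j) (HP 1 (c.S0 hq)) :=
  (c.diff0 j).mono (HP_S0_sub c hq).2.2

private theorem GG_diff_f (l : ℂ) (m : ℕ) : Differentiable ℂ ((f l)^[m]) := by
  have h1 : Differentiable ℂ (f l) := by
    unfold f
    fun_prop
  exact h1.iterate m

private theorem GG_isOpen (c : Chart p q s e) (hq : 0 < q) (m : ℕ) (j : ℤ) :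
    IsOpen ((f (mu ((p : ℝ) / q)))^[m] ⁻¹' (c.W0 j '' HP 1 (c.S0 hq))) :=
  (isOpen_image_of_injOn (isOpen_HP _ _) (GG_diffOn c hq j) (GG_injOn c hq j)).preimage
    (GG_diff_f _ m).continuous

theorem BB_of_Ea (c : Chart p q s e) (hq : 0 < q) {z : ℂ} {m : ℕ} {w : ℂ} (hw : w ∈ Ea (2 / 5) (c.M0 hq))
    (h : (f (mu ((p : ℝ) / q)))^[m] z = c.W0 (-1 + m * p) w) : z ∈ BB c hq := by
  obtain ⟨k, hk⟩ := exists_nat_ge (c.S0 hq + 5 * (1 / 8) - (w.re + 4 * w.im) + 1)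
  obtain ⟨h1, -, h3⟩ := GG_step c hq hw h k
  refine ⟨m + k, orb c (-1 + m * p) k w, ?_, ?_⟩
  · refine HP_shift (w := w + k) (d := 1 / 8) (by simp) h3 ?_
    simp only [HP, mem_ofPred_eq, Complex.add_re, Complex.natCast_re, Complex.add_im,
      Complex.natCast_im]
    linarith
  · rw [h1]
    congr 1
    push_cast
    ring

theorem phiF_eq (c : Chart p q s e) (hq : 0 < q) {z : ℂ} {m : ℕ} {w : ℂ} (hw : w ∈ Ea (2 / 5) (c.M0 hq))
    (h : (f (mu ((p : ℝ) / q)))^[m] z = c.W0 (-1 + m * p) w) : phiF c hq z = phiC c (-1 + m * p) w - m := by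
  have hz : z ∈ BB c hq := BB_of_Ea c hq hw h
  unfold phiF
  rw [dif_pos hz]
  have hspec := hz.choose_spec.choose_spec
  set m' : ℕ := hz.choose with hm'
  set w' : ℂ := hz.choose_spec.choose with hw'def
  obtain ⟨hw', h'⟩ := hspec
  have hw'' : w' ∈ Ea (2 / 5) (c.M0 hq) := (HP_S0_sub c hq).2.1 hw'
  obtain ⟨a1, a2, -⟩ := GG_step c hq hw h m'
  obtain ⟨b1, b2, -⟩ := GG_step c hq hw'' h' m
  have e0 : (-1 + m' * p + m * p : ℤ) = -1 + m * p + m' * p := by ring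
  rw [Nat.add_comm m' m, a1, e0] at b1
  have e1 := (c.inj0 _ _ _ a2 _ b2 b1).1
  have e2 := phiC_orb c hq (-1 + m * p) hw m'
  have e3 := phiC_orb c hq (-1 + m' * p) hw'' m
  rw [e0, ← e1, e2] at e3
  linear_combination -e3

theorem isOpen_BB (c : Chart p q s e) (hq : 0 < q) : IsOpen (BB c hq) := by
  have e1 : BB c hq = ⋃ m : ℕ, (f (mu ((p : ℝ) / q)))^[m] ⁻¹' (c.W0 (-1 + m * p) '' HP 1 (c.S0 hq)) := by
    ext z
    simp only [BB, mem_ofPred_eq, mem_iUnion, mem_preimage, mem_image]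
    constructor
    · rintro ⟨m, w, hw, h⟩
      exact ⟨m, w, hw, h.symm⟩
    · rintro ⟨m, w, hw, h⟩
      exact ⟨m, w, hw, h.symm⟩
  rw [e1]
  exact isOpen_iUnion fun m => GG_isOpen c hq m _

theorem phiF_diff (c : Chart p q s e) (hq : 0 < q) : DifferentiableOn ℂ (phiF c hq) (BB c hq) := by
  classical
  rintro z ⟨m, w, hw, h⟩
  have hmem : z ∈ (f (mu ((p : ℝ) / q)))^[m] ⁻¹' (c.W0 (-1 + m * p) '' HP 1 (c.S0 hq)) :=
    ⟨w, hw, h.symm⟩
  have hU := (GG_isOpen c hq m (-1 + m * p)).mem_nhds hmem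
  have hch : ∀ z' : ℂ, ∃ g : ℂ, z' ∈ (f (mu ((p : ℝ) / q)))^[m] ⁻¹' (c.W0 (-1 + m * p) '' HP 1 (c.S0 hq)) →
      g ∈ HP 1 (c.S0 hq) ∧ c.W0 (-1 + m * p) g = (f (mu ((p : ℝ) / q)))^[m] z' := by
    intro z'
    by_cases hz' : z' ∈ (f (mu ((p : ℝ) / q)))^[m] ⁻¹' (c.W0 (-1 + m * p) '' HP 1 (c.S0 hq))
    · obtain ⟨g, hg1, hg2⟩ := hz'
      exact ⟨g, fun _ => ⟨hg1, hg2⟩⟩
    · exact ⟨0, fun h' => absurd h' hz'⟩
  choose g hg using hch
  have hev : ∀ᶠ z' in 𝓝 z, g z' ∈ HP 1 (c.S0 hq) ∧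
      c.W0 (-1 + m * p) (g z') = (f (mu ((p : ℝ) / q)))^[m] z' := by
    filter_upwards [hU] with z' hz'
    exact hg z' hz'
  have hgd : DifferentiableAt ℂ g z :=
    differentiableAt_lift (isOpen_HP _ _) (GG_diffOn c hq _) (GG_injOn c hq _)
      (GG_diff_f _ m).differentiableAt hev
  have hgz : g z ∈ HP 1 (c.S0 hq) := (hg z hmem).1
  have hphi : DifferentiableAt ℂ (phiC c (-1 + m * p)) (g z) :=
    (phiC_diff c hq _ (isOpen_HP _ _) (HP_S0_sub c hq).2.1).differentiableAt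
      ((isOpen_HP _ _).mem_nhds hgz)
  have hcomp : DifferentiableAt ℂ (fun z' => phiC c (-1 + m * p) (g z') - m) z :=
    (hphi.comp z hgd).sub_const _
  refine (hcomp.congr_of_eventuallyEq ?_).differentiableWithinAt
  filter_upwards [hev] with z' hz'
  exact phiF_eq c hq ((HP_S0_sub c hq).2.1 hz'.1) hz'.2.symm

end Pool.Agent.CR
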