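import Pool.Agent.H33.CR.GG
import Pool.Agent.H33.CR.GF

/-!
# CR GG2: `exists_fat`

`B = BB c hq`, `phi = phiF c hq`, `pr m w = psiR c hq (-1 - m p) (w - m)`, `C = 2 T`, `r0` large: `r0 ≥ M0 + 61`, `2 R + 2 ≤ r0`, `2 T r0^(-1/q) ≤ 1/8`.
`mem_B`: `w ∈ Ra r ⊆ Ea (1/4) r ⊆ Ea (2/5) M0`; `BB_of_Ea`, `phiF_eq`, `phiC_est` with `M = r`.
`exists_B`: `z ∈ BB` with representation `(m, w)`; for `m' = m + k` the point is `orb .. k w` (`orb_sum`), within `1/8` of `w + k` (`orb_est`): real part `> r` and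
`-Im < Re/4` for large `k`.
`pr_f`: `psiR_f` with `j = -1 - (m+1) p`. `pr_add`: `psiR_per` iterated `p` times (`-1 - (m+q) p + p q = -1 - m p`).
`pr_W0`: `w - m ∈ Rr r ⊆ Er (1/4) r ⊆ Er (1/3) (M0+1)`; `w' = UU c (-1 - m p) (w - m)`; `psiR_W0`, `UU_mem`, `UU_est` with `M = r`.
`W0_pr`: `ball w' 1 ⊆ Er (1/3) (r-1)` (`Er_near`; `60 ≤ r`), `UU` is holomorphic there (`UU_diff`) with `‖UU w - w‖ ≤ T (r-1)^(-1/q) ≤ 2 T r^(-1/q) ≤ 1/8`; `near_id_solve`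
gives `ω` with `UU c (-1 - m p) ω = w'`, `ω ∈ closedBall w' 1` so `psiR_W0` applies; take the point `ω + m`.
-/

set_option autoImplicit false

open Set Filter Topology Metric

namespace Pool.Agent.CR

variable {p q s e : ℕ}

/-- for `0 < q`, `2 ≤ r`: `(r-1)^(-1/q) ≤ 2 r^(-1/q)` -/
theorem GG2_aux (hq : 0 < q) {r : ℝ} (hr : 2 ≤ r) :
    (r - 1) ^ (-(1 / (q : ℝ))) ≤ 2 * r ^ (-(1 / (q : ℝ))) := by
  have hq1 : (1 : ℝ) ≤ q := by exact_mod_cast hq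
  have hα : 0 ≤ 1 / (q : ℝ) := by positivity
  have hα1 : 1 / (q : ℝ) ≤ 1 := by
    rw [div_le_one (by linarith)]; exact hq1
  have h1 : (r - 1) ^ (-(1 / (q : ℝ))) ≤ (r / 2) ^ (-(1 / (q : ℝ))) :=
    Real.rpow_le_rpow_of_nonpos (by linarith) (by linarith) (by linarith)
  have h2 : (r / 2) ^ (-(1 / (q : ℝ))) = 2 ^ (1 / (q : ℝ)) * r ^ (-(1 / (q : ℝ))) := by
    rw [Real.div_rpow (by linarith) (by norm_num), Real.rpow_neg (by norm_num : (0 : ℝ) ≤ 2),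
      div_inv_eq_mul, mul_comm]
  have h3 : (2 : ℝ) ^ (1 / (q : ℝ)) ≤ 2 := by
    calc (2 : ℝ) ^ (1 / (q : ℝ)) ≤ 2 ^ (1 : ℝ) := Real.rpow_le_rpow_of_exponent_le (by norm_num) hα1
      _ = 2 := Real.rpow_one 2
  rw [h2] at h1
  exact h1.trans (mul_le_mul_of_nonneg_right h3 (Real.rpow_nonneg (by linarith) _))

theorem GG2_mem_B (c : Chart p q s e) (hq : 0 < q) (z : ℂ) (m : ℕ) (w : ℂ) (r : ℝ) (hr : c.M0 hq ≤ r) (hw : w ∈ Ra r)
    (h : (f (mu ((p : ℝ) / q)))^[m] z = c.W0 (-1 + m * p) w) :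
    z ∈ BB c hq ∧ ‖phiF c hq z - (w - m)‖ ≤ c.T hq * r ^ (-(1 / (q : ℝ))) := by
  have hM0 := c.M0_ge hq
  have hR := c.R_ge
  have hr0 : 0 ≤ r := by linarith
  have h1 : w ∈ Ea (1 / 4) r := Ra_sub_Ea hr0 hw
  have h2 : w ∈ Ea (2 / 5) (c.M0 hq) := Ea_mono (by norm_num) hr h1
  have h3 : w ∈ Ea (2 / 5) r := Ea_mono (by norm_num) le_rfl h1
  refine ⟨BB_of_Ea c hq h2 h, ?_⟩
  rw [phiF_eq c hq h2 h]
  have h4 := phiC_est c hq hr (-1 + m * p) h3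
  calc ‖phiC c (-1 + m * p) w - m - (w - m)‖ = ‖phiC c (-1 + m * p) w - w‖ := by congr 1; ring
    _ ≤ _ := h4

theorem GG2_exists_B (c : Chart p q s e) (hq : 0 < q) (z : ℂ) (hz : z ∈ BB c hq) (r : ℝ) :
    ∀ᶠ m : ℕ in atTop, ∃ w : ℂ, r < w.re ∧ -w.im < w.re / 4 ∧
    (f (mu ((p : ℝ) / q)))^[m] z = c.W0 (-1 + m * p) w := by
  obtain ⟨m0, w0, hw0, h0⟩ := hz
  have hEa : w0 ∈ Ea (2 / 5) (c.M0 hq) := (HP_S0_sub c hq).2.1 hw0
  obtain ⟨k0, hk0⟩ := exists_nat_ge (|r| + |w0.re| + 4 * |w0.im| + 2)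
  filter_upwards [eventually_ge_atTop (m0 + k0)] with m hm
  obtain ⟨k, rfl⟩ : ∃ k, m = m0 + k := ⟨m - m0, by omega⟩
  have hk : k0 ≤ k := by omega
  have hkR : |r| + |w0.re| + 4 * |w0.im| + 2 ≤ (k : ℝ) := hk0.trans (by exact_mod_cast hk)
  have hW : ∀ i ≤ k, w0 + i ∈ Wq (2 / 5) (c.M0 hq) := fun i _ => hEa i
  have h1 := (c.orb_sum hq (c.M0 hq) le_rfl (-1 + m0 * p) w0 k hW k le_rfl).2
  have h2 := (c.orb_est hq le_rfl (-1 + m0 * p) w0 k hW k le_rfl).trans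
    (c.T_le hq (c.M0 hq) le_rfl)
  set x := orb c (-1 + m0 * p) k w0 with hx
  have hre : |(x - (w0 + k)).re| ≤ 1 / 8 := (Complex.abs_re_le_norm _).trans h2
  have him : |(x - (w0 + k)).im| ≤ 1 / 8 := (Complex.abs_im_le_norm _).trans h2
  rw [Complex.sub_re, Complex.add_re, Complex.natCast_re] at hre
  rw [Complex.sub_im, Complex.add_im, Complex.natCast_im] at him
  have hre' := abs_le.1 hre
  have him' := abs_le.1 him
  have ha := neg_abs_le w0.re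
  have hb := neg_abs_le w0.im
  have hc := le_abs_self r
  refine ⟨x, ?_, ?_, ?_⟩
  · have := abs_nonneg w0.im
    linarith [hre'.1]
  · have := abs_nonneg r
    linarith [hre'.1, him'.1]
  · rw [add_comm m0 k, Function.iterate_add_apply, h0, h1]
    congr 1
    push_cast
    ring

theorem GG2_pr_W0 (c : Chart p q s e) (hq : 0 < q) (m : ℕ) (w : ℂ) (r : ℝ) (hr : c.M0 hq + 1 ≤ r) (hw : w - m ∈ Rr r) :
    ∃ w' : ℂ, w' ∈ Wd0 c.R ∧ psiR c hq (-1 - m * p) (w - m) = c.W0 (-1 - m * p) w' ∧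
      ‖w' - (w - m)‖ ≤ c.T hq * r ^ (-(1 / (q : ℝ))) := by
  have hM0 := c.M0_ge hq
  have hR := c.R_ge
  have hr0 : 0 ≤ r := by linarith
  have h1 : w - m ∈ Er (1 / 4) r := Rr_sub_Er hr0 hw
  have h2 : w - m ∈ Er (1 / 3) (c.M0 hq + 1) := Er_mono (by norm_num) hr h1
  have h3 : w - m ∈ Er (1 / 3) r := Er_mono (by norm_num) le_rfl h1
  exact ⟨UU c (-1 - m * p) (w - m), (UU_mem c hq _ h2).2, psiR_W0 c hq _ h2, UU_est c hq hr _ h3⟩

theorem GG2_W0_pr (c : Chart p q s e) (hq : 0 < q) (m : ℕ) (w' : ℂ) (r : ℝ) (hr : c.M0 hq + 61 ≤ r) (hw : w' ∈ Rr r) :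
    ∃ w : ℂ, psiR c hq (-1 - m * p) (w - m) = c.W0 (-1 - m * p) w' ∧
      ‖w' - (w - m)‖ ≤ 2 * c.T hq * r ^ (-(1 / (q : ℝ))) := by
  have hM0 := c.M0_ge hq
  have hR := c.R_ge
  have hr0 : 0 ≤ r := by linarith
  have h1 : w' ∈ Er (1 / 4) r := Rr_sub_Er hr0 hw
  have hnear : ∀ x ∈ ball w' 1, x ∈ Er (1 / 3) (r - 1) := fun x hx =>
    Er_near (by norm_num) (by norm_num) (by norm_num) (by linarith) (by linarith) h1
      (by rw [mem_ball, dist_eq_norm] at hx; exact hx.le)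
  have hsub : ball w' 1 ⊆ Er (1 / 3) (c.M0 hq + 1) := fun x hx =>
    Er_mono le_rfl (by linarith) (hnear x hx)
  have hest : ∀ x ∈ ball w' 1, ‖UU c (-1 - m * p) x - x‖ ≤ c.T hq * (r - 1) ^ (-(1 / (q : ℝ))) :=
    fun x hx => UU_est c hq (by linarith) _ (hnear x hx)
  have hle : c.T hq * (r - 1) ^ (-(1 / (q : ℝ))) ≤ 1 / 8 := c.T_le hq (r - 1) (by linarith)
  obtain ⟨ω, hω1, hω2⟩ := near_id_solve hle (UU_diff c hq _ isOpen_ball hsub) hest
  have hωb : ω ∈ ball w' 1 := by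
    rw [mem_ball, dist_eq_norm]; linarith
  have hsol := psiR_W0 c hq (-1 - m * p) (hsub hωb)
  rw [hω2] at hsol
  refine ⟨ω + m, ?_, ?_⟩
  · rw [add_sub_cancel_right]; exact hsol
  · rw [add_sub_cancel_right, norm_sub_rev]
    refine hω1.trans ?_
    have h5 := mul_le_mul_of_nonneg_left (GG2_aux hq (r := r) (by linarith)) (c.T_pos hq).le
    calc c.T hq * (r - 1) ^ (-(1 / (q : ℝ))) ≤ c.T hq * (2 * r ^ (-(1 / (q : ℝ)))) := h5
      _ = _ := by ring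

private theorem GG2_per (c : Chart p q s e) (hq : 0 < q) (n : ℕ) (j : ℤ) (w : ℂ) :
    psiR c hq (j + n * q) w = psiR c hq j w := by
  induction n with
  | zero => simp
  | succ n ih =>
    have h1 : j + ((n + 1 : ℕ) : ℤ) * q = (j + n * q) + q := by push_cast; ring
    rw [h1, psiR_per, ih]

theorem exists_fat (hq : 0 < q) (c : Chart p q s e) : Nonempty (Fat c) := by
  have hT := c.T_pos hq
  have hα : 0 < 1 / (q : ℝ) := by positivity
  have hlim : Tendsto (fun r : ℝ => 2 * c.T hq * r ^ (-(1 / (q : ℝ)))) atTop (𝓝 0) := by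
    have := (tendsto_rpow_neg_atTop hα).const_mul (2 * c.T hq)
    simpa using this
  have hev : ∀ᶠ r : ℝ in atTop, 2 * c.T hq * r ^ (-(1 / (q : ℝ))) ≤ 1 / 8 :=
    (hlim.eventually_lt_const (by norm_num : (0 : ℝ) < 1 / 8)).mono fun r hr => hr.le
  obtain ⟨r0, h1, h2, h3⟩ := (hev.and ((eventually_ge_atTop (c.M0 hq + 61)).and
    (eventually_ge_atTop (2 * c.R + 2)))).exists
  have hM0 := c.M0_ge hq
  have hR := c.R_ge
  have hmono : ∀ r : ℝ, r0 ≤ r → c.T hq * r ^ (-(1 / (q : ℝ))) ≤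
      2 * c.T hq * r ^ (-(1 / (q : ℝ))) := by
    intro r hr
    have : 0 ≤ r ^ (-(1 / (q : ℝ))) := Real.rpow_nonneg (by linarith) _
    nlinarith
  refine ⟨{
    r0 := r0
    C := 2 * c.T hq
    B := BB c hq
    phi := phiF c hq
    pr := fun m w => psiR c hq (-1 - m * p) (w - m)
    r0_ge := h3
    C_pos := by positivity
    C_small := h1
    isOpen_B := isOpen_BB c hq
    diff_phi := phiF_diff c hq
    mem_B := ?_
    exists_B := fun z hz r => GG2_exists_B c hq z hz r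
    diff_pr := ?_
    pr_f := ?_
    pr_add := ?_
    pr_W0 := ?_
    W0_pr := ?_ }⟩
  · intro z m w r hr hw h
    obtain ⟨ha, hb⟩ := GG2_mem_B c hq z m w r (by linarith) hw h
    exact ⟨ha, hb.trans (hmono r hr)⟩
  · intro m
    exact (psiR_diff c hq _).comp (differentiable_id.sub (differentiable_const _))
  · intro m w
    have hf := psiR_f c hq (-1 - ((m + 1 : ℕ) : ℤ) * p) (w - ((m + 1 : ℕ) : ℂ))
    have e1 : (-1 - ((m + 1 : ℕ) : ℤ) * p + p : ℤ) = -1 - m * p := by push_cast; ring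
    have e2 : w - ((m + 1 : ℕ) : ℂ) + 1 = w - m := by push_cast; ring
    rw [e1, e2] at hf
    exact hf
  · intro m w
    have e1 : (w + q - ((m + q : ℕ) : ℂ)) = w - m := by push_cast; ring
    have e2 : (-1 - (m : ℤ) * p : ℤ) = -1 - ((m + q : ℕ) : ℤ) * p + (p : ℕ) * q := by
      push_cast; ring
    show psiR c hq (-1 - ((m + q : ℕ) : ℤ) * p) (w + q - ((m + q : ℕ) : ℂ)) =
      psiR c hq (-1 - m * p) (w - m)
    rw [e1, e2, GG2_per]
  · intro m w r hr hw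
    obtain ⟨w', ha, hb, hc⟩ := GG2_pr_W0 c hq m w r (by linarith) hw
    exact ⟨w', ha, hb, hc.trans (hmono r hr)⟩
  · intro m w' r hr hw
    exact GG2_W0_pr c hq m w' r (by linarith) hw

end Pool.Agent.CR
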