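import Pool.Agent.H33.CR.LL

/-!
# CR LE: lifting through the attracting Fatou coordinate, and through the horn map

`AttData`: `B` the part of the basin of the parabolic point `0` of one index, `phi` its Fatou coordinate, `Psi : W → B` the
inverse on a domain `W` which absorbs bounded sets under `w ↦ w + q`, `sv` the singular value modulo `q`.
`AttData.lift`: on relatively compact convex subsets lift `Psi (β + q n)` by `f^(q n)`; uniqueness and exhaustion.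
`horn_lift`: the lifting property of the horn map `phi ∘ pr 0` (field `lift` of `Horn`).
-/

set_option autoImplicit false

open Set Filter Topology Metric

namespace Pool.Agent.CR

/-- Exhaustion of a convex open set for lifting problems with uniqueness. -/
theorem exhaust {Ω : Set ℂ} (ho : IsOpen Ω) (hc : Convex ℝ Ω) {x0 : ℂ} (hx0 : x0 ∈ Ω) {Q : ℂ → ℂ → Prop} {η0 : ℂ}
    (hex : ∀ Ω' : Set ℂ, IsOpen Ω' → Convex ℝ Ω' → x0 ∈ Ω' → closure Ω' ⊆ Ω → IsCompact (closure Ω') →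
      ∃ η : ℂ → ℂ, DifferentiableOn ℂ η Ω' ∧ (∀ x ∈ Ω', Q x (η x)) ∧ η x0 = η0)
    (hun : ∀ Ω' : Set ℂ, IsOpen Ω' → Convex ℝ Ω' → x0 ∈ Ω' → Ω' ⊆ Ω → ∀ η η' : ℂ → ℂ,
      DifferentiableOn ℂ η Ω' → DifferentiableOn ℂ η' Ω' → (∀ x ∈ Ω', Q x (η x)) → (∀ x ∈ Ω', Q x (η' x)) →
      η x0 = η' x0 → ∀ x ∈ Ω', η x = η' x) :
    ∃ η : ℂ → ℂ, DifferentiableOn ℂ η Ω ∧ (∀ x ∈ Ω, Q x (η x)) ∧ η x0 = η0 := by
  classical
  have hset : ∀ x : ℂ, ∃ Ω' : Set ℂ, x ∈ Ω → (IsOpen Ω' ∧ Convex ℝ Ω' ∧ x0 ∈ Ω' ∧ closure Ω' ⊆ Ω ∧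
      IsCompact (closure Ω') ∧ x ∈ Ω') := by
    intro x
    by_cases hx : x ∈ Ω
    · have hseg : segment ℝ x0 x ⊆ Ω := hc.segment_subset hx0 hx
      have hcomp : IsCompact (segment ℝ x0 x) := by
        rw [← convexHull_pair]
        exact (Set.toFinite _).isCompact_convexHull ℝ
      obtain ⟨δ, hδ, hsub⟩ := hcomp.exists_cthickening_subset_open ho hseg
      refine ⟨thickening δ (segment ℝ x0 x), fun _ => ⟨isOpen_thickening, (convex_segment x0 x).thickening δ,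
        self_subset_thickening hδ _ (left_mem_segment ℝ x0 x), ?_, ?_, self_subset_thickening hδ _ (right_mem_segment ℝ x0 x)⟩⟩
      · exact (closure_thickening_subset_cthickening _ _).trans hsub
      · exact hcomp.cthickening.of_isClosed_subset isClosed_closure (closure_thickening_subset_cthickening _ _)
    · exact ⟨∅, fun h => absurd h hx⟩
  choose U hU using hset
  have hη : ∀ x : ℂ, ∃ η : ℂ → ℂ, x ∈ Ω → (DifferentiableOn ℂ η (U x) ∧ (∀ y ∈ U x, Q y (η y)) ∧ η x0 = η0) := by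
    intro x
    by_cases hx : x ∈ Ω
    · obtain ⟨h1, h2, h3, h4, h5, -⟩ := hU x hx
      obtain ⟨η, h⟩ := hex (U x) h1 h2 h3 h4 h5
      exact ⟨η, fun _ => h⟩
    · exact ⟨id, fun h => absurd h hx⟩
  choose η hη using hη
  have hagree : ∀ x ∈ Ω, ∀ y ∈ U x, η y y = η x y := by
    intro x hx y hy
    obtain ⟨h1, h2, h3, h4, h5, h6⟩ := hU x hx
    have hyΩ : y ∈ Ω := h4 (subset_closure hy)
    obtain ⟨g1, g2, g3, g4, g5, g6⟩ := hU y hyΩ
    refine hun (U x ∩ U y) (h1.inter g1) (h2.inter g2) ⟨h3, g3⟩ (inter_subset_left.trans (subset_closure.trans h4))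
      (η y) (η x) ((hη y hyΩ).1.mono inter_subset_right) ((hη x hx).1.mono inter_subset_left)
      (fun z hz => (hη y hyΩ).2.1 z hz.2) (fun z hz => (hη x hx).2.1 z hz.1) ?_ y ⟨hy, g6⟩
    rw [(hη y hyΩ).2.2, (hη x hx).2.2]
  refine ⟨fun x => η x x, ?_, ?_, ?_⟩
  · intro x hx
    obtain ⟨h1, h2, h3, h4, h5, h6⟩ := hU x hx
    have hev : (fun y => η y y) =ᶠ[𝓝 x] η x := by
      filter_upwards [h1.mem_nhds h6] with y hy
      exact hagree x hx y hy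
    exact (((hη x hx).1.differentiableAt (h1.mem_nhds h6)).congr_of_eventuallyEq hev).differentiableWithinAt
  · intro x hx
    exact (hη x hx).2.1 x (hU x hx).2.2.2.2.2
  · exact (hη x0 hx0).2.2

/-- Data of the attracting side of a parabolic point at `0`: the part `B` of the basin with one index. -/
structure AttData (l : ℂ) (q : ℕ) where
  B : Set ℂ
  phi : ℂ → ℂ
  W : Set ℂ
  Psi : ℂ → ℂ
  sv : ℂ
  q_pos : 0 < q
  isOpen_B : IsOpen B
  B_sub : B ⊆ K l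
  zero_notMem : (0 : ℂ) ∉ B
  diff_phi : DifferentiableOn ℂ phi B
  mem_B : ∀ z : ℂ, (f l)^[q] z ∈ B ↔ z ∈ B
  phi_f : ∀ z ∈ B, phi ((f l)^[q] z) = phi z + q
  isOpen_W : IsOpen W
  W_add : ∀ w ∈ W, w + q ∈ W
  W_absorb : ∀ C : ℝ, ∃ n : ℕ, ∀ w : ℂ, ‖w‖ ≤ C → w + q * n ∈ W
  diff_Psi : DifferentiableOn ℂ Psi W
  Psi_mem : ∀ w ∈ W, Psi w ∈ B
  phi_Psi : ∀ w ∈ W, phi (Psi w) = w
  Psi_f : ∀ w ∈ W, (f l)^[q] (Psi w) = Psi (w + q)
  Psi_phi : ∀ z ∈ B, ∃ n : ℕ, phi z + q * n ∈ W ∧ (f l)^[q * n] z = Psi (phi z + q * n)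
  sing : ∀ k : ℕ, (f l)^[k] (v l) ∈ B → ∃ m : ℤ, phi ((f l)^[k] (v l)) = sv + m * q

namespace AttData

variable {l : ℂ} {q : ℕ}

theorem W_add_nat (A : AttData l q) {w : ℂ} {n : ℕ} (h : w + q * n ∈ A.W) : ∀ m ≥ n, w + q * m ∈ A.W := by
  intro m hm
  induction m, hm using Nat.le_induction with
  | base => exact h
  | succ m hm ih =>
    have := A.W_add _ ih
    have h2 : w + (q : ℂ) * ((m + 1 : ℕ) : ℂ) = w + q * m + q := by push_cast; ring
    rw [h2]; exact this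

theorem iter_mem_B (A : AttData l q) (n : ℕ) (z : ℂ) : (f l)^[q * n] z ∈ A.B ↔ z ∈ A.B := by
  induction n with
  | zero => simp
  | succ n ih =>
    rw [Nat.mul_succ, Nat.add_comm, Function.iterate_add_apply, A.mem_B, ih]

theorem phi_iter (A : AttData l q) (n : ℕ) {z : ℂ} (hz : z ∈ A.B) : A.phi ((f l)^[q * n] z) = A.phi z + q * n := by
  induction n with
  | zero => simp
  | succ n ih =>
    rw [Nat.mul_succ, Nat.add_comm, Function.iterate_add_apply, A.phi_f _ ((A.iter_mem_B n z).2 hz), ih]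
    push_cast; ring

theorem Psi_iter (A : AttData l q) (k : ℕ) {w : ℂ} (hw : w ∈ A.W) : (f l)^[q * k] (A.Psi w) = A.Psi (w + q * k) := by
  induction k with
  | zero => simp
  | succ k ih =>
    have h1 : w + q * k ∈ A.W := A.W_add_nat (n := 0) (by simpa using hw) k (Nat.zero_le _)
    rw [Nat.mul_succ, Nat.add_comm, Function.iterate_add_apply, ih, A.Psi_f _ h1]
    congr 1; push_cast; ring

/-- The equation `f^(qn) z = Psi (phi z + q n)` persists for larger `n`. -/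
theorem eq_mono (A : AttData l q) {z : ℂ} {n : ℕ} (h1 : A.phi z + q * n ∈ A.W)
    (h2 : (f l)^[q * n] z = A.Psi (A.phi z + q * n)) {m : ℕ} (hm : n ≤ m) :
    A.phi z + q * m ∈ A.W ∧ (f l)^[q * m] z = A.Psi (A.phi z + q * m) := by
  refine ⟨A.W_add_nat h1 m hm, ?_⟩
  obtain ⟨k, rfl⟩ := Nat.exists_eq_add_of_le hm
  rw [Nat.mul_add, Nat.add_comm, Function.iterate_add_apply, h2, A.Psi_iter k h1]
  congr 1; push_cast; ring

/-- The equation holds with the same `n` in a neighbourhood. -/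
theorem eq_nhds (A : AttData l q) {z : ℂ} (hz : z ∈ A.B) : ∃ n : ℕ, ∀ᶠ z' in 𝓝 z, z' ∈ A.B ∧
    A.phi z' + q * n ∈ A.W ∧ (f l)^[q * n] z' = A.Psi (A.phi z' + q * n) := by
  obtain ⟨n, h1, h2⟩ := A.Psi_phi z hz
  refine ⟨n, ?_⟩
  set w1 : ℂ := A.phi z + q * n with hw1
  have hPd : HasStrictDerivAt A.Psi (deriv A.Psi w1) w1 :=
    (A.diff_Psi.analyticAt (A.isOpen_W.mem_nhds h1)).hasStrictDerivAt
  have hne : deriv A.Psi w1 ≠ 0 := by
    intro h0
    have h3 : HasDerivAt A.phi (deriv A.phi (A.Psi w1)) (A.Psi w1) :=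
      (A.diff_phi.differentiableAt (A.isOpen_B.mem_nhds (A.Psi_mem w1 h1))).hasDerivAt
    have h4 := h3.comp w1 hPd.hasDerivAt
    rw [h0, mul_zero] at h4
    have h5 : HasDerivAt (fun w : ℂ => w) 0 w1 := by
      refine h4.congr_of_eventuallyEq ?_
      filter_upwards [A.isOpen_W.mem_nhds h1] with w hw
      exact (A.phi_Psi w hw).symm
    have h6 := h5.unique (hasDerivAt_id' w1)
    exact zero_ne_one h6
  have hmap := hPd.map_nhds_eq hne
  have hPW : A.Psi '' A.W ∈ 𝓝 (A.Psi w1) := by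
    rw [← hmap]
    exact image_mem_map (A.isOpen_W.mem_nhds h1)
  have hfc : Continuous (f l)^[q * n] := by
    have hf0 : Continuous (f l) := by unfold f; fun_prop
    exact hf0.iterate _
  have h7 : ∀ᶠ z' in 𝓝 z, (f l)^[q * n] z' ∈ A.Psi '' A.W := by
    refine hfc.continuousAt.eventually ?_
    rw [h2]; exact hPW
  filter_upwards [h7, A.isOpen_B.mem_nhds hz] with z' hz' hzB
  obtain ⟨w, hw, hw'⟩ := hz'
  have h8 : w = A.phi z' + q * n := by
    rw [← A.phi_iter n hzB, ← hw', A.phi_Psi w hw]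
  rw [← h8]
  exact ⟨hzB, hw, hw'.symm⟩

private theorem avoid (A : AttData l q) {b : ℂ} {n : ℕ} (hb : ∀ k : ℤ, b ≠ A.sv + k * q) (hW : b + q * n ∈ A.W) (k : ℕ) :
    A.Psi (b + q * n) ≠ (f l)^[k] (v l) := by
  intro h
  obtain ⟨m, hm⟩ := A.sing k (by rw [← h]; exact A.Psi_mem _ hW)
  rw [← h, A.phi_Psi _ hW] at hm
  refine hb (m - n) ?_
  push_cast
  linear_combination hm

theorem unique (A : AttData l q) {Ω : Set ℂ} (ho : IsOpen Ω) (hc : IsPreconnected Ω) {β η η' : ℂ → ℂ} {x0 : ℂ}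
    (hx0 : x0 ∈ Ω) (hβ : ContinuousOn β Ω) (hsv : ∀ x ∈ Ω, ∀ k : ℤ, β x ≠ A.sv + k * q)
    (hη : ContinuousOn η Ω) (hη' : ContinuousOn η' Ω) (h1 : ∀ x ∈ Ω, η x ∈ A.B ∧ A.phi (η x) = β x)
    (h2 : ∀ x ∈ Ω, η' x ∈ A.B ∧ A.phi (η' x) = β x) (h0 : η x0 = η' x0) : ∀ x ∈ Ω, η x = η' x := by
  set S : Set ℂ := {x | η x = η' x} with hS
  have hSo : IsOpen (Ω ∩ S) := by
    rw [isOpen_iff_mem_nhds]
    rintro x ⟨hx, hxS⟩
    have hxS' : η x = η' x := hxS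
    obtain ⟨n, hn⟩ := A.eq_nhds (h1 x hx).1
    have e1 : ∀ᶠ y in 𝓝 x, A.phi (η y) + q * n ∈ A.W ∧ (f l)^[q * n] (η y) = A.Psi (A.phi (η y) + q * n) := by
      have := (hη.continuousAt (ho.mem_nhds hx)).eventually hn
      filter_upwards [this] with y hy using hy.2
    have e2 : ∀ᶠ y in 𝓝 x, A.phi (η' y) + q * n ∈ A.W ∧ (f l)^[q * n] (η' y) = A.Psi (A.phi (η' y) + q * n) := by
      rw [hxS'] at hn
      have := (hη'.continuousAt (ho.mem_nhds hx)).eventually hn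
      filter_upwards [this] with y hy using hy.2
    obtain ⟨ρ, hρ, hb⟩ := Metric.eventually_nhds_iff_ball.1 ((e1.and e2).and (ho.mem_nhds hx))
    have key : ∀ y ∈ ball x ρ, η y = η' y := by
      refine inv_unique l (convex_ball x ρ).isPreconnected (β := fun y => A.Psi (β y + q * n)) (n := q * n)
        (fun y hy k _ => ?_) (hη.mono fun y hy => (hb y hy).2) (hη'.mono fun y hy => (hb y hy).2) (fun y hy => ?_)
        (fun y hy => ?_) (mem_ball_self hρ) hxS'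
      · have h3 := (hb y hy).1.1.1
        rw [(h1 y (hb y hy).2).2] at h3
        exact A.avoid (hsv y (hb y hy).2) h3 k
      · have h3 := (hb y hy).1.1.2
        rw [(h1 y (hb y hy).2).2] at h3
        exact h3
      · have h3 := (hb y hy).1.2.2
        rw [(h2 y (hb y hy).2).2] at h3
        exact h3
    filter_upwards [ball_mem_nhds x hρ] with y hy
    exact ⟨(hb y hy).2, key y hy⟩
  have hSc : IsOpen (Ω ∩ Sᶜ) := by
    rw [isOpen_iff_mem_nhds]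
    rintro x ⟨hx, hxS⟩
    have hxS' : η x ≠ η' x := hxS
    have h3 : ∀ᶠ y in 𝓝 x, η y ≠ η' y :=
      (hη.continuousAt (ho.mem_nhds hx)).ne_iff_eventually_ne (hη'.continuousAt (ho.mem_nhds hx)) |>.1 hxS'
    filter_upwards [h3, ho.mem_nhds hx] with y hy hy2
    exact ⟨hy2, hy⟩
  intro x hx
  by_contra hcon
  obtain ⟨y, -, hy1, hy2⟩ := hc (Ω ∩ S) (Ω ∩ Sᶜ) hSo hSc (fun y hy => by
    by_cases h : y ∈ S
    · exact Or.inl ⟨hy, h⟩
    · exact Or.inr ⟨hy, h⟩) ⟨x0, hx0, hx0, h0⟩ ⟨x, hx, hx, hcon⟩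
  exact hy2.2 hy1.2

/-- **Lifting through the attracting Fatou coordinate.** -/
theorem lift (A : AttData l q) {Ω : Set ℂ} (ho : IsOpen Ω) (hc : Convex ℝ Ω) {β : ℂ → ℂ}
    (hβ : DifferentiableOn ℂ β Ω) (hsv : ∀ x ∈ Ω, ∀ k : ℤ, β x ≠ A.sv + k * q) {x0 z0 : ℂ} (hx0 : x0 ∈ Ω)
    (hz0 : z0 ∈ A.B) (h0 : A.phi z0 = β x0) :
    ∃ ζ : ℂ → ℂ, DifferentiableOn ℂ ζ Ω ∧ (∀ x ∈ Ω, ζ x ∈ A.B ∧ A.phi (ζ x) = β x) ∧ ζ x0 = z0 := by
  refine exhaust ho hc hx0 (Q := fun x y => y ∈ A.B ∧ A.phi y = β x) ?_ ?_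
  · intro Ω' ho' hc' hx' hcl hcomp
    have hsub : Ω' ⊆ Ω := subset_closure.trans hcl
    obtain ⟨C, hC⟩ := (hcomp.image_of_continuousOn (hβ.continuousOn.mono hcl)).isBounded.exists_norm_le
    obtain ⟨n1, hn1⟩ := A.W_absorb C
    obtain ⟨n2, h21, h22⟩ := A.Psi_phi z0 hz0
    have hW : ∀ x ∈ Ω', β x + q * (max n1 n2 : ℕ) ∈ A.W := fun x hx =>
      A.W_add_nat (hn1 _ (hC _ ⟨x, subset_closure hx, rfl⟩)) _ (le_max_left _ _)
    have hz := (A.eq_mono h21 h22 (le_max_right n1 n2)).2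
    set n := max n1 n2 with hn
    obtain ⟨ζ, h1, h2, h3⟩ := exists_inv_iter l ho' hc' (β := fun x => A.Psi (β x + q * n)) (n := q * n) (y0 := z0)
      (by
        have h4 : DifferentiableOn ℂ (fun x => β x + q * (n : ℂ)) Ω' := (hβ.mono hsub).add_const _
        exact A.diff_Psi.comp h4 hW)
      (fun x hx k _ => A.avoid (hsv x (hsub hx)) (hW x hx) k) hx' (by rw [hz, h0])
    refine ⟨ζ, h1, fun x hx => ?_, h3⟩
    have h4 : ζ x ∈ A.B := by
      rw [← A.iter_mem_B n, h2 x hx]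
      exact A.Psi_mem _ (hW x hx)
    refine ⟨h4, ?_⟩
    have h5 := A.phi_iter n h4
    rw [h2 x hx, A.phi_Psi _ (hW x hx)] at h5
    exact (add_right_cancel h5).symm
  · intro Ω' ho' hc' hx' hsub η η' hη hη' h1 h2 h3
    exact A.unique ho' hc'.isPreconnected hx' (hβ.continuousOn.mono hsub) (fun x hx => hsv x (hsub hx))
      hη.continuousOn hη'.continuousOn h1 h2 h3

end AttData

/-- **The lifting property of the horn map.** -/
theorem horn_lift {l : ℂ} {q : ℕ} (R : RepData l) (A : AttData l q) (Ω : Set ℂ) (β : ℂ → ℂ) (ho : IsOpen Ω)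
    (hc : Convex ℝ Ω) (hβ : DifferentiableOn ℂ β Ω) (hsv : ∀ x ∈ Ω, ∀ k : ℤ, β x ≠ A.sv + k * q) (x0 : ℂ) (hx0 : x0 ∈ Ω)
    (η0 : ℂ) (hη0 : R.pr 0 η0 ∈ A.B) (h0 : A.phi (R.pr 0 η0) = β x0) :
    ∃ η : ℂ → ℂ, DifferentiableOn ℂ η Ω ∧ (∀ x ∈ Ω, R.pr 0 (η x) ∈ A.B ∧ A.phi (R.pr 0 (η x)) = β x) ∧ η x0 = η0 := by
  obtain ⟨ζ, h1, h2, h3⟩ := A.lift ho hc hβ hsv hx0 hη0 h0
  obtain ⟨η, g1, g2, g3⟩ := R.lift ho hc h1 (fun x hx => A.B_sub (h2 x hx).1)
    (fun x hx h => A.zero_notMem (h ▸ (h2 x hx).1))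
    (fun x hx k h => by
      obtain ⟨m, hm⟩ := A.sing k (h ▸ (h2 x hx).1)
      rw [← h, (h2 x hx).2] at hm
      exact hsv x hx m hm) hx0 h3.symm
  refine ⟨η, g1, fun x hx => ?_, g3⟩
  rw [g2 x hx]; exact h2 x hx

end Pool.Agent.CR
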