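import Pool.Agent.H33.CR.GD
import Pool.Agent.H33.CR.LE

/-!
# CR GH: the attracting side: `AttData` from `Fat`

Here `c : Chart p q s e`, `F : Fat c`, `l0 = mu (p/q)`; `r ≥ F.r0` large. All statements concern the fields of `Fat`.
`GH_rep`: for `z ∈ B` and every `r`: eventually in `m` there is `w` with `f^m z = W0 (-1 + m p) w`, `r < Re w`, `-Im w < Re w/4`,
`w ∈ Wd0 R`, `w ∈ HP 1 r` and `‖phi z - (w - m)‖ ≤ C r^(-1/q)` (for `r ≥ r0`): fields `exists_B`, `mem_B` (`w ∈ Ra r`, first alternative); `w = m + phi z + O(1/8)` gives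
`Re w + 4 Im w ≥ m - 5 ‖phi z‖ - 1 > r` for large `m`; `w ∈ Wd0 R` since `‖w‖ ≥ Re w > r ≥ R` and `-Im w < Re w / 4 < |Re w|`.
`GH_index`: two representations of the same point have indices congruent modulo `q` (`inj0`).
`GH_phi_f`: let `z ∈ B`, `d : ℕ`, `f^d z ∈ B`. For large `m`: `f^m (f^d z) = W0 (-1 + m p) w'`, `f^(m+d) z = W0 (-1 + (m+d) p) w`; so `w = w'` and `q ∣ d p`, hence `q ∣ d`
(coprime); `phi (f^d z) = w' - m + o(1)`, `phi z = w - (m + d) + o(1)` as `r → ∞`: `phi (f^d z) = phi z + d`.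
`GH_mem_B`: `f^q z ∈ B ↔ z ∈ B`: representations of one give representations of the other, since `W0 (-1 + (m+q) p) = W0 (-1 + m p)` (`per0` iterated `p` times); field `mem_B`
(`w ∈ Ra r`).
`GH_B_sub`: `‖f^m z‖ ≤ C ‖w‖^(-1/q)` is bounded for large `m` (field `small0`); `mem_K_iff`. `GH_zero`: `f^m 0 = 0` but `W0 j w ≠ 0` (`ne_zero0`).
-/

set_option autoImplicit false

open Set Filter Topology Metric

namespace Pool.Agent.CR

variable {p q s e : ℕ}

private theorem GH_norm_mu (x : ℝ) : ‖mu x‖ = 1 := by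
  unfold mu
  have h : (2 * Real.pi * x * Complex.I : ℂ) = ((2 * Real.pi * x : ℝ) : ℂ) * Complex.I := by
    push_cast
    ring
  rw [h, Complex.norm_exp_ofReal_mul_I]

private theorem GH_r0 {c : Chart p q s e} (F : Fat c) : 10 ≤ F.r0 ∧ c.R < F.r0 := by
  have h1 := F.r0_ge
  have h2 := c.R_ge
  constructor <;> linarith

private theorem GH_wd {c : Chart p q s e} (F : Fat c) {w : ℂ} {r : ℝ} (hr : F.r0 ≤ r) (h1 : r < w.re)
    (h2 : -w.im < w.re / 4) : w ∈ Wd0 c.R := by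
  have h3 := GH_r0 F
  have h4 : 0 < w.re := by linarith
  constructor
  · exact lt_of_lt_of_le (by linarith) ((le_abs_self _).trans (Complex.abs_re_le_norm w))
  · rw [abs_of_pos h4]
    linarith

private theorem GH_small {c : Chart p q s e} (F : Fat c) {r : ℝ} (hr : F.r0 ≤ r) :
    F.C * r ^ (-(1 / (q : ℝ))) ≤ 1 / 8 := by
  refine le_trans ?_ F.C_small
  refine mul_le_mul_of_nonneg_left ?_ F.C_pos.le
  have h3 := GH_r0 F
  refine Real.rpow_le_rpow_of_nonpos (by linarith) hr ?_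
  have : (0 : ℝ) ≤ 1 / (q : ℝ) := by positivity
  linarith

theorem GH_rep {c : Chart p q s e} (F : Fat c) (hq : 0 < q) {z : ℂ} (hz : z ∈ F.B) (r : ℝ) (hr : F.r0 ≤ r) :
    ∀ᶠ m : ℕ in atTop, ∃ w : ℂ, r < w.re ∧ -w.im < w.re / 4 ∧ w ∈ Wd0 c.R ∧ w ∈ HP 1 r ∧
      (f (mu ((p : ℝ) / q)))^[m] z = c.W0 (-1 + m * p) w ∧ ‖F.phi z - (w - m)‖ ≤ F.C * r ^ (-(1 / (q : ℝ))) := by
  have h1 := F.exists_B z hz r
  have h2 : ∀ᶠ m : ℕ in atTop, r + 1 + |(F.phi z).re| + 4 * |(F.phi z).im| < (m : ℝ) :=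
    tendsto_natCast_atTop_atTop.eventually_gt_atTop _
  filter_upwards [h1, h2] with m ⟨w, hw1, hw2, hw3⟩ hm
  have h3 := (F.mem_B z m w r hr (Or.inl ⟨hw1, hw2⟩) hw3).2
  refine ⟨w, hw1, hw2, GH_wd F hr hw1 hw2, ?_, hw3, h3⟩
  have h4 : ‖F.phi z - (w - m)‖ ≤ 1 / 8 := h3.trans (GH_small F hr)
  have h5 := (Complex.abs_re_le_norm _).trans h4
  have h6 := (Complex.abs_im_le_norm _).trans h4
  simp only [Complex.sub_re, Complex.sub_im, Complex.natCast_re, Complex.natCast_im] at h5 h6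
  have h7 := neg_abs_le (F.phi z).re
  have h8 := neg_abs_le (F.phi z).im
  rw [abs_le] at h5 h6
  show r < 1 * w.re + 4 * w.im
  linarith [h5.1, h5.2, h6.1, h6.2]

/-- `F.C * r^(-1/q) → 0` -/
theorem GH_rate {c : Chart p q s e} (F : Fat c) (hq : 0 < q) :
    Tendsto (fun r : ℝ => F.C * r ^ (-(1 / (q : ℝ)))) atTop (𝓝 0) := by
  have h : (0 : ℝ) < 1 / (q : ℝ) := by positivity
  have h1 := (tendsto_rpow_neg_atTop h).const_mul F.C
  rwa [mul_zero] at h1

theorem GH_per (c : Chart p q s e) (j : ℤ) (k : ℤ) (w : ℂ) : c.W0 (j + k * q) w = c.W0 j w := by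
  induction k using Int.induction_on with
  | zero => simp
  | succ i ih =>
    have h : j + ((i : ℤ) + 1) * q = (j + i * q) + q := by ring
    rw [h, c.per0, ih]
  | pred i ih =>
    have h : j + -(i : ℤ) * q = (j + (-(i : ℤ) - 1) * q) + q := by ring
    rw [h, c.per0] at ih
    exact ih

theorem GH_mem_B {c : Chart p q s e} (F : Fat c) (hq : 0 < q) (z : ℂ) :
    (f (mu ((p : ℝ) / q)))^[q] z ∈ F.B ↔ z ∈ F.B := by
  constructor
  · intro h
    obtain ⟨m, w, h1, h2, h3⟩ := (F.exists_B _ h F.r0).exists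
    refine (F.mem_B z (m + q) w F.r0 le_rfl (Or.inl ⟨h1, h2⟩) ?_).1
    rw [Function.iterate_add_apply, h3]
    have e : (-1 + ((m + q : ℕ) : ℤ) * p : ℤ) = (-1 + m * p) + p * q := by push_cast; ring
    rw [e, GH_per]
  · intro h
    obtain ⟨m, ⟨w, h1, h2, h3⟩, hm⟩ := ((F.exists_B _ h F.r0).and (eventually_ge_atTop q)).exists
    obtain ⟨k, rfl⟩ := Nat.exists_eq_add_of_le' hm
    refine (F.mem_B _ k w F.r0 le_rfl (Or.inl ⟨h1, h2⟩) ?_).1
    rw [← Function.iterate_add_apply, h3]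
    have e : (-1 + ((k + q : ℕ) : ℤ) * p : ℤ) = (-1 + k * p) + p * q := by push_cast; ring
    rw [e, GH_per]

theorem GH_phi_f {c : Chart p q s e} (F : Fat c) (hq : 0 < q) (hc : Nat.Coprime p q) {z : ℂ} (hz : z ∈ F.B) {d : ℕ}
    (hd : (f (mu ((p : ℝ) / q)))^[d] z ∈ F.B) : q ∣ d ∧ F.phi ((f (mu ((p : ℝ) / q)))^[d] z) = F.phi z + d := by
  have key : ∀ r : ℝ, F.r0 ≤ r → q ∣ d ∧
      ‖F.phi ((f (mu ((p : ℝ) / q)))^[d] z) - (F.phi z + d)‖ ≤ 2 * (F.C * r ^ (-(1 / (q : ℝ)))) := by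
    intro r hr
    have h1 := GH_rep F hq hd r hr
    have h2 := (tendsto_add_atTop_nat d).eventually (GH_rep F hq hz r hr)
    obtain ⟨m, ⟨w', -, -, a3, -, a5, a6⟩, ⟨w, -, -, b3, -, b5, b6⟩⟩ := (h1.and h2).exists
    rw [← Function.iterate_add_apply] at a5
    rw [a5] at b5
    obtain ⟨e1, k, hk⟩ := c.inj0 _ _ _ a3 _ b3 b5
    subst e1
    constructor
    · have h3 : (d : ℤ) * p = k * q := by
        push_cast at hk
        linarith
      have h4 : (q : ℤ) ∣ (d : ℤ) * p := ⟨k, by rw [h3]; ring⟩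
      have h5 : q ∣ d * p := by exact_mod_cast h4
      exact (Nat.Coprime.symm hc).dvd_of_dvd_mul_right h5
    · have e : F.phi ((f (mu ((p : ℝ) / q)))^[d] z) - (F.phi z + d) =
          (F.phi ((f (mu ((p : ℝ) / q)))^[d] z) - (w' - m)) - (F.phi z - (w' - ((m + d : ℕ) : ℂ))) := by
        push_cast
        ring
      rw [e]
      refine (norm_sub_le _ _).trans ?_
      linarith
  refine ⟨(key F.r0 le_rfl).1, ?_⟩
  have h1 := (GH_rate F hq).const_mul 2
  rw [mul_zero] at h1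
  have h2 : ‖F.phi ((f (mu ((p : ℝ) / q)))^[d] z) - (F.phi z + d)‖ ≤ 0 := by
    refine ge_of_tendsto h1 ?_
    filter_upwards [eventually_ge_atTop F.r0] with r hr
    exact (key r hr).2
  exact sub_eq_zero.1 (norm_le_zero_iff.1 h2)

theorem GH_B_sub {c : Chart p q s e} (F : Fat c) (hq : 0 < q) : F.B ⊆ K (mu ((p : ℝ) / q)) := by
  intro z hz
  rw [mem_K_iff (GH_norm_mu _).le]
  obtain ⟨m0, hm0⟩ := eventually_atTop.1 (GH_rep F hq hz F.r0 le_rfl)
  refine ⟨c.C + ∑ i ∈ Finset.range m0, ‖(f (mu ((p : ℝ) / q)))^[i] z‖, fun n => ?_⟩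
  have hS : 0 ≤ ∑ i ∈ Finset.range m0, ‖(f (mu ((p : ℝ) / q)))^[i] z‖ :=
    Finset.sum_nonneg fun _ _ => norm_nonneg _
  rcases lt_or_ge n m0 with h | h
  · have h1 := Finset.single_le_sum (f := fun i => ‖(f (mu ((p : ℝ) / q)))^[i] z‖)
      (fun _ _ => norm_nonneg _) (Finset.mem_range.2 h)
    have h2 := c.C_pos
    linarith
  · obtain ⟨w, h1, h2, h3, h4, h5, h6⟩ := hm0 n h
    rw [h5]
    have h7 := c.small0 (-1 + n * p) w h3
    have h8 : (1 : ℝ) ≤ ‖w‖ := by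
      have := (le_abs_self _).trans (Complex.abs_re_le_norm w)
      have := GH_r0 F
      linarith
    have h9 : ‖w‖ ^ (-(1 / (q : ℝ))) ≤ 1 :=
      Real.rpow_le_one_of_one_le_of_nonpos h8 (by
        have : (0 : ℝ) ≤ 1 / (q : ℝ) := by positivity
        linarith)
    have h10 := mul_le_mul_of_nonneg_left h9 c.C_pos.le
    linarith

theorem GH_zero {c : Chart p q s e} (F : Fat c) (hq : 0 < q) : (0 : ℂ) ∉ F.B := by
  intro h
  obtain ⟨m, w, h1, h2, h3, h4, h5, h6⟩ := (GH_rep F hq h F.r0 le_rfl).exists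
  have h7 : (f (mu ((p : ℝ) / q)))^[m] 0 = 0 := by
    refine Function.iterate_fixed ?_ m
    unfold f
    ring
  rw [h7] at h5
  exact c.ne_zero0 _ w h3 h5.symm

end Pool.Agent.CR
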