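import Pool.Agent.H33.CR.GH
import Pool.Agent.H33.CR.GC3

/-!
# CR GH2: the instance `AttData (mu (p/q)) q` from `Fat`

Choose `S` with `S/5 ≥ F.r0`, `S/5 ≥ c.M0 hq + 1`, and let `g w = F.phi (c.W0 (-1) w)` on `HP 1 S`: for `w ∈ HP 1 S ⊆ Ra (S/5)` (`HP_sub_Ra`), `mem_B` with `m = 0` gives
`c.W0 (-1) w ∈ B`, `‖g w - w‖ ≤ C (S/5)^(-1/q) ≤ C r0^(-1/q) ≤ 1/8`. `g` is holomorphic (`diff_phi`, `diff0`; `HP 1 S ⊆ Wd0 R`). `near_id_inv` gives `h` on `HP 1 (S+8)`.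
`A.B = F.B`, `A.phi = F.phi`, `A.W = HP 1 (S + 20)`, `A.Psi w = c.W0 (-1) (h w)`; `phi (Psi w) = g (h w) = w`.
`Psi_f`: let `x = h w ∈ HP 1 (S+19)` (`‖h w - w‖ ≤ 1/8`); `f^q (W0 (-1) x) = W0 (-1 + q p) (orb c (-1) q x) = W0 (-1) y` with `y = orb c (-1) q x`, `‖y - (x + q)‖ ≤ 1/8` (`Chart.orb_sum`,
`Chart.orb_est`, `x + k ∈ HP 1 S ⊆ Ea (1/4) (S/5)`; `GH_per`); by `GH_phi_f` (`d = q`) `g y = phi (f^q (Psi w)) = phi (Psi w) + q = w + q = g (h (w + q))`; both `y` and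
`h (w + q)` are in `HP 1 (S + 5)`, so `y = h (w + q)` (injectivity part of `near_id_inv`).
`Psi_phi`: `z ∈ B`; `GH_rep` with `r = S + 40` for `m = q n`, `n` large: `f^(q n) z = W0 (-1 + q n p) w = W0 (-1) w` (`GH_per`), `w ∈ HP 1 (S + 40)`,
`phi z + q n = g w` by `GH_phi_f`-type identity: precisely `phi (f^(q n) z) = phi z + q n` (`GH_phi_f` with `d = q n`; `f^(qn) z ∈ B` by `GH_mem_B` iterated) and `phi (f^(q n) z) = g w`;
`‖g w - w‖ ≤ 1/8` so `g w ∈ HP 1 (S + 20)`; `h (g w) = w` (`w ∈ HP 1 (S+9)`), so `Psi (phi z + q n) = W0 (-1) w = f^(q n) z`.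
`W_absorb`: `Re (w + q n) + 4 Im ≥ q n - 5 C`. `sing`: `sv = phi (f^k0 (v l0))` for some `k0` with `f^k0 (v l0) ∈ B` if there is one (else `0`); for another `k`: `k = k0 + d` or `k0 = k + d`;
`GH_phi_f` gives `q ∣ d` and `phi (f^k v) = phi (f^k0 v) ± d`.
-/

set_option autoImplicit false

open Set Filter Topology Metric

namespace Pool.Agent.CR

variable {p q s e : ℕ}

theorem GH2_phi_iter {c : Chart p q s e} (F : Fat c) (hq : 0 < q) (hc : Nat.Coprime p q) {z : ℂ} (hz : z ∈ F.B) (n : ℕ) :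
    (f (mu ((p : ℝ) / q)))^[q * n] z ∈ F.B ∧ F.phi ((f (mu ((p : ℝ) / q)))^[q * n] z) = F.phi z + q * n := by
  have h1 : (f (mu ((p : ℝ) / q)))^[q * n] z ∈ F.B := by
    induction n with
    | zero => simpa using hz
    | succ n ih =>
      rw [Nat.mul_succ, Nat.add_comm, Function.iterate_add_apply]
      exact (GH_mem_B F hq _).2 ih
  refine ⟨h1, ?_⟩
  have h2 := (GH_phi_f F hq hc hz h1).2
  rw [h2]; push_cast; ring

theorem GH2_sing {c : Chart p q s e} (F : Fat c) (hq : 0 < q) (hc : Nat.Coprime p q) : ∃ sv : ℂ, ∀ k : ℕ,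
    (f (mu ((p : ℝ) / q)))^[k] (v (mu ((p : ℝ) / q))) ∈ F.B →
      ∃ m : ℤ, F.phi ((f (mu ((p : ℝ) / q)))^[k] (v (mu ((p : ℝ) / q)))) = sv + m * q := by
  by_cases h : ∃ k0 : ℕ, (f (mu ((p : ℝ) / q)))^[k0] (v (mu ((p : ℝ) / q))) ∈ F.B
  · obtain ⟨k0, hk0⟩ := h
    refine ⟨F.phi ((f (mu ((p : ℝ) / q)))^[k0] (v (mu ((p : ℝ) / q)))), fun k hk => ?_⟩
    rcases le_total k0 k with h | h
    · obtain ⟨d, rfl⟩ := Nat.exists_eq_add_of_le h
      rw [Nat.add_comm k0 d, Function.iterate_add_apply] at hk ⊢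
      obtain ⟨⟨m, rfl⟩, h2⟩ := GH_phi_f F hq hc hk0 hk
      exact ⟨m, by rw [h2]; push_cast; ring⟩
    · obtain ⟨d, rfl⟩ := Nat.exists_eq_add_of_le h
      rw [Nat.add_comm k d, Function.iterate_add_apply] at hk0
      obtain ⟨⟨m, rfl⟩, h2⟩ := GH_phi_f F hq hc hk hk0
      refine ⟨-m, ?_⟩
      rw [Nat.add_comm k (q * m), Function.iterate_add_apply, h2]; push_cast; ring
  · exact ⟨0, fun k hk => absurd ⟨k, hk⟩ h⟩

private theorem GH2_HP_sub {R S : ℝ} (hR : 4 ≤ R) (hS : R + 60 ≤ S / 5) : HP 1 S ⊆ Wd0 R := by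
  intro w hw
  have h1 : w ∈ Wq (1 / 4) (S / 5) := HP_sub_Wq (by norm_num) (by linarith) hw
  exact (Wq_near_Wi hR hS (Wq_mono (by norm_num) le_rfl h1) (by simp : ‖w - w‖ ≤ 1)).2

private theorem GH2_HP_mono {S S' : ℝ} (h : S ≤ S') : HP 1 S' ⊆ HP 1 S := by
  intro w hw
  simp only [HP, mem_ofPred_eq] at hw ⊢
  linarith

private theorem GH2_HP_add {S : ℝ} {w : ℂ} (hw : w ∈ HP 1 S) {x : ℝ} (hx : 0 ≤ x) : w + x ∈ HP 1 S := by
  simp only [HP, mem_ofPred_eq] at hw ⊢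
  simp only [Complex.add_re, Complex.add_im, Complex.ofReal_re, Complex.ofReal_im]
  linarith

theorem exists_attData {c : Chart p q s e} (F : Fat c) (hq : 0 < q) (hc : Nat.Coprime p q) :
    ∃ A : AttData (mu ((p : ℝ) / q)) q, A.B = F.B ∧ A.phi = F.phi := by
  obtain ⟨sv, hsv⟩ := GH2_sing F hq hc
  set l : ℂ := mu ((p : ℝ) / q) with hl
  obtain ⟨r, hr⟩ : ∃ r : ℝ, r = max F.r0 (c.M0 hq + 1) := ⟨_, rfl⟩
  have hr0 : F.r0 ≤ r := hr ▸ le_max_left _ _
  have hrM : c.M0 hq + 1 ≤ r := hr ▸ le_max_right _ _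
  have hM0 := c.M0_ge hq
  have hR := c.R_ge
  have hF0 := F.r0_ge
  obtain ⟨S, hS⟩ : ∃ S : ℝ, S = 5 * r := ⟨_, rfl⟩
  have hS5 : S / 5 = r := by rw [hS]; ring
  have hSpos : 0 ≤ S := by rw [hS]; linarith
  have hWd : HP 1 S ⊆ Wd0 c.R := GH2_HP_sub hR (by rw [hS5]; linarith)
  have hrate : F.C * r ^ (-(1 / (q : ℝ))) ≤ 1 / 8 := by
    refine le_trans ?_ F.C_small
    refine mul_le_mul_of_nonneg_left ?_ F.C_pos.le
    refine Real.rpow_le_rpow_of_nonpos (by linarith) hr0 ?_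
    rw [neg_nonpos]; positivity
  have hmem : ∀ w ∈ HP 1 S, c.W0 (-1) w ∈ F.B ∧ ‖F.phi (c.W0 (-1) w) - w‖ ≤ 1 / 8 := by
    intro w hw
    have h1 : w ∈ Ra r := by
      have := HP_sub_Ra hSpos hw
      rwa [hS5] at this
    have h2 := F.mem_B (c.W0 (-1) w) 0 w r hr0 h1 (by simp)
    refine ⟨h2.1, le_trans ?_ (h2.2.trans hrate)⟩
    simp
  obtain ⟨g, hg⟩ : ∃ g : ℂ → ℂ, g = fun w => F.phi (c.W0 (-1) w) := ⟨_, rfl⟩
  have hgd : DifferentiableOn ℂ g (HP 1 S) := by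
    rw [hg]
    exact F.diff_phi.comp ((c.diff0 (-1)).mono hWd) (fun w hw => (hmem w hw).1)
  have hgn : ∀ w ∈ HP 1 S, ‖g w - w‖ ≤ 1 / 8 := by
    intro w hw
    rw [hg]
    exact (hmem w hw).2
  have hσ : |(1 : ℝ)| ≤ 1 := by norm_num
  obtain ⟨-, h, hd, h1, h2⟩ := near_id_inv hσ hgd hgn
  have hPd : DifferentiableOn ℂ (fun w => c.W0 (-1) (h w)) (HP 1 (S + 20)) := by
    refine (c.diff0 (-1)).comp (hd.mono (GH2_HP_mono (by linarith))) ?_
    intro w hw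
    exact hWd (GH2_HP_mono (by linarith) (h1 w (GH2_HP_mono (by linarith) hw)).1)
  have hPmem : ∀ w ∈ HP 1 (S + 20), c.W0 (-1) (h w) ∈ F.B := by
    intro w hw
    exact (hmem _ (GH2_HP_mono (by linarith) (h1 w (GH2_HP_mono (by linarith) hw)).1)).1
  have hphiP : ∀ w ∈ HP 1 (S + 20), F.phi (c.W0 (-1) (h w)) = w := by
    intro w hw
    have := (h1 w (GH2_HP_mono (by linarith) hw)).2.1
    rw [hg] at this
    exact this
  refine ⟨{ B := F.B, phi := F.phi, W := HP 1 (S + 20), Psi := fun w => c.W0 (-1) (h w), sv := sv,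
            q_pos := hq, isOpen_B := F.isOpen_B, B_sub := GH_B_sub F hq, zero_notMem := GH_zero F hq,
            diff_phi := F.diff_phi, mem_B := GH_mem_B F hq,
            phi_f := fun z hz => (GH_phi_f F hq hc hz ((GH_mem_B F hq z).2 hz)).2,
            isOpen_W := isOpen_HP _ _, W_add := ?_, W_absorb := ?_, diff_Psi := hPd, Psi_mem := hPmem,
            phi_Psi := hphiP, Psi_f := ?_, Psi_phi := ?_, sing := hsv }, rfl, rfl⟩
  · intro w hw
    have := GH2_HP_add hw (x := (q : ℝ)) (by positivity)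
    simpa using this
  · intro C
    obtain ⟨n, hn⟩ := exists_nat_gt (S + 20 + 5 * C)
    refine ⟨n, fun w hw => ?_⟩
    have h3 := abs_le.1 ((Complex.abs_re_le_norm w).trans hw)
    have h4 := abs_le.1 ((Complex.abs_im_le_norm w).trans hw)
    have hq1 : (1 : ℝ) ≤ q := by exact_mod_cast hq
    have hn0 : (0 : ℝ) ≤ n := n.cast_nonneg
    have h5 : (n : ℝ) ≤ q * n := by nlinarith
    have h6 : w + (q : ℂ) * n = w + ((q * n : ℝ) : ℂ) := by push_cast; ring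
    rw [h6]
    simp only [HP, mem_ofPred_eq, Complex.add_re, Complex.add_im, Complex.ofReal_re, Complex.ofReal_im]
    linarith
  · intro w hw
    have hx := h1 w (GH2_HP_mono (by linarith) hw)
    have hx19 : h w ∈ HP 1 (S + 19) := HP_shift hσ hx.2.2 (GH2_HP_mono (by linarith) hw)
    have hk : ∀ k ≤ q, h w + (k : ℕ) ∈ Wq (2 / 5) r := by
      intro k _
      have h3 : h w ∈ Ea (1 / 4) (S / 5) := HP_sub_Ea hSpos (GH2_HP_mono (by linarith) hx19)
      rw [hS5] at h3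
      exact Wq_mono (by norm_num) le_rfl (h3 k)
    have h3 := (c.orb_sum hq r (by linarith) (-1) (h w) q hk q le_rfl).2
    have h4 := c.orb_est hq (M := r) (by linarith) (-1) (h w) q hk q le_rfl
    have h5 := h4.trans (c.T_le hq r (by linarith))
    set y : ℂ := orb c (-1) q (h w) with hy
    have hxq : h w + q ∈ HP 1 (S + 19) := by
      have := GH2_HP_add hx19 (x := (q : ℝ)) (by positivity)
      simpa using this
    have hy18 : y ∈ HP 1 (S + 18) := HP_shift hσ h5 (GH2_HP_mono (by linarith) hxq)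
    have h6 : c.W0 (-1 + (q : ℤ) * p) y = c.W0 (-1) y := by
      rw [mul_comm]
      exact GH_per c (-1) p y
    rw [h6] at h3
    have hwB := hPmem w hw
    have h7 := (GH_phi_f F hq hc hwB ((GH_mem_B F hq _).2 hwB)).2
    rw [hphiP w hw, ← hl, h3] at h7
    have h8 : g y = w + q := by rw [hg]; exact h7
    have h9 := h2 y (GH2_HP_mono (by linarith) hy18)
    rw [h8] at h9
    show (f l)^[q] (c.W0 (-1) (h w)) = c.W0 (-1) (h (w + q))
    rw [h9, h3]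
  · intro z hz
    obtain ⟨N, hN⟩ := eventually_atTop.1 (GH_rep F hq hz (S + 40) (by rw [hS]; linarith))
    have hqN : N ≤ q * N := Nat.le_mul_of_pos_left N hq
    obtain ⟨w, -, -, -, hw, hfw, -⟩ := hN (q * N) hqN
    have h3 : c.W0 (-1 + ((q * N : ℕ) : ℤ) * p) w = c.W0 (-1) w := by
      have h4 : (-1 + ((q * N : ℕ) : ℤ) * p) = -1 + ((N : ℤ) * p) * q := by push_cast; ring
      rw [h4]
      exact GH_per c (-1) _ w
    rw [h3] at hfw
    have h4 := (GH2_phi_iter F hq hc hz N).2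
    rw [hfw] at h4
    have hgw : g w = F.phi z + q * N := by rw [hg]; exact h4
    have hwS : w ∈ HP 1 S := GH2_HP_mono (by linarith) hw
    have hgw2 : g w ∈ HP 1 (S + 20) := HP_shift hσ (hgn w hwS) (GH2_HP_mono (by linarith) hw)
    refine ⟨N, by rw [← hgw]; exact hgw2, ?_⟩
    show (f l)^[q * N] z = c.W0 (-1) (h (F.phi z + q * N))
    rw [← hgw, h2 w (GH2_HP_mono (by linarith) hw)]
    exact hfw

end Pool.Agent.CR
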