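import Pool.Agent.H33.CR.GH

/-!
# CR GI: the repelling side, lemmas

`GI_G`: fix `S` with `S/5 ≥ F.r0` (`S ≥ 5 r0`). For `ω ∈ HP (-1) S ⊆ Rr (S/5)` (`HP_sub_Rr`) the field `pr_W0` (`w = ω + m`, `r = S/5`) gives `w' ∈ Wd0 R` with
`pr m (ω + m) = W0 (-1 - m p) w'`, `‖w' - ω‖ ≤ C (S/5)^(-1/q) ≤ 1/8`; choose `G ω = w'`; it is holomorphic (`differentiableAt_lift` with `h = W0 (-1 - m p)`, `s = Wd0 R`,
`ψ ω = pr m (ω + m)`). Then `near_id_inv` for `G` gives the inverse `H`.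
`GI_back`: `w ∈ HP (-1) S1`, `S1/5 ≥ c.M0 hq + 2`. The map `x ↦ x + δ0 j x` is holomorphic and within `1/8` of the identity on `ball (w - 1) 1` (`w - 1 ∈ HP (-1) S1`,
`HP_sub_Er`, `Wq_near_Wi` for `x` and `x + 1`), so `near_id_solve` gives `w'` with `w' + δ0 j w' = w - 1`, `‖w' - (w - 1)‖ ≤ 1/8`; then `w' ∈ HP (-1) S1` (`L w' ≥ L w + 1 - 5/8`), `w' ∈ Wd0`,
`w' + 1 ∈ Wi0` and `map0` gives `f (W0 j w') = W0 (j + p) w`.
`GI_f_inj`: `f l z = f l z'` iff `z = z'` or `z + z' = -l`.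
`GI_back_unique`: let `z` be small and `f z = W0 (j + p) w`, `w ∈ HP (-1) S1`; the point `z' = W0 j w'` of `GI_back` has `‖z'‖ ≤ C ‖w'‖^(-1/q) ≤ 1/4` if `S1` is large (`small0`,
`‖w'‖ ≥ S1/5`), so `z = z'` by `GI_f_inj`.
`GI_absorb`: `z m → 0`, `z m ≠ 0`, `f (z (m+1)) = z m`: by `Y0_map`, `Y0 (z m) - Y0 (z (m+1)) → 1` (`Y0_map` at `z (m+1)`), so `Y0 (z m) / m → -1` (Cesàro: `Y0 (z m) + m = o(m)`); so for large `m`
`-(Y0).im < |(Y0).re|/2`, and `Y0_surj` gives `z m = W0 j w` with `‖w‖` large; by `Y0_W0` with small `ε`, `‖Y0 (z m) - w‖ ≤ ε ‖w‖`, so `w / m → -1`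
in the sense `‖w + m‖ ≤ ε' m`, hence `-Re w + 4 Im w > S1`.
-/

set_option autoImplicit false

open Set Filter Topology Metric

namespace Pool.Agent.CR

variable {p q s e : ℕ}

private theorem GI_norm_mu (x : ℝ) : ‖mu x‖ = 1 := by
  have : mu x = Complex.exp ((2 * Real.pi * x : ℝ) * Complex.I) := by
    unfold mu; push_cast; rfl
  rw [this, Complex.norm_exp_ofReal_mul_I]

private theorem GI_HP_sub {S : ℝ} (hS : 0 ≤ S) : HP (-1) S ⊆ Wq (2 / 5) (S / 5) := by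
  intro w hw
  exact Wq_mono (by norm_num) le_rfl (HP_sub_Wq (by norm_num) hS hw)

theorem GI_G {c : Chart p q s e} (F : Fat c) (m : ℕ) {S : ℝ} (hS : 5 * F.r0 ≤ S) :
    ∃ G : ℂ → ℂ, DifferentiableOn ℂ G (HP (-1) S) ∧ ∀ ω ∈ HP (-1) S, G ω ∈ Wd0 c.R ∧
      F.pr m (ω + m) = c.W0 (-1 - m * p) (G ω) ∧ ‖G ω - ω‖ ≤ 1 / 8 := by
  have hR := c.R_ge
  have hr0 := F.r0_ge
  have hSpos : 0 ≤ S := by linarith
  have key : ∀ ω : ℂ, ∃ w' : ℂ, ω ∈ HP (-1) S → w' ∈ Wd0 c.R ∧ F.pr m (ω + m) = c.W0 (-1 - m * p) w' ∧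
      ‖w' - ω‖ ≤ 1 / 8 := by
    intro ω
    by_cases hω : ω ∈ HP (-1) S
    · have h1 : (ω + m) - m ∈ Rr (S / 5) := by
        rw [add_sub_cancel_right]; exact HP_sub_Rr hSpos hω
      obtain ⟨w', h2, h3, h4⟩ := F.pr_W0 m (ω + m) (S / 5) (by linarith) h1
      refine ⟨w', fun _ => ⟨h2, h3, ?_⟩⟩
      rw [add_sub_cancel_right] at h4
      refine h4.trans (le_trans ?_ F.C_small)
      refine mul_le_mul_of_nonneg_left ?_ F.C_pos.le
      refine Real.rpow_le_rpow_of_nonpos (by linarith) (by linarith) ?_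
      rw [neg_nonpos]; positivity
    · exact ⟨0, fun h => absurd h hω⟩
  choose G hG using key
  refine ⟨G, fun ω hω => ?_, fun ω hω => hG ω hω⟩
  refine (differentiableAt_lift (isOpen_Wd0 c.R) (c.diff0 (-1 - m * p)) ?_ (ψ := fun ω => F.pr m (ω + m))
    ?_ ?_).differentiableWithinAt
  · intro w hw w' hw' h
    exact (c.inj0 _ _ w hw w' hw' h).1
  · exact (F.diff_pr m (ω + m)).comp ω (differentiableAt_id.add_const (m : ℂ))
  · filter_upwards [(isOpen_HP (-1) S).mem_nhds hω] with w hw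
    exact ⟨(hG w hw).1, (hG w hw).2.1.symm⟩

theorem GI_back (c : Chart p q s e) (hq : 0 < q) (j : ℤ) {S1 : ℝ} (hS1 : 5 * (c.M0 hq + 2) ≤ S1) {w : ℂ}
    (hw : w ∈ HP (-1) S1) : ∃ w' : ℂ, w' ∈ HP (-1) S1 ∧ ‖w' - (w - 1)‖ ≤ 1 / 8 ∧ w' ∈ Wd0 c.R ∧
      f (mu ((p : ℝ) / q)) (c.W0 j w') = c.W0 (j + p) w := by
  have hR := c.R_ge
  have hM0 := c.M0_ge hq
  have hSpos : 0 ≤ S1 := by linarith
  have hx : w - 1 ∈ HP (-1) (S1 + 1) := by
    simp only [HP, mem_ofPred_eq, Complex.sub_re, Complex.sub_im, Complex.one_re, Complex.one_im] at hw ⊢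
    linarith
  have hx0 : w - 1 ∈ HP (-1) S1 := by
    simp only [HP, mem_ofPred_eq] at hx ⊢
    linarith
  have hq1 := GI_HP_sub hSpos hx0
  have hq2 := GI_HP_sub hSpos hw
  have hM : c.R + 60 ≤ S1 / 5 := by linarith
  have hdom : ∀ y ∈ ball (w - 1) 1, y ∈ Wd0 c.R ∧ y + 1 ∈ Wi0 c.R := by
    intro y hy
    rw [mem_ball, dist_eq_norm] at hy
    refine ⟨(Wq_near_Wi hR hM hq1 hy.le).2, (Wq_near_Wi hR hM hq2 ?_).1⟩
    have : y + 1 - w = y - (w - 1) := by ring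
    rw [this]; exact hy.le
  have hd : DifferentiableOn ℂ (fun y => y + c.δ0 j y) (ball (w - 1) 1) := by
    refine differentiableOn_id.add ((c.δ0_diff j).mono ?_)
    intro y hy
    exact hdom y hy
  have hg : ∀ y ∈ ball (w - 1) 1, ‖(fun y => y + c.δ0 j y) y - y‖ ≤ 1 / 8 := by
    intro y hy
    show ‖y + c.δ0 j y - y‖ ≤ 1 / 8
    rw [add_sub_cancel_left]
    exact (c.δ0_small j y (hdom y hy).1 (hdom y hy).2).1
  obtain ⟨w', h1, h2⟩ := near_id_solve le_rfl hd hg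
  have hwb : w' ∈ ball (w - 1) 1 := by
    rw [mem_ball, dist_eq_norm]
    exact lt_of_le_of_lt h1 (by norm_num)
  have hw'S : w' ∈ HP (-1) S1 := by
    refine HP_shift (by norm_num) h1 ?_
    simp only [HP, mem_ofPred_eq] at hx ⊢
    linarith
  refine ⟨w', hw'S, h1, (hdom w' hwb).1, ?_⟩
  rw [c.map0 j w' (hdom w' hwb).1 (hdom w' hwb).2]
  congr 1
  have h3 : w' + c.δ0 j w' = w - 1 := h2
  linear_combination h3

theorem GI_f_inj {l z z' : ℂ} (h : f l z = f l z') (hz : ‖z‖ + ‖z'‖ < ‖l‖) : z = z' := by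
  have h1 : (z - z') * (z + z' + l) = 0 := by
    unfold f at h
    linear_combination h
  rcases mul_eq_zero.1 h1 with h2 | h2
  · exact sub_eq_zero.1 h2
  · exfalso
    have h3 : l = -(z + z') := by linear_combination h2
    have h4 : ‖l‖ ≤ ‖z‖ + ‖z'‖ := by
      rw [h3, norm_neg]; exact norm_add_le _ _
    linarith

theorem GI_back_unique (c : Chart p q s e) (hq : 0 < q) : ∃ S2 : ℝ, ∀ S1 ≥ S2, ∀ (j : ℤ) (w z : ℂ), w ∈ HP (-1) S1 →
    ‖z‖ < 1 / 4 → f (mu ((p : ℝ) / q)) z = c.W0 (j + p) w →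
      ∃ w' : ℂ, w' ∈ HP (-1) S1 ∧ ‖w' - (w - 1)‖ ≤ 1 / 8 ∧ z = c.W0 j w' := by
  have hR := c.R_ge
  have hM0 := c.M0_ge hq
  have hα : (0 : ℝ) < 1 / (q : ℝ) := by positivity
  have hlim : Tendsto (fun x : ℝ => c.C * x ^ (-(1 / (q : ℝ)))) atTop (𝓝 0) := by
    have := (tendsto_rpow_neg_atTop hα).const_mul c.C
    rwa [mul_zero] at this
  obtain ⟨x0, hx0⟩ := eventually_atTop.1 (hlim.eventually (gt_mem_nhds (show (0 : ℝ) < 1 / 4 by norm_num)))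
  refine ⟨max (5 * (c.M0 hq + 2)) (5 * x0), fun S1 hS1 j w z hw hz hf => ?_⟩
  have hS1a : 5 * (c.M0 hq + 2) ≤ S1 := (le_max_left _ _).trans hS1
  have hS1b : 5 * x0 ≤ S1 := (le_max_right _ _).trans hS1
  obtain ⟨w', h1, h2, h3, h4⟩ := GI_back c hq j hS1a hw
  refine ⟨w', h1, h2, ?_⟩
  have h5 := (GI_HP_sub (by linarith) h1).1
  have h6 := c.small0 j w' h3
  have h7 := hx0 ‖w'‖ (by linarith)
  refine GI_f_inj (l := mu ((p : ℝ) / q)) (hf.trans h4.symm) ?_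
  rw [GI_norm_mu]
  linarith

theorem GI_absorb (c : Chart p q s e) (S1 : ℝ) (z : ℕ → ℂ) (m0 : ℕ)
    (hz : ∀ m ≥ m0, z m ≠ 0 ∧ f (mu ((p : ℝ) / q)) (z (m + 1)) = z m) (h0 : Tendsto z atTop (𝓝 0)) :
    ∀ᶠ m in atTop, ∃ (j : ℤ) (w : ℂ), w ∈ HP (-1) S1 ∧ w ∈ Wd0 c.R ∧ z m = c.W0 j w := by
  obtain ⟨r1, hr1, hmap⟩ := c.Y0_map (1 / 100) (by norm_num)
  obtain ⟨R', hR'⟩ := c.Y0_W0 (1 / 100) (by norm_num)
  obtain ⟨r2, hr2, hsurj⟩ := c.Y0_surj R'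
  have hsm : ∀ r : ℝ, 0 < r → ∀ᶠ m in atTop, ‖z m‖ < r := by
    intro r hr
    have := (tendsto_zero_iff_norm_tendsto_zero.1 h0).eventually (gt_mem_nhds hr)
    exact this
  obtain ⟨m1, hm1⟩ := eventually_atTop.1 ((hsm r1 hr1).and (eventually_ge_atTop m0))
  set y : ℕ → ℂ := fun m => c.Y0 (z m) with hy
  have hstep : ∀ m ≥ m1, ‖y m - y (m + 1) - 1‖ ≤ 1 / 100 := by
    intro m hm
    have h1 := hmap (z (m + 1)) (hz (m + 1) ((hm1 _ (by omega)).2)).1 (hm1 (m + 1) (by omega)).1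
    rwa [(hz m (hm1 m hm).2).2] at h1
  have hind : ∀ k : ℕ, ‖y (m1 + k) - (y m1 - k)‖ ≤ (k : ℝ) / 100 := by
    intro k
    induction k with
    | zero => simp
    | succ k ih =>
      have h1 := hstep (m1 + k) (by omega)
      have h2 : y (m1 + (k + 1)) - (y m1 - ((k + 1 : ℕ) : ℂ)) =
          (y (m1 + k) - (y m1 - k)) - (y (m1 + k) - y (m1 + k + 1) - 1) := by
        rw [← add_assoc]; push_cast; ring
      rw [h2]
      refine (norm_sub_le _ _).trans ?_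
      push_cast
      linarith
  have hlin : ∀ᶠ m : ℕ in atTop, ‖y m + m‖ ≤ (m : ℝ) / 50 := by
    filter_upwards [eventually_ge_atTop m1, (tendsto_natCast_atTop_atTop (R := ℝ)).eventually_ge_atTop (100 * (‖y m1‖ + m1))]
      with m hm hm2
    obtain ⟨k, rfl⟩ := Nat.exists_eq_add_of_le hm
    have h1 := hind k
    have h2 : y (m1 + k) + ((m1 + k : ℕ) : ℂ) = (y (m1 + k) - (y m1 - k)) + (y m1 + (m1 : ℂ)) := by
      push_cast; ring
    have h3 : ‖y m1 + (m1 : ℂ)‖ ≤ ‖y m1‖ + m1 := by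
      refine (norm_add_le _ _).trans ?_
      simp
    rw [h2]
    refine (norm_add_le _ _).trans ?_
    push_cast at hm2 ⊢
    have h4 : (0 : ℝ) ≤ m1 := m1.cast_nonneg
    linarith
  filter_upwards [hlin, hsm r2 hr2, eventually_ge_atTop m0, eventually_ge_atTop 1,
    (tendsto_natCast_atTop_atTop (R := ℝ)).eventually_gt_atTop (2 * S1)] with m h1 h2 h3 h4 h5
  have hm1' : (1 : ℝ) ≤ m := by exact_mod_cast h4
  have hre := abs_le.1 ((Complex.abs_re_le_norm (y m + m)).trans h1)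
  have him := abs_le.1 ((Complex.abs_im_le_norm (y m + m)).trans h1)
  simp only [Complex.add_re, Complex.add_im, Complex.natCast_re, Complex.natCast_im, add_zero] at hre him
  have hreg : -(c.Y0 (z m)).im < |(c.Y0 (z m)).re| / 2 := by
    have h6 : (y m).re = (c.Y0 (z m)).re := rfl
    have h7 : (y m).im = (c.Y0 (z m)).im := rfl
    rw [← h6, ← h7]
    have h8 : -(y m).re ≤ |(y m).re| := neg_le_abs _
    linarith [hre.2, him.1]
  obtain ⟨j, w, hw1, hw2, hw3⟩ := hsurj (z m) (hz m h3).1 h2 hreg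
  refine ⟨j, w, ?_, hw1, hw3.symm⟩
  have h6 := hR' j w hw1 hw2
  rw [hw3] at h6
  have h7 : ‖w + m‖ ≤ ‖w‖ / 100 + (m : ℝ) / 50 := by
    have h8 : w + m = -(c.Y0 (z m) - w) + (y m + m) := by
      simp only [hy]; ring
    rw [h8]
    refine (norm_add_le _ _).trans ?_
    rw [norm_neg]
    linarith
  have h8 : ‖w‖ ≤ ‖w + m‖ + m := by
    have h9 : w = (w + m) - m := by ring
    calc ‖w‖ = ‖(w + m) - m‖ := by rw [← h9]
      _ ≤ ‖w + m‖ + ‖(m : ℂ)‖ := norm_sub_le _ _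
      _ = ‖w + m‖ + m := by simp
  have h9 : ‖w + m‖ ≤ (m : ℝ) / 30 := by linarith
  have hre2 := abs_le.1 ((Complex.abs_re_le_norm (w + m)).trans h9)
  have him2 := abs_le.1 ((Complex.abs_im_le_norm (w + m)).trans h9)
  simp only [Complex.add_re, Complex.add_im, Complex.natCast_re, Complex.natCast_im, add_zero] at hre2 him2
  simp only [HP, mem_ofPred_eq]
  linarith [hre2.2, him2.1]

end Pool.Agent.CR
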