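import Pool.Agent.H33.CR.GI

/-!
# CR GI2: the instance `RepData (mu (p/q))` from `Fat`

`S = 5 r0` (and `≥ 0`), `S1 ≥ S + 30`, `S1 ≥ S2` of `GI_back_unique`. For each `m` let `G m`, `H m` be the maps of `GI_G` and of `near_id_inv` (`σ = -1`, half plane `HP (-1) S`).
`P m = W0 (-1 - m p) '' HP (-1) S1`, `Q m = ⋃_{j : ¬ (q : ℤ) ∣ j + 1 + m p} W0 j '' HP (-1) S1`, `r0 = 1/4`,
`Lam m z = m + H m (w)` for `z = W0 (-1 - m p) w`, `w ∈ HP (-1) S1` (choose `w`; unique by `inj0`).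
`isOpen_P, Q`: `isOpen_image_of_injOn`. `disj`: `inj0`.
`P_succ`: `z` small, `f z = W0 (-1 - m p) w`; `GI_back_unique` with `j = -1 - (m+1) p`: `z = W0 (-1 - (m+1) p) w'`. `Lam (m+1) z = Lam m (f z)`: put `x = Lam (m+1) z - m = 1 + H (m+1) w'` and
`y = Lam m (f z) - m = H m w`; then `pr m (x + m) = f (pr (m+1) (Lam (m+1) z)) = f z = pr m (y + m)`, so `W0 (-1 - m p) (G m x) = W0 (-1 - m p) (G m y)`, `G m x = G m y`, `x = y` by injectivity
of `G m` on `HP (-1) (S+5)` (`x, y ∈ HP (-1) (S + 20)` as they are close to `w' + 1`, `w`).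
`Q_succ`: `GI_back_unique` with `j - p`. `diff_Lam`: `W0⁻¹` is holomorphic (`differentiableAt_lift`).
`pr_Lam`: `pr m (H m w + m) = W0 (-1 - m p) (G m (H m w)) = W0 (-1 - m p) w = z`.
`Lam_pr`: for large `m`, `w - m ∈ HP (-1) (S1 + 1)`, so `G m (w - m) ∈ HP (-1) S1`, `pr m w = W0 (..) (G m (w - m)) ∈ P m` and `Lam m (pr m w) = m + H m (G m (w - m)) = w`.
`pr_lim` (`GI2_pr_lim`): `pr m w = W0 .. (G m (w - m))` and `‖G m (w - m)‖ ≥ ‖w - m‖ - 1/8 → ∞`, field `small0`.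
`not_int` (`GI2_not_int`): `pr 0` is not constant: it is injective on `{ω | ω ∈ HP (-1) (S+5)}` (`pr 0 = W0 (-1) ∘ G 0` there); so it is unbounded (Liouville:
`Differentiable.apply_eq_apply_of_bounded`) and there is `w` with `2 < ‖pr 0 w‖`, `pr 0 w ∉ K`; `f^m (pr m w) = pr 0 w`, so `pr m w ∉ K` (`iter_mem_K`), and `pr m w → 0`.
`absorb`: `GI_absorb`; the index `j` satisfies `q ∣ j + 1 + m p` or not; in the first case `W0 j = W0 (-1 - m p)` by `GH_per`, `z m ∈ P m`; otherwise `z m ∈ Q m`.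
-/

set_option autoImplicit false

open Set Filter Topology Metric

namespace Pool.Agent.CR

variable {p q s e : ℕ}

theorem GI2_pr_iter {c : Chart p q s e} (F : Fat c) (m : ℕ) (w : ℂ) :
    (f (mu ((p : ℝ) / q)))^[m] (F.pr m w) = F.pr 0 w := by
  induction m with
  | zero => rfl
  | succ m ih => rw [Function.iterate_succ_apply, F.pr_f, ih]

private theorem GI2_small_aux {c : Chart p q s e} (F : Fat c) (hq : 0 < q) (C r : ℝ) (hr : 0 < r) :
    ∃ m0 : ℕ, ∀ m ≥ m0, ∀ w : ℂ, w.re ≤ C → -C ≤ w.im → ‖F.pr m w‖ ≤ r := by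
  have hr0 : 0 < F.r0 := by
    have h1 := F.r0_ge
    have h2 := c.R_ge
    linarith
  have hα : 0 < 1 / (q : ℝ) := by positivity
  have hlim : Tendsto (fun m : ℕ => c.C * ((m : ℝ) / 2 - 1 / 8) ^ (-(1 / (q : ℝ)))) atTop (𝓝 0) := by
    have h1 : Tendsto (fun m : ℕ => (m : ℝ) / 2 - 1 / 8) atTop atTop := by
      refine tendsto_atTop_add_const_right _ _ ?_
      exact Tendsto.atTop_div_const (by norm_num) tendsto_natCast_atTop_atTop
    have h2 := ((tendsto_rpow_neg_atTop hα).comp h1).const_mul c.C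
    rw [mul_zero] at h2
    exact h2
  have hev := hlim.eventually (ge_mem_nhds hr)
  obtain ⟨m1, hm1⟩ := eventually_atTop.mp hev
  obtain ⟨m2, hm2⟩ := exists_nat_gt (max (2 * F.r0) (max (5 * |C|) 1))
  refine ⟨max m1 m2, fun m hm w hw1 hw2 => ?_⟩
  have hmm2 : (m2 : ℝ) ≤ m := by exact_mod_cast (le_max_right m1 m2).trans hm
  have hm3 : max (2 * F.r0) (max (5 * |C|) 1) < m := lt_of_lt_of_le hm2 hmm2
  have h4 : 2 * F.r0 < m := lt_of_le_of_lt (le_max_left _ _) hm3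
  have h5 : 5 * |C| < m := lt_of_le_of_lt ((le_max_left _ _).trans (le_max_right _ _)) hm3
  have h6 : (1 : ℝ) < m := lt_of_le_of_lt ((le_max_right _ _).trans (le_max_right _ _)) hm3
  have h7 := le_abs_self C
  have h8 := abs_nonneg C
  have hmem : w - m ∈ Rr ((m : ℝ) / 2) := by
    left
    refine ⟨?_, ?_⟩
    · rw [Complex.sub_re, Complex.natCast_re]
      linarith
    · rw [Complex.sub_im, Complex.natCast_im, Complex.sub_re, Complex.natCast_re]
      linarith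
  obtain ⟨w', hw', he, hd⟩ := F.pr_W0 m w ((m : ℝ) / 2) (by linarith) hmem
  have hd8 : ‖w' - (w - m)‖ ≤ 1 / 8 := by
    refine hd.trans (le_trans ?_ F.C_small)
    refine mul_le_mul_of_nonneg_left ?_ F.C_pos.le
    exact Real.rpow_le_rpow_of_nonpos hr0 (by linarith) (by linarith)
  have hn1 : (m : ℝ) / 2 ≤ ‖w - m‖ := by
    refine le_trans ?_ (Complex.abs_re_le_norm _)
    rw [Complex.sub_re, Complex.natCast_re]
    refine le_trans ?_ (neg_le_abs _)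
    linarith
  have hn2 : (m : ℝ) / 2 - 1 / 8 ≤ ‖w'‖ := by
    have h9 : ‖w - m‖ ≤ ‖w'‖ + ‖w' - (w - m)‖ := by
      have : w - m = w' - (w' - (w - m)) := by ring
      calc ‖w - m‖ = ‖w' - (w' - (w - m))‖ := by rw [← this]
        _ ≤ ‖w'‖ + ‖w' - (w - m)‖ := norm_sub_le _ _
    linarith
  rw [he]
  refine (c.small0 _ w' hw').trans ?_
  refine le_trans ?_ (hm1 m ((le_max_left m1 m2).trans hm))
  refine mul_le_mul_of_nonneg_left ?_ c.C_pos.le
  exact Real.rpow_le_rpow_of_nonpos (by linarith) hn2 (by linarith)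

theorem GI2_pr_lim {c : Chart p q s e} (F : Fat c) (hq : 0 < q) (w : ℂ) :
    Tendsto (fun m => F.pr m w) atTop (𝓝 0) := by
  rw [Metric.tendsto_atTop]
  intro ε hε
  obtain ⟨m0, hm0⟩ := GI2_small_aux F hq (max |w.re| |w.im|) (ε / 2) (by linarith)
  refine ⟨m0, fun m hm => ?_⟩
  rw [dist_zero_right]
  have h1 : w.re ≤ max |w.re| |w.im| := (le_abs_self _).trans (le_max_left _ _)
  have h2 : -(max |w.re| |w.im|) ≤ w.im := by
    have := neg_abs_le w.im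
    have h3 := le_max_right |w.re| |w.im|
    linarith
  have := hm0 m hm w h1 h2
  linarith

theorem GI2_not_int {c : Chart p q s e} (F : Fat c) (hq : 0 < q) (r : ℝ) (hr : 0 < r) :
    ∃ x : ℂ, x ∉ K (mu ((p : ℝ) / q)) ∧ ‖x‖ < r := by
  have hr0 : 0 < F.r0 := by
    have h1 := F.r0_ge
    have h2 := c.R_ge
    linarith
  have hunb : ∃ w : ℂ, 2 < ‖F.pr 0 w‖ := by
    by_contra hcon
    push Not at hcon
    have hb : Bornology.IsBounded (Set.range (F.pr 0)) := by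
      rw [isBounded_iff_forall_norm_le]
      exact ⟨2, by rintro _ ⟨w, rfl⟩; exact hcon w⟩
    obtain ⟨G, _, hG⟩ := GI_G F 0 (S := 5 * F.r0) le_rfl
    have hmem : ∀ t : ℝ, 5 * F.r0 ≤ t → (t : ℂ) * Complex.I ∈ HP (-1) (5 * F.r0) := by
      intro t ht
      show 5 * F.r0 < -1 * ((t : ℂ) * Complex.I).re + 4 * ((t : ℂ) * Complex.I).im
      simp
      linarith
    have h1 := hG _ (hmem (5 * F.r0) le_rfl)
    have h2 := hG _ (hmem (5 * F.r0 + 1) (by linarith))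
    have h3 : F.pr 0 (((5 * F.r0 : ℝ) : ℂ) * Complex.I + (0 : ℕ)) =
        F.pr 0 (((5 * F.r0 + 1 : ℝ) : ℂ) * Complex.I + (0 : ℕ)) :=
      (F.diff_pr 0).apply_eq_apply_of_bounded hb _ _
    rw [h1.2.1, h2.2.1] at h3
    have h4 := (c.inj0 _ _ _ h1.1 _ h2.1 h3).1
    have h5 := h1.2.2
    have h6 := h2.2.2
    rw [← h4] at h6
    have h7 : ((5 * F.r0 + 1 : ℝ) : ℂ) * Complex.I - ((5 * F.r0 : ℝ) : ℂ) * Complex.I = Complex.I := by
      push_cast
      ring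
    have h8 : ‖((5 * F.r0 + 1 : ℝ) : ℂ) * Complex.I - ((5 * F.r0 : ℝ) : ℂ) * Complex.I‖ ≤ 1 / 8 + 1 / 8 := by
      have h9 : ((5 * F.r0 + 1 : ℝ) : ℂ) * Complex.I - ((5 * F.r0 : ℝ) : ℂ) * Complex.I =
          (G (((5 * F.r0 : ℝ) : ℂ) * Complex.I) - ((5 * F.r0 : ℝ) : ℂ) * Complex.I) -
          (G (((5 * F.r0 : ℝ) : ℂ) * Complex.I) - ((5 * F.r0 + 1 : ℝ) : ℂ) * Complex.I) := by ring
      rw [h9]
      exact (norm_sub_le _ _).trans (add_le_add h5 h6)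
    rw [h7, Complex.norm_I] at h8
    norm_num at h8
  obtain ⟨w, hw⟩ := hunb
  have hK0 : F.pr 0 w ∉ K (mu ((p : ℝ) / q)) := by
    intro h
    exact absurd (h 0) (not_le.mpr hw)
  obtain ⟨m, hm⟩ := (Metric.tendsto_atTop.mp (GI2_pr_lim F hq w)) r hr
  refine ⟨F.pr m w, ?_, by simpa using hm m le_rfl⟩
  have hmu : ‖mu ((p : ℝ) / q)‖ ≤ 1 := by
    rw [mu]
    have : (2 * Real.pi * (((p : ℝ) / q : ℝ) : ℂ) * Complex.I : ℂ) =
        ((2 * Real.pi * ((p : ℝ) / q) : ℝ) : ℂ) * Complex.I := by push_cast; ring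
    rw [this, Complex.norm_exp_ofReal_mul_I]
  rw [← iter_mem_K hmu m, GI2_pr_iter]
  exact hK0

/-- Gate field `pr_small`: for `w.re ≤ C`, `-C ≤ w.im` and large `m` the point `w - m` is in `Rr (m/2)`; `pr_W0`, `small0`. -/
theorem GI2_pr_small {c : Chart p q s e} (F : Fat c) (hq : 0 < q) (C r : ℝ) (hr : 0 < r) :
    ∃ m0 : ℕ, ∀ m ≥ m0, ∀ w : ℂ, w.re ≤ C → -C ≤ w.im → ‖F.pr m w‖ ≤ r :=
  GI2_small_aux F hq C r hr

end Pool.Agent.CR
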