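import Pool.Agent.H33.CR.GI2

/-!
# CR GI3: the instance `RepData (mu (p/q))` from `Fat`

`S = 5 r0` (and `≥ 0`), `S1 ≥ S + 30`, `S1 ≥ S2` of `GI_back_unique`. For each `m` let `G m`, `H m` be the maps of `GI_G` and of `near_id_inv` (`σ = -1`, half plane `HP (-1) S`).
`P m = W0 (-1 - m p) '' HP (-1) S1`, `Q m = ⋃_{j : ¬ (q : ℤ) ∣ j + 1 + m p} W0 j '' HP (-1) S1`, `r0 = 1/4`,
`Lam m z = m + H m (w)` for `z = W0 (-1 - m p) w`, `w ∈ HP (-1) S1` (choose `w`; unique by `inj0`).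
`isOpen_P, Q`: `isOpen_image_of_injOn`. `disj`: `inj0`.
`P_succ`: `z` small, `f z = W0 (-1 - m p) w`; `GI_back_unique` with `j = -1 - (m+1) p`: `z = W0 (-1 - (m+1) p) w'`. `Lam (m+1) z = Lam m (f z)`: put `x = Lam (m+1) z - m = 1 + H (m+1) w'` and
`y = Lam m (f z) - m = H m w`; then `pr m (x + m) = f (pr (m+1) (Lam (m+1) z)) = f z = pr m (y + m)`, so `W0 (-1 - m p) (G m x) = W0 (-1 - m p) (G m y)`, `G m x = G m y`, `x = y` by injectivity
of `G m` on `HP (-1) (S+5)` (`x, y ∈ HP (-1) (S + 20)` as they are close to `w' + 1`, `w`).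
`Q_succ`: `GI_back_unique` with `j - p`. `diff_Lam`: `W0⁻¹` is holomorphic (`differentiableAt_lift`).
`pr_Lam`: `pr m (H m w + m) = W0 (-1 - m p) (G m (H m w)) = W0 (-1 - m p) w = z`.
`Lam_pr`: for large `m`, `w - m ∈ HP (-1) (S1 + 1)`, so `G m (w - m) ∈ HP (-1) S1`, `pr m w = W0 (..) (G m (w - m)) ∈ P m` and `Lam m (pr m w) = m + H m (G m (w - m)) = w`.
`pr_lim` (`GI2_pr_lim`): `pr m w = W0 .. (G m (w - m))` and `‖G m (w - m)‖ ≥ ‖w - m‖ - 1/8 → ∞`, field `small0`.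
`not_int` (`GI2_not_int`): `pr 0` is not constant: it is injective on `{ω | ω ∈ HP (-1) (S+5)}` (`pr 0 = W0 (-1) ∘ G 0` there); so it is unbounded (Liouville:
`Differentiable.apply_eq_apply_of_bounded`) and there is `w` with `2 < ‖pr 0 w‖`, `pr 0 w ∉ K`; `f^m (pr m w) = pr 0 w`, so `pr m w ∉ K` (`iter_mem_K`), and `pr m w → 0`.
`absorb`: `GI_absorb`; the index `j` satisfies `q ∣ j + 1 + m p` or not; in the first case `W0 j = W0 (-1 - m p)` by `GH_per`, `z m ∈ P m`; otherwise `z m ∈ Q m`.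
-/

set_option autoImplicit false

open Set Filter Topology Metric

namespace Pool.Agent.CR

variable {p q s e : ℕ}

private theorem GI3_norm_mu (x : ℝ) : ‖mu x‖ = 1 := by
  have h : (2 * (Real.pi : ℂ) * (x : ℂ) * Complex.I) = ((2 * Real.pi * x : ℝ) : ℂ) * Complex.I := by
    push_cast
    ring
  unfold mu
  rw [h, Complex.norm_exp_ofReal_mul_I]

private theorem GI3_mono {A B : ℝ} (hAB : A ≤ B) : HP (-1) B ⊆ HP (-1) A := by
  intro w hw
  simp only [HP, mem_ofPred_eq] at hw ⊢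
  linarith

private theorem GI3_Wd0 {R S : ℝ} (hR : 0 ≤ R) (hS : 5 * R ≤ S) {w : ℂ} (hw : w ∈ HP (-1) S) :
    w ∈ Wd0 R := by
  simp only [HP, mem_ofPred_eq] at hw
  have h1 := Complex.abs_re_le_norm w
  have h2 := Complex.abs_im_le_norm w
  have h3 := abs_le.1 h1
  have h4 := abs_le.1 h2
  refine ⟨by nlinarith [h3.1, h4.2], ?_⟩
  by_contra h
  rw [not_lt] at h
  have h5 := neg_abs_le w.re
  have h6 := abs_nonneg w.re
  linarith

private theorem GI3_abs : |(-1 : ℝ)| ≤ 1 := by norm_num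

theorem exists_repData {c : Chart p q s e} (F : Fat c) (hq : 0 < q) :
    ∃ R : RepData (mu ((p : ℝ) / q)), R.pr = F.pr := by
  have hR4 := c.R_ge
  have hr0 := F.r0_ge
  obtain ⟨S2, hS2⟩ := GI_back_unique c hq
  set S : ℝ := 5 * F.r0 with hS
  set S1 : ℝ := max (S + 30) S2 with hS1
  have hS1a : S + 30 ≤ S1 := le_max_left _ _
  have hS1b : S2 ≤ S1 := le_max_right _ _
  have hsub : ∀ w ∈ HP (-1) S1, w ∈ Wd0 c.R := fun w hw =>
    GI3_Wd0 (by linarith) (by linarith) hw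
  have hW0inj : ∀ j : ℤ, InjOn (c.W0 j) (HP (-1) S1) := by
    intro j w hw w' hw' heq
    exact (c.inj0 j j w (hsub w hw) w' (hsub w' hw') heq).1
  have hW0diff : ∀ j : ℤ, DifferentiableOn ℂ (c.W0 j) (HP (-1) S1) := fun j => (c.diff0 j).mono hsub
  have hG := fun m : ℕ => GI_G F m (le_refl S)
  choose G hGd hG using hG
  have hH := fun m : ℕ => near_id_inv GI3_abs (hGd m) (fun w hw => (hG m w hw).2.2)
  have hGinj := fun m : ℕ => (hH m).1
  have hH2 := fun m : ℕ => (hH m).2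
  choose H hHd hHa hHb using hH2
  set g : ℕ → ℂ → ℂ := fun m => Function.invFunOn (c.W0 (-1 - m * p)) (HP (-1) S1) with hg
  have hgl : ∀ m : ℕ, ∀ w ∈ HP (-1) S1, g m (c.W0 (-1 - m * p) w) = w := fun m w hw =>
    (hW0inj (-1 - m * p)).leftInvOn_invFunOn hw
  set P : ℕ → Set ℂ := fun m => c.W0 (-1 - m * p) '' HP (-1) S1 with hP
  set Q : ℕ → Set ℂ := fun m => ⋃ j ∈ {j : ℤ | ¬ (q : ℤ) ∣ j + 1 + m * p}, c.W0 j '' HP (-1) S1 with hQ
  set Lam : ℕ → ℂ → ℂ := fun m z => m + H m (g m z) with hLam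
  have hLamW : ∀ m : ℕ, ∀ w ∈ HP (-1) S1, Lam m (c.W0 (-1 - m * p) w) = m + H m w := by
    intro m w hw
    simp only [hLam]
    rw [hgl m w hw]
  have hopP : ∀ m, IsOpen (P m) := fun m =>
    isOpen_image_of_injOn (isOpen_HP _ _) (hW0diff _) (hW0inj _)
  have hprH : ∀ m : ℕ, ∀ w ∈ HP (-1) S1, F.pr m (m + H m w) = c.W0 (-1 - m * p) w := by
    intro m w hw
    have h1 := hHa m w (GI3_mono (by linarith) hw)
    have h2 := hG m (H m w) (GI3_mono (by linarith) h1.1)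
    rw [add_comm, h2.2.1, h1.2.1]
  refine ⟨{ pr := F.pr, r0 := 1 / 4, P := P, Q := Q, Lam := Lam, hl := GI3_norm_mu _,
            r0_pos := by norm_num, pr_f := F.pr_f, pr_lim := GI2_pr_lim F hq,
            not_int := GI2_not_int F hq, isOpen_P := hopP, isOpen_Q := ?_, disj := ?_,
            P_succ := ?_, Q_succ := ?_, diff_Lam := ?_, pr_Lam := ?_, Lam_pr := ?_,
            absorb := ?_ }, rfl⟩
  · intro m
    apply isOpen_biUnion
    intro j _
    exact isOpen_image_of_injOn (isOpen_HP _ _) (hW0diff _) (hW0inj _)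
  · intro m z hz hz2
    obtain ⟨w, hw, rfl⟩ := hz
    rw [hQ, mem_iUnion₂] at hz2
    obtain ⟨j, hj, w', hw', heq⟩ := hz2
    obtain ⟨k, hk⟩ := (c.inj0 j (-1 - m * p) w' (hsub w' hw') w (hsub w hw) heq).2
    apply hj
    refine ⟨-k, ?_⟩
    linear_combination -hk
  · intro m z hz hfz
    obtain ⟨w, hw, hfw⟩ := hfz
    have hidx : (-1 - ((m + 1 : ℕ) : ℤ) * p + p : ℤ) = -1 - m * p := by
      push_cast
      ring
    obtain ⟨w', hw', hd, hzw⟩ := hS2 S1 hS1b (-1 - ((m + 1 : ℕ) : ℤ) * p) w z hw hz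
      (by rw [hidx]; exact hfw.symm)
    refine ⟨⟨w', hw', hzw.symm⟩, ?_⟩
    rw [← hfw, hLamW m w hw, hzw, hLamW (m + 1) w' hw']
    have h1 := hHa (m + 1) w' (GI3_mono (by linarith) hw')
    have h2 := hHa m w (GI3_mono (by linarith) hw)
    set x : ℂ := 1 + H (m + 1) w' with hx
    have hxw : ‖x - w‖ ≤ 1 := by
      have h3 : x - w = (H (m + 1) w' - w') + (w' - (w - 1)) := by
        rw [hx]
        ring
      rw [h3]
      refine (norm_add_le _ _).trans ?_
      have h4 := h1.2.2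
      linarith
    have hxS : x ∈ HP (-1) (S + 5) := HP_shift GI3_abs hxw (GI3_mono (by linarith) hw)
    have hyS : H m w ∈ HP (-1) (S + 5) := GI3_mono (by linarith) h2.1
    have hxG := hG m x (GI3_mono (by linarith) hxS)
    have hyG := hG m (H m w) (GI3_mono (by linarith) hyS)
    have e1 : F.pr m (x + m) = c.W0 (-1 - m * p) w := by
      have e2 : x + m = ((m + 1 : ℕ) : ℂ) + H (m + 1) w' := by
        rw [hx]
        push_cast
        ring
      rw [e2, ← F.pr_f m, hprH (m + 1) w' hw', ← hzw, hfw]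
    have e3 : c.W0 (-1 - m * p) (G m x) = c.W0 (-1 - m * p) (G m (H m w)) := by
      rw [← hxG.2.1, e1, h2.2.1]
    have e4 := (c.inj0 _ _ _ hxG.1 _ hyG.1 e3).1
    have e5 := hGinj m hxS hyS e4
    push_cast
    linear_combination e5
  · intro m z hz hfz
    rw [hQ, mem_iUnion₂] at hfz
    obtain ⟨j, hj, w, hw, hfw⟩ := hfz
    have hidx : (j - p + p : ℤ) = j := by ring
    obtain ⟨w', hw', hd, hzw⟩ := hS2 S1 hS1b (j - p) w z hw hz (by rw [hidx]; exact hfw.symm)
    rw [hQ, mem_iUnion₂]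
    refine ⟨j - p, ?_, w', hw', hzw.symm⟩
    rw [mem_ofPred_eq] at hj ⊢
    have : (j - p + 1 + ((m + 1 : ℕ) : ℤ) * p : ℤ) = j + 1 + m * p := by
      push_cast
      ring
    rw [this]
    exact hj
  · intro m z hz
    have hz' := hz
    obtain ⟨w, hw, hwz⟩ := hz'
    have hev : ∀ᶠ z' in 𝓝 z, g m z' ∈ HP (-1) S1 ∧ c.W0 (-1 - m * p) (g m z') = id z' := by
      filter_upwards [(hopP m).mem_nhds hz] with z' hz'
      obtain ⟨w', hw', rfl⟩ := hz'
      rw [hgl m w' hw']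
      exact ⟨hw', rfl⟩
    have h1 : DifferentiableAt ℂ (g m) z :=
      differentiableAt_lift (isOpen_HP _ _) (hW0diff _) (hW0inj _) differentiableAt_id hev
    have hgz : g m z ∈ HP (-1) S1 := by
      rw [← hwz, hgl m w hw]
      exact hw
    have h2 : DifferentiableAt ℂ (H m) (g m z) :=
      (hHd m).differentiableAt ((isOpen_HP _ _).mem_nhds (GI3_mono (by linarith) hgz))
    have h3 : DifferentiableAt ℂ (fun z => (m : ℂ) + H m (g m z)) z :=
      (DifferentiableAt.comp (g := H m) z h2 h1).const_add _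
    exact h3.differentiableWithinAt
  · intro m z hz
    obtain ⟨w, hw, rfl⟩ := hz
    rw [hLamW m w hw]
    exact hprH m w hw
  · intro w
    have hlarge : ∀ᶠ m : ℕ in atTop, w - m ∈ HP (-1) (S1 + 5) := by
      obtain ⟨m0, hm0⟩ := exists_nat_gt (S1 + 5 + w.re - 4 * w.im)
      filter_upwards [eventually_ge_atTop m0] with m hm
      simp only [HP, mem_ofPred_eq, Complex.sub_re, Complex.sub_im, Complex.natCast_re,
        Complex.natCast_im]
      have : (m0 : ℝ) ≤ m := by exact_mod_cast hm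
      linarith
    filter_upwards [hlarge] with m hm
    have h1 := hG m (w - m) (GI3_mono (by linarith) hm)
    have h2 : G m (w - m) ∈ HP (-1) S1 :=
      HP_shift GI3_abs (h1.2.2.trans (by norm_num : (1 / 8 : ℝ) ≤ 1)) (GI3_mono (by linarith) hm)
    have h3 : F.pr m w = c.W0 (-1 - m * p) (G m (w - m)) := by
      rw [← h1.2.1, sub_add_cancel]
    refine ⟨⟨G m (w - m), h2, h3.symm⟩, ?_⟩
    rw [h3, hLamW m _ h2, hHb m (w - m) (GI3_mono (by linarith) hm)]
    ring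
  · intro z m0 hz hlim
    have h1 := GI_absorb c S1 z m0 (fun m hm => (hz m hm).2) hlim
    obtain ⟨m, hm, hm0⟩ := (h1.and (eventually_ge_atTop m0)).exists
    obtain ⟨j, w, hw, _, hzw⟩ := hm
    refine ⟨m, hm0, ?_⟩
    by_cases hj : (q : ℤ) ∣ j + 1 + m * p
    · left
      obtain ⟨k, hk⟩ := hj
      refine ⟨w, hw, ?_⟩
      have h2 : j = -1 - m * p + k * q := by linear_combination hk
      rw [hzw, h2, GH_per]
    · right
      rw [hQ, mem_iUnion₂]
      exact ⟨j, hj, w, hw, hzw.symm⟩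

end Pool.Agent.CR
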