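import Pool.Agent.H33.CR.GI2
import Pool.Agent.H33.CR.GH2
import Pool.Agent.H48.CR.Low

/-!
# CR GJ: the horn map

`H.q = q`, `H.D = {w | pr 0 w ∈ B}`, `H.E w = phi (pr 0 w)`, `H.v = A.sv` (`exists_attData`, `exists_repData`), `H.M` large.
`mem_add`, `map_add`: `pr 0 w = pr (0 + q) (w + q)` (`pr_add`), `pr 0 (w + q) = f^q (pr q (w + q)) = f^q (pr 0 w)` (`GI2_pr_iter`); `GH_mem_B`, `GH_phi_f` with `d = q`.
`GJ_top`: `M` with `M - 1 ≥ r0`; for `Im w > M' ≥ M` (so `w - 0 ∈ Rr M'`): `pr 0 w = W0 (-1) w'`, `‖w' - w‖ ≤ C M'^(-1/q) ≤ 1/8` (`pr_W0`, `m = 0`); `w' ∈ Ra (M' - 1)`; `mem_B` with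
`m = 0`: `pr 0 w ∈ B`, `‖phi (pr 0 w) - w'‖ ≤ C (M'-1)^(-1/q)`. So `‖E w - w‖ ≤ 2 C (M'-1)^(-1/q) → 0`.
`GJ_bot`: let `w ∈ D`, `Im w < -M`. For large `n`, `w - q n ∈ D` (`mem_add`) and `w - q n ∈ Rr r0` (real part very negative); `pr 0 (w - q n) = W0 (-1) w'`, `‖w' - (w - q n)‖ ≤ 1/8`, so `Re w' < 0`,
`Im w' < -M + 1`, `w' ∈ Wd0`. `low0` with `S = c.S0`-like constant (`S ≥ 5 (M0 + 1)`) and `j = -1`: `z = pr 0 (w - q n)`, `f^n' z = W0 (-2 + n' p) w''`, `w'' ∈ HP 1 S ⊆ Ea (1/4) (S/5)`; by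
`Chart.orb_sum` and `orb_mem`: `f^(n'+k) z = W0 (-2 + (n' + k) p) w_k`, `w_k ∈ Wd0`, for all `k`. But `z ∈ B` gives (`GH_rep`) for large `m`: `f^m z = W0 (-1 + m p) w3`, `w3 ∈ Wd0`; `inj0` with
`m = n' + k`: `q ∣ 1`, a contradiction with `2 ≤ q`.
`lift`: `horn_lift`.
-/

set_option autoImplicit false

open Set Filter Topology Metric

namespace Pool.Agent.CR

variable {p q s e : ℕ}

private theorem GJ_pr (c : Chart p q s e) (F : Fat c) (w : ℂ) :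
    F.pr 0 (w + q) = (f (mu ((p : ℝ) / q)))^[q] (F.pr 0 w) := by
  have h1 := F.pr_add 0 w
  rw [zero_add] at h1
  rw [← h1, GI2_pr_iter]

theorem GJ_add {c : Chart p q s e} (F : Fat c) (hq : 0 < q) (hc : Nat.Coprime p q) (w : ℂ) :
    (F.pr 0 (w + q) ∈ F.B ↔ F.pr 0 w ∈ F.B) ∧
      (F.pr 0 w ∈ F.B → F.phi (F.pr 0 (w + q)) = F.phi (F.pr 0 w) + q) := by
  have h1 := GJ_pr c F w
  refine ⟨by rw [h1]; exact GH_mem_B F hq _, ?_⟩
  intro hz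
  rw [h1]
  exact (GH_phi_f F hq hc hz ((GH_mem_B F hq _).mpr hz)).2

private theorem GJ_rate0 {c : Chart p q s e} (F : Fat c) (hq : 0 < q) {r : ℝ} (hr : F.r0 ≤ r) :
    F.C * r ^ (-(1 / (q : ℝ))) ≤ 1 / 8 := by
  have h0 : 0 < F.r0 := by
    have := F.r0_ge
    have := c.R_ge
    linarith
  refine le_trans ?_ F.C_small
  apply mul_le_mul_of_nonneg_left _ F.C_pos.le
  apply Real.rpow_le_rpow_of_nonpos h0 hr
  have : (0 : ℝ) < q := by exact_mod_cast hq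
  have : 0 < 1 / (q : ℝ) := by positivity
  linarith

private theorem GJ_top_aux {c : Chart p q s e} (F : Fat c) (hq : 0 < q) (ε : ℝ) (hε : 0 < ε) :
    ∃ M : ℝ, ∀ w : ℂ, M < w.im → F.pr 0 w ∈ F.B ∧ ‖F.phi (F.pr 0 w) - w‖ ≤ ε := by
  have h1 := (GH_rate F hq).eventually (ge_mem_nhds (half_pos hε))
  obtain ⟨r1, hr1⟩ := eventually_atTop.1 h1
  refine ⟨max (r1 + 1) (F.r0 + 1), ?_⟩
  intro w hw
  set M : ℝ := max (r1 + 1) (F.r0 + 1) with hM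
  have hM1 : r1 + 1 ≤ M := le_max_left _ _
  have hM2 : F.r0 + 1 ≤ M := le_max_right _ _
  have hRr : w - ((0 : ℕ) : ℂ) ∈ Rr M := by
    right
    rw [Nat.cast_zero, sub_zero]
    exact hw
  obtain ⟨w', hw', hpr, hd⟩ := F.pr_W0 0 w M (by linarith) hRr
  rw [Nat.cast_zero, sub_zero] at hd
  have hd8 : ‖w' - w‖ ≤ 1 / 8 := hd.trans (GJ_rate0 F hq (by linarith))
  have hRa : w' ∈ Ra (M - 1) := by
    right
    have h2 := (abs_le.1 ((Complex.abs_im_le_norm (w' - w)).trans hd8)).1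
    rw [Complex.sub_im] at h2
    linarith
  have hidx : (-1 - ((0 : ℕ) : ℤ) * p : ℤ) = -1 + ((0 : ℕ) : ℤ) * p := by simp
  have h3 := F.mem_B (F.pr 0 w) 0 w' (M - 1) (by linarith) hRa (by
    rw [Function.iterate_zero, id_eq, hpr, hidx])
  refine ⟨h3.1, ?_⟩
  have h4 := h3.2
  rw [Nat.cast_zero, sub_zero] at h4
  have h5 : F.phi (F.pr 0 w) - w = (F.phi (F.pr 0 w) - w') + (w' - w) := by ring
  rw [h5]
  refine (norm_add_le _ _).trans ?_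
  have h6 : F.C * (M - 1) ^ (-(1 / (q : ℝ))) ≤ ε / 2 := hr1 (M - 1) (by linarith)
  have h7 : F.C * M ^ (-(1 / (q : ℝ))) ≤ ε / 2 := hr1 M (by linarith)
  linarith

theorem GJ_top {c : Chart p q s e} (F : Fat c) (hq : 0 < q) : (∃ M : ℝ, ∀ w : ℂ, M < w.im → F.pr 0 w ∈ F.B) ∧
    ∀ ε : ℝ, 0 < ε → ∃ M' : ℝ, ∀ w : ℂ, M' < w.im → ‖F.phi (F.pr 0 w) - w‖ ≤ ε := by
  refine ⟨?_, ?_⟩
  · obtain ⟨M, hM⟩ := GJ_top_aux F hq 1 one_pos
    exact ⟨M, fun w hw => (hM w hw).1⟩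
  · intro ε hε
    obtain ⟨M, hM⟩ := GJ_top_aux F hq ε hε
    exact ⟨M, fun w hw => (hM w hw).2⟩

private theorem GJ_sub {c : Chart p q s e} (F : Fat c) (hq : 0 < q) (hc : Nat.Coprime p q) (w : ℂ)
    (hw : F.pr 0 w ∈ F.B) (n : ℕ) : F.pr 0 (w - (q * n : ℕ)) ∈ F.B := by
  induction n with
  | zero => simpa using hw
  | succ n ih =>
    have h1 := (GJ_add F hq hc (w - (q * (n + 1) : ℕ))).1
    have h2 : w - ((q * (n + 1) : ℕ) : ℂ) + q = w - ((q * n : ℕ) : ℂ) := by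
      push_cast
      ring
    rw [h2] at h1
    exact h1.mp ih

theorem GJ_bot {c : Chart p q s e} (F : Fat c) (hp : 0 < p) (hpq : p < q) (hs : q * s = p * e + 1) (hq2 : 2 ≤ q)
    (hc : Nat.Coprime p q) : ∃ M : ℝ, ∀ w : ℂ, F.pr 0 w ∈ F.B → -M ≤ w.im := by
  have hq : 0 < q := by omega
  have hR4 := c.R_ge
  have hr0 := F.r0_ge
  have hM0 := c.M0_ge hq
  obtain ⟨M1, hM1⟩ := low0 hp hpq hs c (5 * (c.M0 hq + 1))
  refine ⟨M1 + 1, ?_⟩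
  intro w hwB
  by_contra hlt
  rw [not_le] at hlt
  -- go to the left
  obtain ⟨n, hn⟩ := exists_nat_gt (F.r0 + w.re - 4 * w.im + |w.re| + |w.im| * 4)
  have hqn : (n : ℝ) ≤ ((q * n : ℕ) : ℝ) := by
    have : n ≤ q * n := Nat.le_mul_of_pos_left n hq
    exact_mod_cast this
  set w1 : ℂ := w - ((q * n : ℕ) : ℂ) with hw1
  have hw1re : w1.re = w.re - ((q * n : ℕ) : ℝ) := by
    rw [hw1, Complex.sub_re, Complex.natCast_re]
  have hw1im : w1.im = w.im := by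
    rw [hw1, Complex.sub_im, Complex.natCast_im, sub_zero]
  have hB1 : F.pr 0 w1 ∈ F.B := GJ_sub F hq hc w hwB n
  have ha1 := neg_abs_le w.re
  have ha2 := neg_abs_le w.im
  have ha3 := le_abs_self w.im
  have ha4 := abs_nonneg w.re
  have ha5 := abs_nonneg w.im
  have hRr : w1 - ((0 : ℕ) : ℂ) ∈ Rr F.r0 := by
    left
    rw [Nat.cast_zero, sub_zero, hw1re, hw1im]
    constructor
    · linarith
    · linarith
  obtain ⟨w', hw', hpr, hd⟩ := F.pr_W0 0 w1 F.r0 (le_refl _) hRr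
  rw [Nat.cast_zero, sub_zero] at hd
  have hd8 : ‖w' - w1‖ ≤ 1 / 8 := hd.trans F.C_small
  have hre : w'.re < 0 := by
    have h2 := (abs_le.1 ((Complex.abs_re_le_norm (w' - w1)).trans hd8)).2
    rw [Complex.sub_re, hw1re] at h2
    linarith
  have him : w'.im < -M1 := by
    have h2 := (abs_le.1 ((Complex.abs_im_le_norm (w' - w1)).trans hd8)).2
    rw [Complex.sub_im, hw1im] at h2
    linarith
  obtain ⟨n', w2, hw2, hw2S, hw2f⟩ := hM1 (-1) w' hw' hre him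
  have hHP : w2 ∈ HP 1 (5 * (c.M0 hq + 1)) := by
    simp only [HP, mem_ofPred_eq, one_mul]
    exact hw2S
  have hEa := HP_sub_Ea (by linarith) hHP
  have hWq : ∀ k : ℕ, w2 + k ∈ Wq (2 / 5) (c.M0 hq) := fun k =>
    Wq_mono (by norm_num) (by linarith) (hEa k)
  obtain ⟨m, hm, hm2⟩ := ((GH_rep F hq hB1 F.r0 (le_refl _)).and (eventually_ge_atTop n')).exists
  obtain ⟨w3, _, _, hw3, _, hw3f, _⟩ := hm
  obtain ⟨k, rfl⟩ := Nat.exists_eq_add_of_le hm2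
  have hidx0 : (-1 - ((0 : ℕ) : ℤ) * p : ℤ) = -1 := by simp
  rw [hidx0] at hpr
  have h5 := (c.orb_sum hq (c.M0 hq) (le_refl _) (-1 - 1 + n' * p) w2 k (fun i _ => hWq i) k (le_refl _)).2
  have h6 := (c.orb_mem hq (le_refl _) (-1 - 1 + n' * p) w2 k (fun i _ => hWq i) k (le_refl _)).2.1
  rw [add_comm n' k, Function.iterate_add_apply, hpr, hw2f, h5] at hw3f
  obtain ⟨k', hk'⟩ := (c.inj0 _ _ _ h6 _ hw3 hw3f).2
  have h7 : (1 : ℤ) = k' * q := by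
    push_cast at hk'
    linear_combination hk'
  have h8 : (q : ℤ) ∣ 1 := ⟨k', by rw [h7]; ring⟩
  have h9 := Int.le_of_dvd one_pos h8
  have : (2 : ℤ) ≤ q := by exact_mod_cast hq2
  linarith

end Pool.Agent.CR
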