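import Pool.Agent.H33.CR.GJ
import Pool.Agent.H33.CR.GI3

/-!
# CR GJ2: the horn map

`H.q = q`, `H.D = {w | pr 0 w ∈ B}`, `H.E w = phi (pr 0 w)`, `H.v = A.sv` (`exists_attData`, `exists_repData`), `H.M` large.
`mem_add`, `map_add`: `pr 0 w = pr (0 + q) (w + q)` (`pr_add`), `pr 0 (w + q) = f^q (pr q (w + q)) = f^q (pr 0 w)` (`GI2_pr_iter`); `GH_mem_B`, `GH_phi_f` with `d = q`.
`GJ_top`: `M` with `M - 1 ≥ r0`; for `Im w > M' ≥ M` (so `w - 0 ∈ Rr M'`): `pr 0 w = W0 (-1) w'`, `‖w' - w‖ ≤ C M'^(-1/q) ≤ 1/8` (`pr_W0`, `m = 0`); `w' ∈ Ra (M' - 1)`; `mem_B` with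
`m = 0`: `pr 0 w ∈ B`, `‖phi (pr 0 w) - w'‖ ≤ C (M'-1)^(-1/q)`. So `‖E w - w‖ ≤ 2 C (M'-1)^(-1/q) → 0`.
`GJ_bot`: let `w ∈ D`, `Im w < -M`. For large `n`, `w - q n ∈ D` (`mem_add`) and `w - q n ∈ Rr r0` (real part very negative); `pr 0 (w - q n) = W0 (-1) w'`, `‖w' - (w - q n)‖ ≤ 1/8`, so `Re w' < 0`,
`Im w' < -M + 1`, `w' ∈ Wd0`. `low0` with `S = c.S0`-like constant (`S ≥ 5 (M0 + 1)`) and `j = -1`: `z = pr 0 (w - q n)`, `f^n' z = W0 (-2 + n' p) w''`, `w'' ∈ HP 1 S ⊆ Ea (1/4) (S/5)`; by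
`Chart.orb_sum` and `orb_mem`: `f^(n'+k) z = W0 (-2 + (n' + k) p) w_k`, `w_k ∈ Wd0`, for all `k`. But `z ∈ B` gives (`GH_rep`) for large `m`: `f^m z = W0 (-1 + m p) w3`, `w3 ∈ Wd0`; `inj0` with
`m = n' + k`: `q ∣ 1`, a contradiction with `2 ≤ q`.
`lift`: `horn_lift`.
-/

set_option autoImplicit false

open Set Filter Topology Metric

namespace Pool.Agent.CR

variable {p q s e : ℕ}

theorem exists_horn {c : Chart p q s e} (F : Fat c) (hp : 0 < p) (hpq : p < q) (hs : q * s = p * e + 1) :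
    ∃ H : Horn, H.q = q ∧ (∀ w, w ∈ H.D ↔ F.pr 0 w ∈ F.B) ∧ ∀ w ∈ H.D, H.E w = F.phi (F.pr 0 w) := by
  have hq : 0 < q := by omega
  have hc : Nat.Coprime p q := by
    rw [Nat.coprime_iff_gcd_eq_one, ← Nat.dvd_one]
    have h1 : Nat.gcd p q ∣ q * s := Dvd.dvd.mul_right (Nat.gcd_dvd_right p q) s
    have h2 : Nat.gcd p q ∣ p * e := Dvd.dvd.mul_right (Nat.gcd_dvd_left p q) e
    rw [hs] at h1
    exact (Nat.dvd_add_right h2).1 h1
  obtain ⟨A, hAB, hAphi⟩ := exists_attData F hq hc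
  obtain ⟨R, hR⟩ := exists_repData F hq
  obtain ⟨⟨M1, hM1⟩, htop⟩ := GJ_top F hq
  obtain ⟨M2, hM2⟩ := GJ_bot F hp hpq hs (by omega) hc
  have hpr : Differentiable ℂ (F.pr 0) := F.diff_pr 0
  refine ⟨{
    q := q
    D := {w | F.pr 0 w ∈ F.B}
    E := fun w => F.phi (F.pr 0 w)
    v := A.sv
    M := max M1 M2
    q_pos := by exact_mod_cast hq
    isOpen := F.isOpen_B.preimage hpr.continuous
    diff := ?_
    mem_add := ?_
    map_add := ?_
    top := ?_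
    top_lim := htop
    bot := ?_
    lift := ?_ }, rfl, fun w => Iff.rfl, fun w _ => rfl⟩
  · exact F.diff_phi.comp hpr.differentiableOn fun w hw => hw
  · intro w
    have := (GJ_add F hq hc w).1
    simpa using this
  · intro w hw
    have := (GJ_add F hq hc w).2 hw
    simpa using this
  · intro w hw
    exact hM1 w ((le_max_left M1 M2).trans_lt hw)
  · intro w hw
    have := hM2 w hw
    have h2 := le_max_right M1 M2
    linarith
  · intro Ω β ho hcv hβ hsv x0 hx0 η0 hη0 h0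
    have key := horn_lift R A Ω β ho hcv hβ (fun x hx k => by simpa using hsv x hx k) x0 hx0 η0
      (by rw [hR, hAB]; exact hη0) (by rw [hR, hAphi]; exact h0)
    obtain ⟨η, h1, h2, h3⟩ := key
    refine ⟨η, h1, fun x hx => ?_, h3⟩
    have h4 := h2 x hx
    rw [hR, hAB, hAphi] at h4
    exact h4

end Pool.Agent.CR
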