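import Pool.Agent.H73.CR.KA

/-!
# CR Inj: injective holomorphic functions have a nonvanishing derivative and holomorphic inverses

(The proof of `deriv_ne_of_injOn` is the one of module KB.)
-/

set_option autoImplicit false

open Set Metric

namespace Pool.Agent.CR

open Topology Filter in
theorem deriv_ne_of_injOn {h : ℂ → ℂ} {s : Set ℂ} (hs : IsOpen s) (hd : DifferentiableOn ℂ h s)
    (hi : InjOn h s) {x : ℂ} (hx : x ∈ s) : deriv h x ≠ 0 := by
  intro h0
  have hns : s ∈ 𝓝 x := hs.mem_nhds hx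
  have han : AnalyticAt ℂ h x := hd.analyticAt hns
  have hF : AnalyticAt ℂ (fun z => h z - h x) x := han.sub analyticAt_const
  have hne : ¬ ∀ᶠ z in 𝓝 x, h z - h x = 0 := by
    intro hev
    have h1 : ∀ᶠ z in 𝓝[≠] x, z ∈ s ∧ h z - h x = 0 :=
      (Filter.Eventually.and (show ∀ᶠ z in 𝓝 x, z ∈ s from hns) hev).filter_mono nhdsWithin_le_nhds
    obtain ⟨z, ⟨hz1, hz2⟩, hz3⟩ := (h1.and self_mem_nhdsWithin).exists
    exact hz3 (hi hz1 hx (sub_eq_zero.1 hz2))
  obtain ⟨n, g, hg, hg0, hev⟩ := (hF.exists_eventuallyEq_pow_smul_nonzero_iff).2 hne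
  have hn0 : n ≠ 0 := by
    rintro rfl
    have h1 := hev.self_of_nhds
    simp at h1
    exact hg0 h1.symm
  have hn1 : n ≠ 1 := by
    rintro rfl
    have hev' : (fun z => h z - h x) =ᶠ[𝓝 x] (fun z => (z - x) ^ 1 • g z) := hev
    have h1 : deriv (fun z => h z - h x) x = deriv (fun z => (z - x) ^ 1 • g z) x := hev'.deriv_eq
    rw [deriv_sub_const, h0] at h1
    have h2 : HasDerivAt (fun z => (z - x) ^ 1 • g z) (1 * g x + (x - x) * deriv g x) x := by
      have h3 : HasDerivAt (fun z : ℂ => z - x) 1 x := (hasDerivAt_id x).sub_const x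
      have h4 := h3.fun_mul hg.differentiableAt.hasDerivAt
      simpa only [pow_one, smul_eq_mul] using h4
    rw [h2.deriv] at h1
    simp at h1
    exact hg0 h1.symm
  have hn2 : 2 ≤ n := by omega
  -- a ball on which everything holds
  have hev2 : ∀ᶠ z in 𝓝 x, z ∈ s ∧ AnalyticAt ℂ g z ∧ g z ≠ 0 ∧ h z - h x = (z - x) ^ n • g z := by
    filter_upwards [hns, hg.eventually_analyticAt, hg.continuousAt.eventually_ne hg0, hev] with z h1 h2 h3 h4
    exact ⟨h1, h2, h3, h4⟩
  obtain ⟨ρ, hρ, hball⟩ := Metric.eventually_nhds_iff_ball.1 hev2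
  obtain ⟨L, hL, hexp, _⟩ := exists_log isOpen_ball (convex_ball x ρ)
    (fun z hz => (hball z hz).2.1.differentiableAt.differentiableWithinAt)
    (fun z hz => (hball z hz).2.2.1) (mem_ball_self hρ) (s0 := Complex.log (g x)) (Complex.exp_log hg0)
  have hnC : (n : ℂ) ≠ 0 := by exact_mod_cast hn0
  set φ : ℂ → ℂ := fun z => (z - x) * Complex.exp (L z / n) with hφ
  have hφpow : ∀ z ∈ ball x ρ, φ z ^ n = h z - h x := by
    intro z hz
    rw [(hball z hz).2.2.2, hφ]
    simp only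
    rw [mul_pow, ← Complex.exp_nat_mul, mul_div_cancel₀ _ hnC, hexp z hz, smul_eq_mul]
  have hLan : AnalyticAt ℂ L x := hL.analyticAt (ball_mem_nhds x hρ)
  have hE : AnalyticAt ℂ (fun z => Complex.exp (L z / n)) x :=
    (hLan.div analyticAt_const hnC).cexp
  have hφan : AnalyticAt ℂ φ x := (analyticAt_id.sub analyticAt_const).mul hE
  have hφd : HasDerivAt φ (1 * Complex.exp (L x / n) + (x - x) * deriv (fun z => Complex.exp (L z / n)) x) x := by
    have h3 : HasDerivAt (fun z : ℂ => z - x) 1 x := (hasDerivAt_id x).sub_const x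
    exact h3.mul hE.differentiableAt.hasDerivAt
  have hφs : HasStrictDerivAt φ (Complex.exp (L x / n)) x := by
    have h5 := hφan.hasStrictDerivAt
    rw [hφd.deriv] at h5
    simpa using h5
  have hmap := hφs.map_nhds_eq (Complex.exp_ne_zero _)
  have hφx : φ x = 0 := by simp [hφ]
  rw [hφx] at hmap
  have hU : φ '' ball x ρ ∈ 𝓝 (0 : ℂ) := by
    rw [← hmap]
    exact image_mem_map (ball_mem_nhds x hρ)
  set ζ : ℂ := Complex.exp (2 * Real.pi * Complex.I / n) with hζ
  have hprim : IsPrimitiveRoot ζ n := Complex.isPrimitiveRoot_exp n hn0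
  have hV : ∀ᶠ w in 𝓝 (0 : ℂ), ζ * w ∈ φ '' ball x ρ := by
    have hc : Continuous fun w : ℂ => ζ * w := by fun_prop
    have h6 := hc.tendsto 0
    rw [mul_zero] at h6
    exact h6.eventually hU
  have hW : ∀ᶠ w in 𝓝[≠] (0 : ℂ), w ∈ φ '' ball x ρ ∧ ζ * w ∈ φ '' ball x ρ :=
    (Filter.Eventually.and (show ∀ᶠ w in 𝓝 (0 : ℂ), w ∈ φ '' ball x ρ from hU) hV).filter_mono nhdsWithin_le_nhds
  obtain ⟨w, ⟨hw1, hw2⟩, hw3⟩ := (hW.and self_mem_nhdsWithin).exists
  have hw3' : w ≠ 0 := hw3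
  obtain ⟨z1, hz1, e1⟩ := hw1
  obtain ⟨z2, hz2, e2⟩ := hw2
  have e3 : h z1 = h z2 := by
    have h7 := hφpow z1 hz1
    have h8 := hφpow z2 hz2
    rw [e1] at h7
    rw [e2, mul_pow, hprim.pow_eq_one, one_mul] at h8
    have h9 : h z1 - h x = h z2 - h x := by rw [← h7, ← h8]
    exact sub_left_inj.1 h9
  have e4 : z1 = z2 := hi (hball z1 hz1).1 (hball z2 hz2).1 e3
  rw [e4, e2] at e1
  have e5 : (ζ - 1) * w = 0 := by rw [sub_mul, e1, one_mul, sub_self]
  rcases mul_eq_zero.1 e5 with h10 | h10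
  · exact hprim.ne_one (by omega) (sub_eq_zero.1 h10)
  · exact hw3' h10


open Topology Filter in
/-- If `h` is injective and holomorphic on the open set `s`, `ψ` is holomorphic at `w`, and `g` is a function with values in `s` near
`w` and `h (g w') = ψ w'` near `w`, then `g` is holomorphic at `w`. -/
theorem differentiableAt_lift {h ψ g : ℂ → ℂ} {s : Set ℂ} (hs : IsOpen s) (hd : DifferentiableOn ℂ h s)
    (hi : InjOn h s) {w : ℂ} (hψ : DifferentiableAt ℂ ψ w) (hg : ∀ᶠ w' in 𝓝 w, g w' ∈ s ∧ h (g w') = ψ w') :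
    DifferentiableAt ℂ g w := by
  obtain ⟨hgw, hgw'⟩ := hg.self_of_nhds
  have han : AnalyticAt ℂ h (g w) := hd.analyticAt (hs.mem_nhds hgw)
  have hne : deriv h (g w) ≠ 0 := deriv_ne_of_injOn hs hd hi hgw
  have hst : HasStrictDerivAt h (deriv h (g w)) (g w) := han.hasStrictDerivAt
  set L := hst.localInverse h (deriv h (g w)) (g w) hne with hL
  have hLd : HasStrictDerivAt L (deriv h (g w))⁻¹ (h (g w)) := hst.to_localInverse hne
  have h1 : ∀ᶠ y in 𝓝 (h (g w)), h (L y) = y :=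
    (hst.hasStrictFDerivAt_equiv hne).eventually_right_inverse
  have hLg : L (h (g w)) = g w := (hst.hasStrictFDerivAt_equiv hne).localInverse_apply_image
  have h2 : ∀ᶠ y in 𝓝 (h (g w)), L y ∈ s := by
    have := hLd.hasDerivAt.continuousAt
    refine this.eventually ?_
    rw [hLg]
    exact hs.mem_nhds hgw
  rw [hgw'] at h1 h2 hLd
  have hψc := hψ.continuousAt
  have h3 : g =ᶠ[𝓝 w] fun w' => L (ψ w') := by
    filter_upwards [hg, hψc.eventually h1, hψc.eventually h2] with w' ha hb hc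
    exact hi ha.1 hc (ha.2.trans hb.symm)
  exact (hLd.hasDerivAt.differentiableAt.comp w hψ).congr_of_eventuallyEq h3

end Pool.Agent.CR
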