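import Pool.Agent.H33.CR.LE

/-!
# CR LL2: lifting through the repelling Fatou parametrisation, general form

`RepData.unique`: `pr m ∘ η` and `pr m ∘ η'` are lifts of `ζ` by `f^m` which agree at `x0`, so they agree (`inv_unique`); for large `m`, `Lam m (pr m w) = w`.
`RepData.lift_bdd`: as `RepData.lift`, for bounded `ζ` (not nec. with values in `K`): the lifts are bounded by `max 2 C` and avoid a given `p ∉ K` for large `m`, because `f^m p → ∞`.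
`RepData.lift_gen`: exhaustion.
-/

set_option autoImplicit false

open Set Filter Topology Metric

namespace Pool.Agent.CR

private theorem LL2_pr_iter {l : ℂ} (R : RepData l) (w : ℂ) (m : ℕ) : (f l)^[m] (R.pr m w) = R.pr 0 w := by
  induction m with
  | zero => rfl
  | succ k ih => rw [Function.iterate_succ_apply, R.pr_f, ih]

/-- Harnack: functions bounded by `2` which omit small values. -/
theorem LL2_small {ι : Type*} {F : Filter ι} {g : ι → ℂ → ℂ} {x : ℂ} {ρ B : ℝ} (hρ : 0 < ρ) (hB : 0 < B)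
    (hd : ∀ i, DifferentiableOn ℂ (g i) (ball x ρ)) (hb : ∀ i, ∀ z ∈ ball x ρ, ‖g i z‖ ≤ B)
    (hp : ∀ r : ℝ, 0 < r → ∃ p : ℂ, (∀ᶠ i in F, ∀ z ∈ ball x ρ, g i z ≠ p) ∧ ‖p‖ < r)
    (h0 : Tendsto (fun i => g i x) F (𝓝 0)) :
    ∀ ε : ℝ, 0 < ε → ∀ᶠ i in F, ∀ z ∈ ball x (ρ / 2), ‖g i z‖ ≤ ε := by
  intro ε hε
  -- choose δ with δ + A (2δ/A)^{1/3} ≤ ε, A = B + 1
  set A : ℝ := B + 1 with hA
  have hA0 : 0 < A := by positivity
  obtain ⟨δ, hδ, hδ1, hδA, hδε⟩ : ∃ δ : ℝ, 0 < δ ∧ δ ≤ 1 ∧ 2 * δ ≤ A ∧ δ + A * (2 * δ / A) ^ ((1 : ℝ) / 3) ≤ ε := by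
    have hc : Tendsto (fun δ : ℝ => δ + A * (2 * δ / A) ^ ((1 : ℝ) / 3)) (𝓝[>] 0) (𝓝 (0 + A * (2 * 0 / A) ^ ((1 : ℝ) / 3))) := by
      refine Tendsto.mono_left ?_ nhdsWithin_le_nhds
      have h1 : Continuous fun δ : ℝ => δ + A * (2 * δ / A) ^ ((1 : ℝ) / 3) := by
        refine continuous_id.add (continuous_const.mul (Continuous.rpow_const (by fun_prop) ?_))
        intro _; right; norm_num
      exact h1.tendsto 0
    have hz : (0 : ℝ) + A * (2 * 0 / A) ^ ((1 : ℝ) / 3) = 0 := by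
      rw [mul_zero, zero_div, Real.zero_rpow (by norm_num)]; ring
    rw [hz] at hc
    have h2 := (hc.eventually (Iic_mem_nhds hε)).and ((Ioc_mem_nhdsGT (one_pos : (0 : ℝ) < 1) : Ioc (0 : ℝ) 1 ∈ 𝓝[>] (0 : ℝ)))
    have h2' := h2.and ((Ioc_mem_nhdsGT (show (0 : ℝ) < A / 2 by positivity) : Ioc (0 : ℝ) (A / 2) ∈ 𝓝[>] (0 : ℝ)))
    obtain ⟨δ, ⟨h3, h4⟩, h5⟩ := h2'.exists
    exact ⟨δ, h4.1, h4.2, by linarith [h5.2], h3⟩
  obtain ⟨p, hp1, hp2⟩ := hp δ hδ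
  have hev : ∀ᶠ i in F, ‖g i x‖ < δ := by
    have := h0.eventually (ball_mem_nhds (0 : ℂ) hδ)
    simpa using this
  filter_upwards [hev, hp1] with i hi hpi z hz
  -- rescaled function
  set G : ℂ → ℂ := fun u => g i (x + ρ * u) - p with hG
  have hmap : MapsTo (fun u : ℂ => x + ρ * u) (ball 0 1) (ball x ρ) := by
    intro u hu
    rw [mem_ball, dist_zero_right] at hu
    rw [mem_ball, dist_eq_norm, add_sub_cancel_left, norm_mul, Complex.norm_real, Real.norm_eq_abs, abs_of_pos hρ]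
    nlinarith
  have hGd : DifferentiableOn ℂ G (ball 0 1) := by
    refine DifferentiableOn.sub_const ?_ _
    refine (hd i).comp ?_ hmap
    fun_prop
  have hG0 : ∀ u ∈ ball (0 : ℂ) 1, G u ≠ 0 := fun u hu h => hpi _ (hmap hu) (sub_eq_zero.1 h)
  have hGM : ∀ u ∈ ball (0 : ℂ) 1, ‖G u‖ ≤ A := by
    intro u hu
    have h1 := hb i _ (hmap hu)
    have h2 : ‖G u‖ ≤ ‖g i (x + ρ * u)‖ + ‖p‖ := norm_sub_le _ _
    linarith
  set u : ℂ := (z - x) / ρ with hu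
  have hρC : (ρ : ℂ) ≠ 0 := by exact_mod_cast hρ.ne'
  have hxu : x + ρ * u = z := by rw [hu]; field_simp; ring
  have hun : ‖u‖ < 1 / 2 := by
    rw [hu, norm_div, Complex.norm_real, Real.norm_eq_abs, abs_of_pos hρ, div_lt_iff₀ hρ]
    have h1 : dist z x < ρ / 2 := hz
    rw [dist_eq_norm] at h1
    linarith
  have huB : u ∈ ball (0 : ℂ) 1 := by
    rw [mem_ball, dist_zero_right]; linarith
  have hH := (harnack hGd hG0 hGM huB).1
  have hG00 : 0 < ‖G 0‖ := norm_pos_iff.2 (hG0 0 (mem_ball_self one_pos))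
  have hGu0 : 0 < ‖G u‖ := norm_pos_iff.2 (hG0 u huB)
  have hG0le : ‖G 0‖ ≤ 2 * δ := by
    have h1 : ‖G 0‖ ≤ ‖g i x‖ + ‖p‖ := by
      have := norm_sub_le (g i x) p
      simpa [hG] using this
    linarith
  have hlog : Real.log (A / (2 * δ)) ≤ Real.log (A / ‖G 0‖) :=
    Real.log_le_log (by positivity) (div_le_div_of_nonneg_left hA0.le hG00 hG0le)
  have hlog0 : 0 ≤ Real.log (A / (2 * δ)) := by
    refine Real.log_nonneg ?_
    rw [le_div_iff₀ (by positivity)]; linarith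
  have hc : (1 : ℝ) / 3 ≤ (1 - ‖u‖) / (1 + ‖u‖) := by
    rw [div_le_div_iff₀ (by norm_num) (by positivity)]
    linarith
  have h5 : 1 / 3 * Real.log (A / (2 * δ)) ≤ Real.log (A / ‖G u‖) := by
    refine le_trans ?_ hH
    exact mul_le_mul hc hlog hlog0 (le_trans (by norm_num) hc)
  have h6 : ‖G u‖ ≤ A * (2 * δ / A) ^ ((1 : ℝ) / 3) := by
    have h7 : Real.log (A / ‖G u‖) = Real.log A - Real.log ‖G u‖ := Real.log_div hA0.ne' hGu0.ne'
    have h8 : Real.log (A / (2 * δ)) = - Real.log (2 * δ / A) := by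
      rw [← Real.log_inv, inv_div]
    have h9 : Real.log ‖G u‖ ≤ Real.log A + 1 / 3 * Real.log (2 * δ / A) := by
      rw [h7, h8] at h5; linarith
    have h10 : Real.log A + 1 / 3 * Real.log (2 * δ / A) = Real.log (A * (2 * δ / A) ^ ((1 : ℝ) / 3)) := by
      rw [Real.log_mul hA0.ne' (by positivity), Real.log_rpow (by positivity)]
    rw [h10] at h9
    exact (Real.log_le_log_iff hGu0 (by positivity)).1 h9
  have h11 : ‖g i z‖ ≤ ‖G u‖ + ‖p‖ := by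
    have h12 : g i z = G u + p := by simp [hG, hxu]
    rw [h12]; exact norm_add_le _ _
  linarith

/-- Uniqueness of lifts through the repelling Fatou parametrisation. -/
theorem RepData.unique {l : ℂ} (R : RepData l) {X : Type*} [TopologicalSpace X] {Ω : Set X} (hc : IsPreconnected Ω)
    {ζ : X → ℂ} {η η' : X → ℂ} (hv : ∀ x ∈ Ω, ∀ k : ℕ, ζ x ≠ (f l)^[k] (v l)) (hη : ContinuousOn η Ω)
    (hη' : ContinuousOn η' Ω) (hpr : ∀ m, Continuous (R.pr m)) (h1 : ∀ x ∈ Ω, R.pr 0 (η x) = ζ x) (h2 : ∀ x ∈ Ω, R.pr 0 (η' x) = ζ x)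
    {x0 : X} (hx0 : x0 ∈ Ω) (h0 : η x0 = η' x0) : ∀ x ∈ Ω, η x = η' x := by
  intro x hx
  have key : ∀ m : ℕ, R.pr m (η x) = R.pr m (η' x) := by
    intro m
    refine inv_unique l hc (β := ζ) (η := fun x => R.pr m (η x)) (η' := fun x => R.pr m (η' x)) (n := m)
      (fun z hz k _ => hv z hz k) ((hpr m).comp_continuousOn hη) ((hpr m).comp_continuousOn hη') ?_ ?_ hx0 ?_ x hx
    · intro z hz
      show (f l)^[m] (R.pr m (η z)) = ζ z
      rw [LL2_pr_iter, h1 z hz]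
    · intro z hz
      show (f l)^[m] (R.pr m (η' z)) = ζ z
      rw [LL2_pr_iter, h2 z hz]
    · show R.pr m (η x0) = R.pr m (η' x0)
      rw [h0]
  obtain ⟨m, hm1, hm2⟩ := ((R.Lam_pr (η x)).and (R.Lam_pr (η' x))).exists
  rw [← hm1.2, key m, hm2.2]

/-- **Lifting through the repelling Fatou parametrisation.** -/
theorem RepData.lift_bdd {l : ℂ} (R : RepData l) {Ω : Set ℂ} (ho : IsOpen Ω) (hc : Convex ℝ Ω) {ζ : ℂ → ℂ}
    (hζ : DifferentiableOn ℂ ζ Ω) {C : ℝ} (hC : ∀ x ∈ Ω, ‖ζ x‖ ≤ C) (h0 : ∀ x ∈ Ω, ζ x ≠ 0)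
    (hv : ∀ x ∈ Ω, ∀ k : ℕ, ζ x ≠ (f l)^[k] (v l)) {x0 η0 : ℂ} (hx0 : x0 ∈ Ω) (hη0 : R.pr 0 η0 = ζ x0) :
    ∃ η : ℂ → ℂ, DifferentiableOn ℂ η Ω ∧ (∀ x ∈ Ω, R.pr 0 (η x) = ζ x) ∧ η x0 = η0 := by
  classical
  have hl1 : ‖l‖ ≤ 1 := R.hl.le
  have hpc : IsPreconnected Ω := hc.isPreconnected
  have hex : ∀ m : ℕ, ∃ η : ℂ → ℂ, DifferentiableOn ℂ η Ω ∧ (∀ z ∈ Ω, (f l)^[m] (η z) = ζ z) ∧
      η x0 = R.pr m η0 := fun m =>
    exists_inv_iter l ho hc hζ (n := m) (fun z hz k _ => hv z hz k) hx0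
      (by rw [LL2_pr_iter, hη0])
  choose Z hZd hZ hZ0 using hex
  have hZs : ∀ m, ∀ x ∈ Ω, f l (Z (m + 1) x) = Z m x := by
    intro m
    refine inv_unique l hpc (β := ζ) (η := fun x => f l (Z (m + 1) x)) (η' := Z m) (n := m)
      (fun z hz k _ => hv z hz k) ?_ (hZd m).continuousOn ?_ (hZ m) hx0 ?_
    · have hf0 : Continuous (f l) := by unfold f; fun_prop
      exact hf0.comp_continuousOn (hZd (m + 1)).continuousOn
    · intro z hz
      have := hZ (m + 1) z hz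
      rwa [Function.iterate_succ_apply] at this
    · show f l (Z (m + 1) x0) = Z m x0
      rw [hZ0, hZ0, R.pr_f]
  have hgrow : ∀ m (z : ℂ), 2 < ‖z‖ → ‖z‖ ≤ ‖(f l)^[m] z‖ := by
    intro m
    induction m with
    | zero => intro z _; exact le_rfl
    | succ k ih =>
      intro z hz
      have h1 := norm_f_gt hl1 hz
      rw [Function.iterate_succ_apply]
      exact h1.le.trans (ih _ (hz.trans h1))
  have hZ2 : ∀ m, ∀ x ∈ Ω, ‖Z m x‖ ≤ max 2 C := by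
    intro m x hx
    by_contra hcon
    push Not at hcon
    have h1 : 2 < ‖Z m x‖ := (le_max_left _ _).trans_lt hcon
    have h2 := hgrow m _ h1
    rw [hZ m x hx] at h2
    have h3 := (hC x hx).trans (le_max_right 2 C)
    linarith
  have hf00 : ∀ m, (f l)^[m] 0 = 0 := by
    intro m
    induction m with
    | zero => rfl
    | succ k ih => rw [Function.iterate_succ_apply, show f l 0 = 0 by simp [f], ih]
  have hZne : ∀ m, ∀ x ∈ Ω, Z m x ≠ 0 := fun m x hx h => by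
    have := hZ m x hx
    rw [h, hf00] at this
    exact h0 x hx this.symm
  -- uniform smallness near points where Z m x → 0
  have hsm : ∀ x ρ, 0 < ρ → ball x ρ ⊆ Ω → Tendsto (fun m => Z m x) atTop (𝓝 0) →
      ∀ ε : ℝ, 0 < ε → ∀ᶠ m in atTop, ∀ z ∈ ball x (ρ / 2), ‖Z m z‖ ≤ ε := by
    intro x ρ hρ hb hx
    refine LL2_small hρ (lt_of_lt_of_le two_pos (le_max_left 2 C)) (fun m => (hZd m).mono hb) (fun m z hz => hZ2 m z (hb hz)) ?_ hx
    intro r hr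
    obtain ⟨p, hp, hpr⟩ := R.not_int r hr
    refine ⟨p, ?_, hpr⟩
    -- f^m p tends to infinity
    obtain ⟨n, hn⟩ : ∃ n, 2 < ‖(f l)^[n] p‖ := by
      by_contra hcon
      push Not at hcon
      exact hp hcon
    have h1 := tendsto_escape hl1 hn
    have h2 : Tendsto (fun m => ‖(f l)^[m] p‖) atTop atTop := by
      have h3 : ∀ m, (f l)^[m] ((f l)^[n] p) = (f l)^[m + n] p := fun m => by
        rw [Function.iterate_add_apply]
      simp only [h3] at h1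
      exact (tendsto_add_atTop_iff_nat n).1 h1
    filter_upwards [h2.eventually (eventually_gt_atTop C)] with m hm z hz h
    have h4 := hC z (hb hz)
    rw [← hZ m z (hb hz), h] at h4
    linarith
  -- Z m x → 0 on Ω
  have htend : ∀ x ∈ Ω, Tendsto (fun m => Z m x) atTop (𝓝 0) := by
    set A : Set ℂ := {x | Tendsto (fun m => Z m x) atTop (𝓝 0)} with hA
    have hmem : ∀ x ρ, 0 < ρ → ball x ρ ⊆ Ω → x ∈ A → ∀ z ∈ ball x (ρ / 2), z ∈ A := by
      intro x ρ hρ hb hx z hz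
      rw [hA, mem_ofPred_eq, Metric.tendsto_nhds]
      intro ε hε
      filter_upwards [hsm x ρ hρ hb hx (ε / 2) (by positivity)] with m hm
      rw [dist_zero_right]
      exact (hm z hz).trans_lt (by linarith)
    have hAo : IsOpen (Ω ∩ A) := by
      rw [Metric.isOpen_iff]
      rintro x ⟨hx, hxA⟩
      obtain ⟨ρ, hρ, hb⟩ := Metric.isOpen_iff.1 ho x hx
      refine ⟨ρ / 2, by positivity, fun z hz => ⟨hb (ball_subset_ball (by linarith) hz), hmem x ρ hρ hb hxA z hz⟩⟩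
    have hBo : IsOpen (Ω ∩ Aᶜ) := by
      rw [Metric.isOpen_iff]
      rintro x ⟨hx, hxA⟩
      obtain ⟨ρ, hρ, hb⟩ := Metric.isOpen_iff.1 ho x hx
      refine ⟨ρ / 4, by positivity, fun z hz => ⟨hb (ball_subset_ball (by linarith) hz), fun hzA => hxA ?_⟩⟩
      have hzx : dist z x < ρ / 4 := hz
      refine hmem z (3 * ρ / 4) (by positivity) ?_ hzA x ?_
      · intro y hy
        refine hb ?_
        have hy' : dist y z < 3 * ρ / 4 := hy
        have := dist_triangle y z x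
        rw [mem_ball]; linarith
      · rw [mem_ball, dist_comm]; linarith
    intro x hx
    have hx0A : x0 ∈ A := by
      rw [hA, mem_ofPred_eq]
      simp only [hZ0]
      exact R.pr_lim η0
    by_contra hxA
    have := hpc (Ω ∩ A) (Ω ∩ Aᶜ) hAo hBo (fun y hy => by
      by_cases h : y ∈ A
      · exact Or.inl ⟨hy, h⟩
      · exact Or.inr ⟨hy, h⟩) ⟨x0, hx0, hx0, hx0A⟩ ⟨x, hx, hx, hxA⟩
    obtain ⟨y, -, hy1, hy2⟩ := this
    exact hy2.2 hy1.2
  -- locally uniformly in the ball of radius r0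
  have hloc : ∀ x ∈ Ω, ∃ ρ > 0, ∃ m1 : ℕ, ball x ρ ⊆ Ω ∧ ∀ m ≥ m1, ∀ z ∈ ball x ρ, ‖Z m z‖ < R.r0 := by
    intro x hx
    obtain ⟨ρ, hρ, hb⟩ := Metric.isOpen_iff.1 ho x hx
    have h1 := hsm x ρ hρ hb (htend x hx) (R.r0 / 2) (by have := R.r0_pos; positivity)
    obtain ⟨m1, hm1⟩ := eventually_atTop.1 h1
    refine ⟨ρ / 2, by positivity, m1, (ball_subset_ball (by linarith)).trans hb, fun m hm z hz => ?_⟩
    have := R.r0_pos
    exact (hm1 m hm z hz).trans_lt (by linarith)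
  -- persistence
  have hPpers : ∀ x ∈ Ω, ∀ m1, (∀ m ≥ m1, ‖Z m x‖ < R.r0) → Z m1 x ∈ R.P m1 → ∀ m ≥ m1,
      Z m x ∈ R.P m ∧ R.Lam m (Z m x) = R.Lam m1 (Z m1 x) := by
    intro x hx m1 hr h m hm
    induction m, hm using Nat.le_induction with
    | base => exact ⟨h, rfl⟩
    | succ m hm ih =>
      have h1 := R.P_succ m (Z (m + 1) x) (hr (m + 1) (by omega)) (by rw [hZs m x hx]; exact ih.1)
      rw [hZs m x hx] at h1
      exact ⟨h1.1, h1.2.trans ih.2⟩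
  have hQpers : ∀ x ∈ Ω, ∀ m1, (∀ m ≥ m1, ‖Z m x‖ < R.r0) → Z m1 x ∈ R.Q m1 → ∀ m ≥ m1, Z m x ∈ R.Q m := by
    intro x hx m1 hr h m hm
    induction m, hm using Nat.le_induction with
    | base => exact h
    | succ m hm ih =>
      exact R.Q_succ m (Z (m + 1) x) (hr (m + 1) (by omega)) (by rw [hZs m x hx]; exact ih)
  set SP : Set ℂ := {x | ∃ m1, (∀ m ≥ m1, ‖Z m x‖ < R.r0) ∧ Z m1 x ∈ R.P m1} with hSP
  set SQ : Set ℂ := {x | ∃ m1, (∀ m ≥ m1, ‖Z m x‖ < R.r0) ∧ Z m1 x ∈ R.Q m1} with hSQ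
  have hcover : ∀ x ∈ Ω, x ∈ SP ∨ x ∈ SQ := by
    intro x hx
    obtain ⟨ρ, hρ, m1, hb, hm1⟩ := hloc x hx
    obtain ⟨m, hm, hPQ⟩ := R.absorb (fun m => Z m x) m1
      (fun m hm => ⟨hm1 m hm x (mem_ball_self hρ), hZne m x hx, hZs m x hx⟩) (htend x hx)
    rcases hPQ with h | h
    · exact Or.inl ⟨m, fun k hk => hm1 k (by omega) x (mem_ball_self hρ), h⟩
    · exact Or.inr ⟨m, fun k hk => hm1 k (by omega) x (mem_ball_self hρ), h⟩
  have hdisj : ∀ x ∈ Ω, x ∈ SP → x ∉ SQ := by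
    rintro x hx ⟨m1, h1, h2⟩ ⟨m2, h3, h4⟩
    exact R.disj (max m1 m2) _ (hPpers x hx m1 h1 h2 _ (le_max_left _ _)).1 (hQpers x hx m2 h3 h4 _ (le_max_right _ _))
  have hopen : ∀ T : ℕ → Set ℂ, (∀ m, IsOpen (T m)) →
      (∀ x ∈ Ω, ∀ m1, (∀ m ≥ m1, ‖Z m x‖ < R.r0) → Z m1 x ∈ T m1 → ∀ m ≥ m1, Z m x ∈ T m) →
      ∀ x ∈ Ω, (∃ m1, (∀ m ≥ m1, ‖Z m x‖ < R.r0) ∧ Z m1 x ∈ T m1) →
      ∃ ρ > 0, ∃ m1 : ℕ, ball x ρ ⊆ Ω ∧ ∀ z ∈ ball x ρ, (∀ m ≥ m1, ‖Z m z‖ < R.r0) ∧ Z m1 z ∈ T m1 := by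
    rintro T hT hpers x hx ⟨m0, h1, h2⟩
    obtain ⟨ρ, hρ, m1, hb, hm1⟩ := hloc x hx
    have h3 : Z (max m0 m1) x ∈ T (max m0 m1) := hpers x hx m0 h1 h2 _ (le_max_left _ _)
    have hcont : ContinuousAt (Z (max m0 m1)) x := ((hZd _).differentiableAt (ho.mem_nhds hx)).continuousAt
    have h4 := hcont.eventually ((hT _).mem_nhds h3)
    obtain ⟨ρ', hρ', h5⟩ := Metric.eventually_nhds_iff_ball.1 h4
    refine ⟨min ρ ρ', lt_min hρ hρ', max m0 m1, (ball_subset_ball (min_le_left _ _)).trans hb, fun z hz => ⟨fun m hm => ?_, ?_⟩⟩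
    · exact hm1 m (le_trans (le_max_right _ _) hm) z (ball_subset_ball (min_le_left _ _) hz)
    · exact h5 z (ball_subset_ball (min_le_right _ _) hz)
  have hPop := hopen R.P R.isOpen_P (fun x hx m1 h1 h2 m hm => (hPpers x hx m1 h1 h2 m hm).1)
  have hQop := hopen R.Q R.isOpen_Q hQpers
  have hSPo : IsOpen (Ω ∩ SP) := by
    rw [Metric.isOpen_iff]
    rintro x ⟨hx, hxS⟩
    obtain ⟨ρ, hρ, m1, hb, h⟩ := hPop x hx hxS
    exact ⟨ρ, hρ, fun z hz => ⟨hb hz, m1, h z hz⟩⟩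
  have hSQo : IsOpen (Ω ∩ SQ) := by
    rw [Metric.isOpen_iff]
    rintro x ⟨hx, hxS⟩
    obtain ⟨ρ, hρ, m1, hb, h⟩ := hQop x hx hxS
    exact ⟨ρ, hρ, fun z hz => ⟨hb hz, m1, h z hz⟩⟩
  have hx0SP : x0 ∈ SP := by
    obtain ⟨ρ, hρ, m1, hb, hm1⟩ := hloc x0 hx0
    obtain ⟨m2, hm2⟩ := eventually_atTop.1 (R.Lam_pr η0)
    refine ⟨max m1 m2, fun m hm => hm1 m (le_trans (le_max_left _ _) hm) x0 (mem_ball_self hρ), ?_⟩
    rw [hZ0]
    exact (hm2 _ (le_max_right _ _)).1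
  have hall : ∀ x ∈ Ω, x ∈ SP := by
    intro x hx
    by_contra hcon
    have hxQ : x ∈ SQ := (hcover x hx).resolve_left hcon
    have := hpc (Ω ∩ SP) (Ω ∩ SQ) hSPo hSQo (fun y hy => (hcover y hy).imp (fun h => ⟨hy, h⟩) (fun h => ⟨hy, h⟩))
      ⟨x0, hx0, hx0, hx0SP⟩ ⟨x, hx, hx, hxQ⟩
    obtain ⟨y, hy, hy1, hy2⟩ := this
    exact hdisj y hy hy1.2 hy2.2
  -- the lift
  have hchoose : ∀ x : ℂ, ∃ y : ℂ, x ∈ Ω → ∀ m1, (∀ m ≥ m1, ‖Z m x‖ < R.r0) → Z m1 x ∈ R.P m1 →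
      y = R.Lam m1 (Z m1 x) := by
    intro x
    by_cases hx : x ∈ Ω
    · obtain ⟨m0, h1, h2⟩ := hall x hx
      refine ⟨R.Lam m0 (Z m0 x), fun _ m1 h3 h4 => ?_⟩
      have h5 := (hPpers x hx m0 h1 h2 (max m0 m1) (le_max_left _ _)).2
      have h6 := (hPpers x hx m1 h3 h4 (max m0 m1) (le_max_right _ _)).2
      rw [← h5, h6]
    · exact ⟨0, fun h => absurd h hx⟩
  choose η hη using hchoose
  refine ⟨η, ?_, ?_, ?_⟩
  · intro x hx
    obtain ⟨ρ, hρ, m1, hb, h⟩ := hPop x hx (hall x hx)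
    have hev : η =ᶠ[𝓝 x] fun z => R.Lam m1 (Z m1 z) := by
      filter_upwards [ball_mem_nhds x hρ] with z hz
      exact hη z (hb hz) m1 (h z hz).1 (h z hz).2
    have hxx := h x (mem_ball_self hρ)
    have h1 : DifferentiableAt ℂ (R.Lam m1) (Z m1 x) :=
      (R.diff_Lam m1).differentiableAt ((R.isOpen_P m1).mem_nhds hxx.2)
    have h2 : DifferentiableAt ℂ (Z m1) x := (hZd m1).differentiableAt (ho.mem_nhds hx)
    exact ((h1.comp x h2).congr_of_eventuallyEq hev).differentiableWithinAt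
  · intro x hx
    obtain ⟨m1, h1, h2⟩ := hall x hx
    rw [hη x hx m1 h1 h2, ← LL2_pr_iter R _ m1, R.pr_Lam m1 _ h2, hZ m1 x hx]
  · obtain ⟨ρ, hρ, m1, hb, hm1⟩ := hloc x0 hx0
    obtain ⟨m2, hm2⟩ := eventually_atTop.1 (R.Lam_pr η0)
    have h1 := hm2 (max m1 m2) (le_max_right _ _)
    rw [hη x0 hx0 (max m1 m2) (fun m hm => hm1 m (le_trans (le_max_left _ _) hm) x0 (mem_ball_self hρ))
      (by rw [hZ0]; exact h1.1), hZ0]
    exact h1.2

/-- **Lifting through the repelling Fatou parametrisation, general form.** -/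
theorem RepData.lift_gen {l : ℂ} (R : RepData l) (hpr : ∀ m, Continuous (R.pr m)) {Ω : Set ℂ} (ho : IsOpen Ω) (hc : Convex ℝ Ω) {ζ : ℂ → ℂ}
    (hζ : DifferentiableOn ℂ ζ Ω) (h0 : ∀ x ∈ Ω, ζ x ≠ 0)
    (hv : ∀ x ∈ Ω, ∀ k : ℕ, ζ x ≠ (f l)^[k] (v l)) {x0 η0 : ℂ} (hx0 : x0 ∈ Ω) (hη0 : R.pr 0 η0 = ζ x0) :
    ∃ η : ℂ → ℂ, DifferentiableOn ℂ η Ω ∧ (∀ x ∈ Ω, R.pr 0 (η x) = ζ x) ∧ η x0 = η0 := by
  refine exhaust ho hc hx0 (Q := fun x y => R.pr 0 y = ζ x) ?_ ?_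
  · intro Ω' ho' hc' hx' hcl hcomp
    have hsub : Ω' ⊆ Ω := subset_closure.trans hcl
    obtain ⟨C, hC⟩ := (hcomp.image_of_continuousOn (hζ.continuousOn.mono hcl)).isBounded.exists_norm_le
    exact R.lift_bdd ho' hc' (hζ.mono hsub) (C := C) (fun x hx => hC _ ⟨x, subset_closure hx, rfl⟩)
      (fun x hx => h0 x (hsub hx)) (fun x hx k => hv x (hsub hx) k) hx' hη0
  · intro Ω' ho' hc' hx' hsub η η' hη hη' h1 h2 h3
    exact R.unique hc'.isPreconnected (fun x hx k => hv x (hsub hx) k) hη.continuousOn hη'.continuousOn hpr h1 h2 hx' h3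

/-- Shifting the index. -/
def RepData.shift {l : ℂ} (R : RepData l) (k : ℕ) : RepData l where
  pr := fun m => R.pr (m + k)
  r0 := R.r0
  P := fun m => R.P (m + k)
  Q := fun m => R.Q (m + k)
  Lam := fun m => R.Lam (m + k)
  hl := R.hl
  r0_pos := R.r0_pos
  pr_f := fun m w => by
    have := R.pr_f (m + k) w
    rwa [Nat.add_right_comm] at this
  pr_lim := fun w => (R.pr_lim w).comp (tendsto_add_atTop_nat k)
  not_int := R.not_int
  isOpen_P := fun m => R.isOpen_P _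
  isOpen_Q := fun m => R.isOpen_Q _
  disj := fun m z h => R.disj _ z h
  P_succ := fun m z h1 h2 => by
    have := R.P_succ (m + k) z h1 h2
    rwa [Nat.add_right_comm] at this
  Q_succ := fun m z h1 h2 => by
    have := R.Q_succ (m + k) z h1 h2
    rwa [Nat.add_right_comm] at this
  diff_Lam := fun m => R.diff_Lam _
  pr_Lam := fun m z h => R.pr_Lam _ z h
  Lam_pr := fun w => (tendsto_add_atTop_nat k).eventually (R.Lam_pr w)
  absorb := fun z m0 h hz => by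
    have hz' : Tendsto (fun m => z (m - k)) atTop (𝓝 0) := by
      refine (tendsto_add_atTop_iff_nat k).1 ?_
      simpa using hz
    obtain ⟨m, hm, h2⟩ := R.absorb (fun m => z (m - k)) (m0 + k) (fun m hm => by
      obtain ⟨h3, h4, h5⟩ := h (m - k) (by omega)
      refine ⟨h3, h4, ?_⟩
      have e : m + 1 - k = m - k + 1 := by omega
      show f l (z (m + 1 - k)) = z (m - k)
      rw [e]; exact h5) hz'
    refine ⟨m - k, by omega, ?_⟩
    have e : m - k + k = m := by omega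
    rw [e]; exact h2

theorem RepData.shift_pr {l : ℂ} (R : RepData l) (k m : ℕ) : (R.shift k).pr m = R.pr (m + k) := rfl

end Pool.Agent.CR
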