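import Pool.Agent.H48.CR.Lav
import Pool.Agent.H33.CR.GI2

/-!
# CR LV: the field `lav` from `Fat`

L1: `GH_rep`, `GH_rate`. L2: `W0_pr` and continuity of `pr 0`.
-/

set_option autoImplicit false

open Set Filter Topology Metric

namespace Pool.Agent.CR

variable {p q s e : ℕ}

theorem LV_L1 {c : Chart p q s e} (F : Fat c) (hq : 0 < q) (z : ℂ) (hz : z ∈ F.B) (r ε : ℝ) (hε : 0 < ε) :
    ∃ (m : ℕ) (w : ℂ), r < w.re ∧ -w.im < w.re / 4 ∧
      (f (mu ((p : ℝ) / q)))^[m] z = c.W0 (-1 + m * p) w ∧ ‖w - m - F.phi z‖ ≤ ε := by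
  obtain ⟨r1, hr1, hr2⟩ : ∃ r1 : ℝ, max r F.r0 ≤ r1 ∧ F.C * r1 ^ (-(1 / (q : ℝ))) ≤ ε := by
    have h1 := ((GH_rate F hq).eventually (Iic_mem_nhds hε)).and (eventually_ge_atTop (max r F.r0))
    obtain ⟨r1, h2, h3⟩ := h1.exists
    exact ⟨r1, h3, h2⟩
  obtain ⟨m, w, h1, h2, h3, h4, h5, h6⟩ := (GH_rep F hq hz r1 ((le_max_right _ _).trans hr1)).exists
  refine ⟨m, w, lt_of_le_of_lt ((le_max_left _ _).trans hr1) h1, h2, h5, ?_⟩
  rw [norm_sub_rev]
  exact h6.trans hr2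

theorem LV_L2 {c : Chart p q s e} (F : Fat c) (hq : 0 < q) (w : ℂ) (ε : ℝ) (hε : 0 < ε) :
    ∃ (δ : ℝ) (k0 : ℕ), 0 < δ ∧ ∀ k ≥ k0, ∀ w' : ℂ, ‖w' - (w - k)‖ ≤ δ →
      ‖(f (mu ((p : ℝ) / q)))^[k] (c.W0 (-1 - k * p) w') - F.pr 0 w‖ ≤ ε := by
  obtain ⟨η, hη, hc⟩ := Metric.continuousAt_iff.1 ((F.diff_pr 0).continuous.continuousAt (x := w)) ε hε
  obtain ⟨r, hr1, hr2⟩ : ∃ r : ℝ, max 0 F.r0 ≤ r ∧ F.C * r ^ (-(1 / (q : ℝ))) ≤ η / 4 := by
    have h1 := ((GH_rate F hq).eventually (Iic_mem_nhds (show (0 : ℝ) < η / 4 by positivity))).and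
      (eventually_ge_atTop (max 0 F.r0))
    obtain ⟨r1, h2, h3⟩ := h1.exists
    exact ⟨r1, h3, h2⟩
  have hr0 : 0 ≤ r := (le_max_left _ _).trans hr1
  obtain ⟨k0, hk0⟩ := exists_nat_gt (|w.re| + 4 * |w.im| + r + 10)
  refine ⟨min (η / 4) 1, k0, by positivity, fun k hk w' hw' => ?_⟩
  have hkR : (k0 : ℝ) ≤ k := by exact_mod_cast hk
  have h1 : ‖w' - (w - k)‖ ≤ 1 := hw'.trans (min_le_right _ _)
  have h2 : ‖w' - (w - k)‖ ≤ η / 4 := hw'.trans (min_le_left _ _)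
  have hre : |(w' - (w - k)).re| ≤ 1 := (Complex.abs_re_le_norm _).trans h1
  have him : |(w' - (w - k)).im| ≤ 1 := (Complex.abs_im_le_norm _).trans h1
  simp only [Complex.sub_re, Complex.sub_im, Complex.natCast_re, Complex.natCast_im, sub_zero] at hre him
  have hre' := abs_le.1 hre
  have him' := abs_le.1 him
  have e1 := le_abs_self w.re
  have e2 := neg_abs_le w.im
  have e3 := abs_nonneg w.im
  have e4 := abs_nonneg w.re
  have hmem : w' ∈ Rr r := by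
    left
    constructor
    · linarith
    · linarith
  obtain ⟨w2, h3, h4⟩ := F.W0_pr k w' r ((le_max_right _ _).trans hr1) hmem
  rw [← h3, GI2_pr_iter]
  have h5 : ‖w2 - w‖ < η := by
    have h6 : w2 - w = (w' - (w - k)) - (w' - (w2 - k)) := by ring
    rw [h6]
    have := norm_sub_le (w' - (w - k)) (w' - (w2 - k))
    linarith
  have h7 := hc (show dist w2 w < η by rw [dist_eq_norm]; exact h5)
  rw [dist_eq_norm] at h7
  exact h7.le

theorem LV_pr_iter {c : Chart p q s e} (F : Fat c) (m0 k : ℕ) (w : ℂ) :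
    (f (mu ((p : ℝ) / q)))^[k] (F.pr (m0 + k) w) = F.pr m0 w := by
  induction k with
  | zero => rfl
  | succ k ih => rw [Function.iterate_succ_apply, ← Nat.add_assoc, F.pr_f, ih]

theorem LV_L2m {c : Chart p q s e} (F : Fat c) (hq : 0 < q) (m0 : ℕ) (w : ℂ) (ε : ℝ) (hε : 0 < ε) :
    ∃ (δ : ℝ) (k0 : ℕ), 0 < δ ∧ ∀ k ≥ k0, ∀ w' : ℂ, ‖w' - (w - k)‖ ≤ δ →
      ‖(f (mu ((p : ℝ) / q)))^[k - m0] (c.W0 (-1 - k * p) w') - F.pr m0 w‖ ≤ ε := by
  obtain ⟨η, hη, hc⟩ := Metric.continuousAt_iff.1 ((F.diff_pr m0).continuous.continuousAt (x := w)) ε hε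
  obtain ⟨r, hr1, hr2⟩ : ∃ r : ℝ, max 0 F.r0 ≤ r ∧ F.C * r ^ (-(1 / (q : ℝ))) ≤ η / 4 := by
    have h1 := ((GH_rate F hq).eventually (Iic_mem_nhds (show (0 : ℝ) < η / 4 by positivity))).and
      (eventually_ge_atTop (max 0 F.r0))
    obtain ⟨r1, h2, h3⟩ := h1.exists
    exact ⟨r1, h3, h2⟩
  have hr0 : 0 ≤ r := (le_max_left _ _).trans hr1
  obtain ⟨k0, hk0⟩ := exists_nat_gt (|w.re| + 4 * |w.im| + r + 10)
  refine ⟨min (η / 4) 1, max k0 m0, by positivity, fun k hk w' hw' => ?_⟩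
  have hkR : (k0 : ℝ) ≤ k := by exact_mod_cast (le_max_left _ _).trans hk
  have h1 : ‖w' - (w - k)‖ ≤ 1 := hw'.trans (min_le_right _ _)
  have h2 : ‖w' - (w - k)‖ ≤ η / 4 := hw'.trans (min_le_left _ _)
  have hre : |(w' - (w - k)).re| ≤ 1 := (Complex.abs_re_le_norm _).trans h1
  have him : |(w' - (w - k)).im| ≤ 1 := (Complex.abs_im_le_norm _).trans h1
  simp only [Complex.sub_re, Complex.sub_im, Complex.natCast_re, Complex.natCast_im, sub_zero] at hre him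
  have hre' := abs_le.1 hre
  have him' := abs_le.1 him
  have e1 := le_abs_self w.re
  have e2 := neg_abs_le w.im
  have e3 := abs_nonneg w.im
  have e4 := abs_nonneg w.re
  have hmem : w' ∈ Rr r := by
    left
    constructor
    · linarith
    · linarith
  obtain ⟨w2, h3, h4⟩ := F.W0_pr k w' r ((le_max_right _ _).trans hr1) hmem
  have hkm : m0 + (k - m0) = k := Nat.add_sub_cancel' ((le_max_right _ _).trans hk)
  have h33 : (f (mu ((p : ℝ) / q)))^[k - m0] (F.pr k w2) = F.pr m0 w2 := by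
    have := LV_pr_iter F m0 (k - m0) w2
    rwa [hkm] at this
  rw [← h3, h33]
  have h5 : ‖w2 - w‖ < η := by
    have h6 : w2 - w = (w' - (w - k)) - (w' - (w2 - k)) := by ring
    rw [h6]
    have := norm_sub_le (w' - (w - k)) (w' - (w2 - k))
    linarith
  have h7 := hc (show dist w2 w < η by rw [dist_eq_norm]; exact h5)
  rw [dist_eq_norm] at h7
  exact h7.le

/-- `(f lN)^[qN - m] → pr m ∘ phi` locally uniformly on `B`. -/
theorem lavm_fat {c : Chart p q s e} (F : Fat c) (hp : 0 < p) (hpq : p < q) (hs : q * s = p * e + 1) (m : ℕ) :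
    TendstoLocallyUniformlyOn (fun N z => (f (lN p q s e N))^[qN q e N - m] z) (fun z => F.pr m (F.phi z)) atTop F.B :=
  lavm_of hp hpq hs c F.isOpen_B m (fun z hz r ε hε => LV_L1 F (hp.trans hpq) z hz r ε hε)
    (fun w ε hε => LV_L2m F (hp.trans hpq) m w ε hε)

/-- **The field `lav` of `Gate`.** -/
theorem lav_fat {c : Chart p q s e} (F : Fat c) (hp : 0 < p) (hpq : p < q) (hs : q * s = p * e + 1) :
    TendstoLocallyUniformlyOn (fun N z => hN p q s e N z) (fun z => F.pr 0 (F.phi z)) atTop F.B :=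
  lav_of hp hpq hs c F.isOpen_B (fun z hz r ε hε => LV_L1 F (hp.trans hpq) z hz r ε hε)
    (fun w ε hε => LV_L2 F (hp.trans hpq) w ε hε)

end Pool.Agent.CR
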