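import Pool.Agent.H73.CR.B5

/-!
# CR Z: from the stage lemma to an irrational multiplier

`Z_diag`: nested boxes `|y - x n| ≤ ε n`, `|τ - θ n| ≤ ε n` around the stages `(x n, θ n)`; the box of stage `n + 1` avoids
the `n`-th rational number and on it `‖ray (mu y) τ u‖ ≤ 2 / (n + 1)` for `s (n+1) ≤ u ≤ s n`.
-/

set_option autoImplicit false

open Set Filter Topology

namespace Pool.Agent.CR

theorem Z_norm_mu (x : ℝ) : ‖mu x‖ = 1 := by
  have : mu x = Complex.exp ((2 * Real.pi * x : ℝ) * Complex.I) := by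
    unfold mu; push_cast; rfl
  rw [this, Complex.norm_exp_ofReal_mul_I]

theorem continuous_mu : Continuous mu := by
  unfold mu
  fun_prop

private theorem Z_unif (x θ : ℝ) {s' s η : ℝ} (hs' : 0 < s') (hη : 0 < η) :
    ∃ ε > 0, ∀ y τ : ℝ, |y - x| ≤ ε → |τ - θ| ≤ ε → ∀ u ∈ Icc s' s,
      ‖ray (mu y) τ u - ray (mu x) θ u‖ ≤ η := by
  set g : ℝ × ℝ × ℝ → ℂ := fun p => ray (mu p.1) p.2.1 p.2.2 with hg
  set B : Set (ℝ × ℝ × ℝ) := Icc (x - 1) (x + 1) ×ˢ (Icc (θ - 1) (θ + 1) ×ˢ Icc s' s) with hB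
  have hBc : IsCompact B := isCompact_Icc.prod (isCompact_Icc.prod isCompact_Icc)
  have hgc : ContinuousOn g B := by
    have h1 : g = (fun p : ℂ × ℝ × ℝ => ray p.1 p.2.1 p.2.2) ∘
        (fun p : ℝ × ℝ × ℝ => (mu p.1, p.2.1, p.2.2)) := rfl
    rw [h1]
    refine ray_continuousOn.comp ?_ ?_
    · refine Continuous.continuousOn ?_
      exact (continuous_mu.comp continuous_fst).prodMk
        ((continuous_fst.comp continuous_snd).prodMk (continuous_snd.comp continuous_snd))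
    · rintro ⟨a, b, c⟩ ⟨-, -, hc⟩
      exact ⟨(Z_norm_mu a).le, lt_of_lt_of_le hs' hc.1⟩
  have huc := hBc.uniformContinuousOn_of_continuous hgc
  rw [Metric.uniformContinuousOn_iff] at huc
  obtain ⟨δ, hδ, h⟩ := huc η hη
  refine ⟨min (δ / 2) 1, by positivity, fun y τ hy hτ u hu => ?_⟩
  have hy1 := abs_le.1 (hy.trans (min_le_right _ _))
  have hτ1 := abs_le.1 (hτ.trans (min_le_right _ _))
  have hy2 := hy.trans (min_le_left _ _)
  have hτ2 := hτ.trans (min_le_left _ _)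
  have ha : (y, τ, u) ∈ B := ⟨⟨by linarith, by linarith⟩, ⟨by linarith, by linarith⟩, hu⟩
  have hb : (x, θ, u) ∈ B := ⟨⟨by linarith, by linarith⟩, ⟨by linarith, by linarith⟩, hu⟩
  have hd : dist ((y, τ, u) : ℝ × ℝ × ℝ) (x, θ, u) < δ := by
    rw [Prod.dist_eq, Prod.dist_eq]
    simp only [dist_self, Real.dist_eq]
    refine max_lt (by linarith) (max_lt (by linarith) hδ)
  have := h _ ha _ hb hd
  rw [dist_eq_norm] at this
  exact this.le

/-- The diagonal argument: an abstract stage predicate `P` (multiplier `mu x`, angle `θ`) with the stage property gives an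
irrational `α` close to `x0` and a ray of `f (mu α)` which lands at `0`. -/
theorem Z_diag (P : ℚ → ℝ → Prop) {x0 : ℚ} {θ0 : ℝ} (hP0 : P x0 θ0) {ε0 : ℝ} (hε0 : 0 < ε0)
    (hs : ∀ x θ, P x θ → ∀ r : ℝ, 0 < r → ∃ s0 : ℝ, 0 < s0 ∧ ∀ δ : ℝ, 0 < δ →
      ∃ x' θ', P x' θ' ∧ x' ≠ x ∧ |(x' : ℝ) - x| < δ ∧ |θ' - θ| < δ ∧
        ∀ s, 0 < s → s ≤ s0 → ‖ray (mu x') θ' s‖ ≤ r) :
    ∃ α t : ℝ, |α - x0| ≤ ε0 ∧ Irrational α ∧ Tendsto (ray (mu α) t) (𝓝[>] 0) (𝓝 0) := by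
  classical
  obtain ⟨e, he⟩ := exists_surjective_nat ℚ
  -- states
  let Inv : ℕ → ℚ × ℝ × ℝ × ℝ → Prop := fun n σ => 0 < σ.2.2.1 ∧ 0 < σ.2.2.2 ∧
    ∀ δ : ℝ, 0 < δ → ∃ x' θ', P x' θ' ∧ x' ≠ σ.1 ∧ |(x' : ℝ) - σ.1| < δ ∧ |θ' - σ.2.1| < δ ∧
      ∀ s, 0 < s → s ≤ σ.2.2.2 → ‖ray (mu x') θ' s‖ ≤ 1 / ((n : ℝ) + 1)
  let Rel : ℕ → ℚ × ℝ × ℝ × ℝ → ℚ × ℝ × ℝ × ℝ → Prop := fun n σ σ' =>
    |(σ'.1 : ℝ) - σ.1| ≤ σ.2.2.1 / 2 ∧ |σ'.2.1 - σ.2.1| ≤ σ.2.2.1 / 2 ∧ σ'.2.2.1 ≤ σ.2.2.1 / 2 ∧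
    σ'.2.2.2 ≤ σ.2.2.2 / 2 ∧ ∀ y τ : ℝ, |y - σ'.1| ≤ σ'.2.2.1 → |τ - σ'.2.1| ≤ σ'.2.2.1 →
      y ≠ e n ∧ ∀ u ∈ Icc σ'.2.2.2 σ.2.2.2, ‖ray (mu y) τ u‖ ≤ 2 / ((n : ℝ) + 1)
  have hstep : ∀ n σ, Inv n σ → ∃ σ', Inv (n + 1) σ' ∧ Rel n σ σ' := by
    rintro n ⟨x, θ, ε, s⟩ ⟨hε, hspos, hσ⟩
    simp only at hε hspos hσ
    -- choose δ
    obtain ⟨δ, hδ, hδε, hδe⟩ : ∃ δ : ℝ, 0 < δ ∧ δ ≤ ε / 2 ∧ ∀ x' : ℚ, x' ≠ x →
        |(x' : ℝ) - x| < δ → x' ≠ e n := by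
      by_cases hx : x = e n
      · exact ⟨ε / 2, by positivity, le_rfl, fun x' h1 _ h2 => h1 (h2.trans hx.symm)⟩
      · have hpos : 0 < |((e n : ℚ) : ℝ) - x| := by
          rw [abs_pos, sub_ne_zero]
          exact fun h => hx (by exact_mod_cast h.symm)
        refine ⟨min (ε / 2) (|((e n : ℚ) : ℝ) - x|), lt_min (by positivity) hpos, min_le_left _ _,
          fun x' _ h2 h3 => ?_⟩
        rw [h3] at h2
        exact absurd (h2.trans_le (min_le_right _ _)) (lt_irrefl _)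
    obtain ⟨x', θ', hP, hne, hx', hθ', hr⟩ := hσ δ hδ
    have hpos : (0 : ℝ) < 1 / ((((n + 1 : ℕ) : ℝ)) + 1) := by positivity
    obtain ⟨s1, hs1, hs1'⟩ := hs x' θ' hP _ hpos
    set s' : ℝ := min s1 (s / 2) with hs'
    have hs'0 : 0 < s' := lt_min hs1 (by positivity)
    have hx'e : x' ≠ e n := hδe x' hne hx'
    have hxe : 0 < |(x' : ℝ) - ((e n : ℚ) : ℝ)| := by
      rw [abs_pos, sub_ne_zero]
      exact fun h => hx'e (by exact_mod_cast h)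
    obtain ⟨ε1, hε1, hu⟩ := Z_unif (x' : ℝ) θ' (s := s) hs'0 (η := 1 / ((n : ℝ) + 1)) (by positivity)
    set ε' : ℝ := min (min ε1 (ε / 2)) (|(x' : ℝ) - ((e n : ℚ) : ℝ)| / 2) with hε'
    have hε'0 : 0 < ε' := lt_min (lt_min hε1 (by positivity)) (by positivity)
    refine ⟨(x', θ', ε', s'), ⟨hε'0, hs'0, ?_⟩, ?_⟩
    · intro δ' hδ'
      obtain ⟨x'', θ'', h1, h2, h3, h4, h5⟩ := hs1' δ' hδ'
      exact ⟨x'', θ'', h1, h2, h3, h4, fun u hu0 hu1 => h5 u hu0 (hu1.trans (min_le_left _ _))⟩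
    · refine ⟨hx'.le.trans hδε, hθ'.le.trans hδε, (min_le_left _ _).trans (min_le_right _ _),
        min_le_right _ _, fun y τ hy hτ => ⟨?_, fun u hu' => ?_⟩⟩
      · intro hye
        rw [hye] at hy
        have h1 : |((e n : ℚ) : ℝ) - x'| ≤ |(x' : ℝ) - ((e n : ℚ) : ℝ)| / 2 :=
          hy.trans (min_le_right _ _)
        rw [abs_sub_comm] at h1
        linarith
      · have h1 := hu y τ (hy.trans ((min_le_left _ _).trans (min_le_left _ _)))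
          (hτ.trans ((min_le_left _ _).trans (min_le_left _ _))) u hu'
        have h2 := hr u (hs'0.trans_le hu'.1) hu'.2
        have h3 : ‖ray (mu y) τ u‖ ≤ ‖ray (mu y) τ u - ray (mu x') θ' u‖ + ‖ray (mu x') θ' u‖ := by
          have := norm_add_le (ray (mu y) τ u - ray (mu x') θ' u) (ray (mu x') θ' u)
          simpa using this
        have h4 : (2 : ℝ) / ((n : ℝ) + 1) = 1 / ((n : ℝ) + 1) + 1 / ((n : ℝ) + 1) := by ring
        rw [h4]; linarith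
  obtain ⟨s0, hs0, hs0'⟩ := hs x0 θ0 hP0 1 one_pos
  have hI0 : Inv 0 (x0, θ0, ε0, s0) := by
    refine ⟨hε0, hs0, fun δ hδ => ?_⟩
    obtain ⟨x'', θ'', h1, h2, h3, h4, h5⟩ := hs0' δ hδ
    exact ⟨x'', θ'', h1, h2, h3, h4, fun u hu0 hu1 => by simpa using h5 u hu0 hu1⟩
  choose! F hF1 hF2 using hstep
  let σ : ℕ → ℚ × ℝ × ℝ × ℝ := fun n => Nat.rec (x0, θ0, ε0, s0) (fun k s => F k s) n
  have hσS : ∀ n, σ (n + 1) = F n (σ n) := fun n => rfl
  have hσI : ∀ n, Inv n (σ n) := by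
    intro n
    induction n with
    | zero => exact hI0
    | succ k ih => rw [hσS]; exact hF1 k _ ih
  have hσR : ∀ n, Rel n (σ n) (σ (n + 1)) := fun n => by rw [hσS]; exact hF2 n _ (hσI n)
  -- nested boxes
  let Bx : ℕ → Set (ℝ × ℝ) := fun n =>
    Icc (((σ n).1 : ℝ) - (σ n).2.2.1) (((σ n).1 : ℝ) + (σ n).2.2.1) ×ˢ
      Icc ((σ n).2.1 - (σ n).2.2.1) ((σ n).2.1 + (σ n).2.2.1)
  have hBmem : ∀ n y τ, (y, τ) ∈ Bx n ↔ |y - (σ n).1| ≤ (σ n).2.2.1 ∧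
      |τ - (σ n).2.1| ≤ (σ n).2.2.1 := by
    intro n y τ
    simp only [Bx, mem_prod, mem_Icc, abs_le]
    constructor
    · rintro ⟨⟨h1, h2⟩, h3, h4⟩; exact ⟨⟨by linarith, by linarith⟩, by linarith, by linarith⟩
    · rintro ⟨⟨h1, h2⟩, h3, h4⟩; exact ⟨⟨by linarith, by linarith⟩, by linarith, by linarith⟩
  have hBne : (⋂ n, Bx n).Nonempty := by
    refine IsCompact.nonempty_iInter_of_sequence_nonempty_isCompact_isClosed Bx ?_ ?_ ?_ ?_
    · rintro n ⟨y, τ⟩ h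
      refine (hBmem n y τ).2 ?_
      obtain ⟨h1, h2⟩ := (hBmem (n + 1) y τ).1 h
      obtain ⟨r1, r2, r3, -, -⟩ := hσR n
      constructor
      · have := abs_sub_le y ((σ (n + 1)).1 : ℝ) ((σ n).1 : ℝ)
        linarith
      · have := abs_sub_le τ (σ (n + 1)).2.1 (σ n).2.1
        linarith
    · intro n
      refine ⟨(((σ n).1 : ℝ), (σ n).2.1), (hBmem n _ _).2 ?_⟩
      simp only [sub_self, abs_zero]
      exact ⟨(hσI n).1.le, (hσI n).1.le⟩
    · exact isCompact_Icc.prod isCompact_Icc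
    · intro n
      exact (isCompact_Icc.prod isCompact_Icc).isClosed
  obtain ⟨⟨α, t⟩, hαt⟩ := hBne
  have hα : ∀ n, |α - (σ n).1| ≤ (σ n).2.2.1 ∧ |t - (σ n).2.1| ≤ (σ n).2.2.1 := fun n =>
    (hBmem n α t).1 (mem_iInter.1 hαt n)
  refine ⟨α, t, (hα 0).1, ?_, ?_⟩
  · rintro ⟨y, hy⟩
    obtain ⟨n, hn⟩ := he y
    have h1 := (hσR n).2.2.2.2 α t (hα (n + 1)).1 (hα (n + 1)).2
    exact h1.1 (by rw [hn, hy])
  · -- s n ≤ s 0 / 2^n
    have hsn : ∀ n, (σ n).2.2.2 ≤ s0 / 2 ^ n := by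
      intro n
      induction n with
      | zero => simp [σ]
      | succ k ih =>
        have h1 := (hσR k).2.2.2.1
        have h2 : s0 / 2 ^ (k + 1) = s0 / 2 ^ k / 2 := by rw [pow_succ]; field_simp
        rw [h2]; linarith
    have hsanti : ∀ n, (σ (n + 1)).2.2.2 ≤ (σ n).2.2.2 := fun n => by
      have h1 := (hσR n).2.2.2.1
      have h2 := (hσI n).2.1
      linarith
    have hstend : Tendsto (fun n => (σ n).2.2.2) atTop (𝓝 0) := by
      refine squeeze_zero (fun n => (hσI n).2.1.le) hsn ?_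
      have := (tendsto_pow_atTop_nhds_zero_of_lt_one (r := (1 / 2 : ℝ)) (by norm_num)
        (by norm_num)).const_mul s0
      simp only [mul_zero] at this
      refine this.congr (fun n => ?_)
      rw [one_div, inv_pow]; rfl
    have hkey : ∀ n u, 0 < u → u ≤ (σ n).2.2.2 → ‖ray (mu α) t u‖ ≤ 2 / ((n : ℝ) + 1) := by
      intro n u hu hun
      -- find the last k with u ≤ s k
      obtain ⟨m, hm⟩ : ∃ m, (σ m).2.2.2 < u := by
        have := (hstend.eventually (gt_mem_nhds hu)).exists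
        exact this
      have hex : ∃ m, (σ m).2.2.2 < u := ⟨m, hm⟩
      set k := Nat.find hex with hk
      have hk1 : (σ k).2.2.2 < u := Nat.find_spec hex
      have hkn : n < k := by
        by_contra hcon
        push Not at hcon
        have hmono : ∀ a b, a ≤ b → (σ b).2.2.2 ≤ (σ a).2.2.2 := fun a b hab =>
          antitone_nat_of_succ_le (f := fun n => (σ n).2.2.2) hsanti hab
        have := hmono k n hcon
        linarith
      obtain ⟨j, hj⟩ : ∃ j, k = j + 1 := ⟨k - 1, by omega⟩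
      have hj1 : ¬ (σ j).2.2.2 < u := Nat.find_min hex (by omega)
      have h1 := (hσR j).2.2.2.2 α t (hα (j + 1)).1 (hα (j + 1)).2
      have h2 := h1.2 u ⟨by rw [hj] at hk1; exact hk1.le, not_lt.1 hj1⟩
      refine h2.trans ?_
      have hnj : (n : ℝ) ≤ j := by
        have : n ≤ j := by omega
        exact_mod_cast this
      exact div_le_div_of_nonneg_left (by norm_num) (by positivity) (by linarith)
    rw [Metric.tendsto_nhds]
    intro η hη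
    obtain ⟨n, hn⟩ := exists_nat_gt (2 / η)
    have hn' : 2 / ((n : ℝ) + 1) < η := by
      rw [div_lt_iff₀ (by positivity)]
      rw [div_lt_iff₀ hη] at hn
      nlinarith
    have hmem : Ioc (0 : ℝ) (σ n).2.2.2 ∈ 𝓝[>] (0 : ℝ) := Ioc_mem_nhdsGT (hσI n).2.1
    filter_upwards [hmem] with u hu
    rw [dist_zero_right]
    exact (hkey n u hu.1 hu.2).trans_lt hn'

end Pool.Agent.CR
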