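import Pool.Agent.H33.CR.Inj
import Pool.Agent.H33.CR.Z

/-!
# CR Z2: uniqueness of the conformal isomorphism; a ray which lands at `0` excludes linearisation

`psi_unique`: `g` with `psi l (g w) = ψ w`; `u ↦ 1 / g (1/u)` is a holomorphic self-map of the disc, the quotient by `u` has
modulus at most `1` (Schwarz) and the value `1` at `0`.
`not_tendsto_of_linearizable`: a linearisable fixed point is interior to `K l`.
-/

set_option autoImplicit false

open Set Filter Topology Metric

namespace Pool.Agent.CR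

private theorem Z2_open : IsOpen {w : ℂ | 1 < ‖w‖} := isOpen_lt continuous_const continuous_norm

theorem psi_bijOn {l : ℂ} (hl : ‖l‖ ≤ 1) : BijOn (psi l) {w | 1 < ‖w‖} (K l)ᶜ :=
  ⟨fun _ hw => psi_notMem hl hw, psi_injOn hl, fun z hz => by
    obtain ⟨w, h1, h2⟩ := exists_psi_eq hl (z := z) hz
    exact ⟨w, h1, h2⟩⟩

theorem psi_unique {l : ℂ} (hl : ‖l‖ ≤ 1) {ψ : ℂ → ℂ} (hd : DifferentiableOn ℂ ψ {w | 1 < ‖w‖})
    (hb : BijOn ψ {w | 1 < ‖w‖} (K l)ᶜ)
    (hn : Tendsto (fun w => ψ w / w) (Bornology.cobounded ℂ) (𝓝 1)) :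
    EqOn ψ (psi l) {w | 1 < ‖w‖} := by
  classical
  have hex : ∀ w : ℂ, ∃ w' : ℂ, 1 < ‖w‖ → 1 < ‖w'‖ ∧ psi l w' = ψ w := by
    intro w
    by_cases hw : 1 < ‖w‖
    · obtain ⟨w', h1, h2⟩ := exists_psi_eq hl (hb.mapsTo hw)
      exact ⟨w', fun _ => ⟨h1, h2⟩⟩
    · exact ⟨0, fun h => absurd h hw⟩
  choose g hg using hex
  -- g is holomorphic
  have hgd : ∀ w : ℂ, 1 < ‖w‖ → DifferentiableAt ℂ g w := by
    intro w hw
    refine differentiableAt_lift Z2_open (psi_differentiableOn hl) (psi_injOn hl)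
      ((hd w hw).differentiableAt (Z2_open.mem_nhds hw)) ?_
    filter_upwards [Z2_open.mem_nhds hw] with w' hw'
    exact hg w' hw'
  have hev : ∀ᶠ w : ℂ in Bornology.cobounded ℂ, 1 < ‖w‖ :=
    (tendsto_norm_cobounded_atTop).eventually (eventually_gt_atTop 1)
  -- ψ tends to infinity
  have hψinf : Tendsto (fun w => ‖ψ w‖) (Bornology.cobounded ℂ) atTop := by
    have h1 : Tendsto (fun w : ℂ => ‖ψ w / w‖ * ‖w‖) (Bornology.cobounded ℂ) atTop := by
      refine Filter.Tendsto.pos_mul_atTop (C := ‖(1 : ℂ)‖) (by norm_num) hn.norm tendsto_norm_cobounded_atTop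
    refine h1.congr' ?_
    filter_upwards [hev] with w hw
    have hw0 : w ≠ 0 := by
      rintro rfl; simp at hw; linarith
    rw [← norm_mul, div_mul_cancel₀ _ hw0]
  have hginf : Tendsto g (Bornology.cobounded ℂ) (Bornology.cobounded ℂ) := by
    rw [← tendsto_norm_atTop_iff_cobounded]
    refine tendsto_atTop_mono' (f₁ := fun w => ‖ψ w‖ - 1) _ ?_ (tendsto_atTop_add_const_right _ (-1) hψinf)
    filter_upwards [hev] with w hw
    have h1 := norm_psi_le hl (hg w hw).1
    rw [(hg w hw).2] at h1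
    linarith
  have hgw : Tendsto (fun w => w / g w) (Bornology.cobounded ℂ) (𝓝 1) := by
    have h1 : Tendsto (fun w => psi l (g w) / g w) (Bornology.cobounded ℂ) (𝓝 1) :=
      (psi_div_tendsto hl).comp hginf
    have h2 := h1.div hn one_ne_zero
    rw [div_one] at h2
    refine h2.congr' ?_
    filter_upwards [hev, hψinf.eventually (eventually_gt_atTop 0)] with w hw hψ0
    have hw0 : w ≠ 0 := by
      rintro rfl; simp at hw; linarith
    have hψ0' : ψ w ≠ 0 := norm_pos_iff.1 hψ0
    have hg0 : g w ≠ 0 := by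
      intro h
      have := (hg w hw).1
      rw [h] at this; simp at this; linarith
    simp only [Pi.div_apply]
    rw [(hg w hw).2]
    field_simp
  -- k u = 1/(u g(1/u)), k 0 = 1
  set k : ℂ → ℂ := fun u => if u = 0 then 1 else u⁻¹ / g u⁻¹ with hk
  have hinv : Tendsto (fun u : ℂ => u⁻¹) (𝓝[≠] 0) (Bornology.cobounded ℂ) :=
    Filter.tendsto_inv₀_nhdsNE_zero
  have hk0 : k 0 = 1 := by simp [hk]
  have hkc : ContinuousAt k 0 := by
    rw [continuousAt_iff_punctured_nhds, hk0]
    refine (hgw.comp hinv).congr' ?_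
    filter_upwards [self_mem_nhdsWithin] with u hu
    have hu' : u ≠ 0 := hu
    simp [hk, hu']
  have hnorm_inv : ∀ u : ℂ, u ≠ 0 → ‖u‖ < 1 → 1 < ‖u⁻¹‖ := by
    intro u hu h
    rw [norm_inv]
    exact (one_lt_inv₀ (norm_pos_iff.2 hu)).2 h
  have hkd' : ∀ u : ℂ, u ≠ 0 → ‖u‖ < 1 → DifferentiableAt ℂ k u := by
    intro u hu h
    have h1 : DifferentiableAt ℂ (fun u : ℂ => u⁻¹ / g u⁻¹) u := by
      have h2 : DifferentiableAt ℂ (fun u : ℂ => u⁻¹) u := differentiableAt_inv hu
      have h3 : DifferentiableAt ℂ (fun u : ℂ => g u⁻¹) u :=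
        (hgd _ (hnorm_inv u hu h)).comp u h2
      refine h2.div h3 ?_
      intro h0
      have := (hg _ (hnorm_inv u hu h)).1
      rw [h0] at this; simp at this; linarith
    refine h1.congr_of_eventuallyEq ?_
    filter_upwards [isOpen_ne.mem_nhds hu] with u' hu'
    have : u' ≠ 0 := hu'
    simp [hk, this]
  have hkd : DifferentiableOn ℂ k (ball 0 1) := by
    rw [← Complex.differentiableOn_compl_singleton_and_continuousAt_iff (ball_mem_nhds (0 : ℂ) one_pos)]
    refine ⟨fun u hu => (hkd' u hu.2 (by simpa using hu.1)).differentiableWithinAt, hkc⟩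
  -- Schwarz
  have hk1 : ∀ u ∈ ball (0 : ℂ) 1, ‖k u‖ ≤ 1 := by
    intro u hu
    by_cases hu0 : u = 0
    · rw [hu0, hk0]; simp
    · have hG : DifferentiableOn ℂ (fun u => u * k u) (ball 0 1) := differentiableOn_id.mul hkd
      have hm : MapsTo (fun u => u * k u) (ball 0 1) (ball 0 1) := by
        intro u' hu'
        have hu'' : ‖u'‖ < 1 := by simpa using hu'
        by_cases h0 : u' = 0
        · simp [h0]
        · have h1 := (hg _ (hnorm_inv u' h0 hu'')).1
          have h2 : u' * k u' = (g u'⁻¹)⁻¹ := by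
            simp only [hk, h0, if_false]
            rw [div_eq_mul_inv, ← mul_assoc, mul_inv_cancel₀ h0, one_mul]
          simp only [mem_ball, dist_zero_right]
          rw [h2, norm_inv]
          exact inv_lt_one_of_one_lt₀ h1
      have h3 := Complex.norm_le_norm_of_mapsTo_ball hG (hm.mono_right ball_subset_closedBall) (by simp) (z := u) (by simpa using hu)
      rw [norm_mul] at h3
      have hupos : 0 < ‖u‖ := norm_pos_iff.2 hu0
      by_contra hcon
      push Not at hcon
      nlinarith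
  have hmax : IsMaxOn (norm ∘ k) (ball 0 1) 0 := by
    intro u hu
    simp only [mem_ofPred_eq, Function.comp_apply]
    rw [hk0]
    simpa using hk1 u hu
  have hconst := Complex.eqOn_of_isPreconnected_of_isMaxOn_norm (convex_ball (0 : ℂ) 1).isPreconnected
    isOpen_ball hkd (mem_ball_self one_pos) hmax
  intro w hw
  have hw' : 1 < ‖w‖ := hw
  have hw0 : w ≠ 0 := by
    rintro rfl; simp at hw'; linarith
  have hwi : w⁻¹ ∈ ball (0 : ℂ) 1 := by
    simp only [mem_ball, dist_zero_right, norm_inv]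
    exact inv_lt_one_of_one_lt₀ hw'
  have h1 := hconst hwi
  have hwi0 : w⁻¹ ≠ 0 := inv_ne_zero hw0
  simp only [hk, hwi0, if_false, inv_inv, Function.const_apply, if_true] at h1
  have hg0 : g w ≠ 0 := by
    intro h
    have := (hg w hw').1
    rw [h] at this; simp at this; linarith
  have h2 : w = g w := by
    rw [div_eq_one_iff_eq hg0] at h1
    exact h1
  have h3 := (hg w hw').2
  rw [← h2] at h3
  exact h3.symm

/-- A linearisable fixed point is interior to the filled Julia set. -/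
theorem K_mem_nhds_of_linearizable {l : ℂ} (hl : ‖l‖ = 1) {φ : ℂ → ℂ} (hφ : AnalyticAt ℂ φ 0) (h0 : φ 0 = 0)
    (h1 : deriv φ 0 ≠ 0) (h2 : ∀ᶠ z in 𝓝 (0 : ℂ), φ (f l z) = l * φ z) : K l ∈ 𝓝 (0 : ℂ) := by
  have hst : HasStrictDerivAt φ (deriv φ 0) 0 := hφ.hasStrictDerivAt
  set L := hst.localInverse φ (deriv φ 0) 0 h1 with hL
  have hLd : HasStrictDerivAt L (deriv φ 0)⁻¹ (φ 0) := hst.to_localInverse h1
  have hr : ∀ᶠ y in 𝓝 (φ 0), φ (L y) = y :=
    (hst.hasStrictFDerivAt_equiv h1).eventually_right_inverse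
  have hle : ∀ᶠ z in 𝓝 (0 : ℂ), L (φ z) = z :=
    (hst.hasStrictFDerivAt_equiv h1).eventually_left_inverse
  have hL0 : L (φ 0) = 0 := (hst.hasStrictFDerivAt_equiv h1).localInverse_apply_image
  rw [h0] at hr hLd hL0
  have hLc : Tendsto L (𝓝 0) (𝓝 0) := by
    have := hLd.hasDerivAt.continuousAt.tendsto
    rwa [hL0] at this
  have hfc : Tendsto (fun y => f l (L y)) (𝓝 0) (𝓝 0) := by
    have hf0 : Continuous (f l) := by unfold f; fun_prop
    have h3 := (hf0.tendsto 0).comp hLc
    have h4 : f l 0 = 0 := by simp [f]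
    rw [h4] at h3
    exact h3
  -- near 0: f (L y) = L (l y)
  have hconj : ∀ᶠ y in 𝓝 (0 : ℂ), f l (L y) = L (l * y) ∧ ‖L y‖ ≤ 1 := by
    filter_upwards [hr, hLc.eventually h2, hfc.eventually hle,
      hLc.eventually (closedBall_mem_nhds (0 : ℂ) one_pos)] with y a b c d
    refine ⟨?_, by simpa using d⟩
    rw [← c, b, a]
  obtain ⟨δ, hδ, hball⟩ := Metric.eventually_nhds_iff_ball.1 hconj
  have hiter : ∀ n : ℕ, ∀ y ∈ ball (0 : ℂ) δ, (f l)^[n] (L y) = L (l ^ n * y) := by
    intro n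
    induction n with
    | zero => intro y _; simp
    | succ k ih =>
      intro y hy
      have hy' : l * y ∈ ball (0 : ℂ) δ := by
        simp only [mem_ball, dist_zero_right, norm_mul, hl, one_mul] at hy ⊢
        exact hy
      rw [Function.iterate_succ_apply, (hball y hy).1, ih _ hy']
      congr 1
      rw [pow_succ]; ring
  have hsub : L '' ball 0 δ ⊆ K l := by
    rintro z ⟨y, hy, rfl⟩ n
    rw [hiter n y hy]
    have hy' : l ^ n * y ∈ ball (0 : ℂ) δ := by
      simp only [mem_ball, dist_zero_right, norm_mul, norm_pow, hl, one_pow, one_mul] at hy ⊢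
      exact hy
    exact (hball _ hy').2.trans one_le_two
  have hmap := hLd.map_nhds_eq (inv_ne_zero h1)
  rw [hL0] at hmap
  refine mem_of_superset ?_ hsub
  rw [← hmap]
  exact image_mem_map (ball_mem_nhds 0 hδ)

end Pool.Agent.CR
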