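import Pool.Agent.H33.CR.Z2

/-!
# CR Z3: the final theorem from the stage lemma

`StageLemma` is the statement of the stage lemma SL (Part S). `Z_main`: the stage lemma gives an irrational `α` such that `0` is
not linearisable for `P_α` and an external ray lands at `0`; the statement about every conformal isomorphism.
-/

set_option autoImplicit false

open Set Filter Topology Metric

namespace Pool.Agent.CR

/-- The stage lemma. -/
def StageLemma : Prop := ∀ (p q : ℕ), 0 < p → p < q → Nat.Coprime p q → ∀ (i : ℤ) (r : ℝ), 0 < r →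
  ∃ s0 : ℝ, 0 < s0 ∧ ∀ δ : ℝ, 0 < δ → ∀ n0 : ℕ, ∃ (p' q' : ℕ) (i' k : ℤ), 0 < p' ∧ p' < q' ∧ Nat.Coprime p' q' ∧
    n0 ≤ q' ∧ q * p' = p * q' + 1 ∧ |ang p' q' i' + k - ang p q i| < δ ∧
    ∀ s : ℝ, 0 < s → s ≤ s0 → ‖ray (mu ((p' : ℝ) / q')) (ang p' q' i') s‖ ≤ r

theorem Z_irr (SL : StageLemma) {p0 q0 : ℕ} (hp0 : 0 < p0) (hpq0 : p0 < q0) (hc0 : Nat.Coprime p0 q0) {ε0 : ℝ}
    (hε0 : 0 < ε0) : ∃ α t : ℝ, |α - p0 / q0| ≤ ε0 ∧ Irrational α ∧ Tendsto (ray (mu α) t) (𝓝[>] 0) (𝓝 0) := by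
  have hmain := Z_diag (fun x θ => ∃ (p q : ℕ) (i k : ℤ), 0 < p ∧ p < q ∧ Nat.Coprime p q ∧ x = (p : ℚ) / q ∧
    θ = ang p q i + k) (x0 := (p0 : ℚ) / q0) (θ0 := ang p0 q0 0 + (0 : ℤ)) ⟨p0, q0, 0, 0, hp0, hpq0, hc0, rfl, rfl⟩ hε0 ?_
  · obtain ⟨α, t, h1, h2, h3⟩ := hmain
    refine ⟨α, t, ?_, h2, h3⟩
    have h4 : (((p0 : ℚ) / q0 : ℚ) : ℝ) = (p0 : ℝ) / q0 := by push_cast; rfl
    rw [h4] at h1
    exact h1
  rintro x θ ⟨p, q, i, k, hp, hpq, hc, rfl, rfl⟩ r hr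
  obtain ⟨s0, hs0, h⟩ := SL p q hp hpq hc i r hr
  refine ⟨s0, hs0, fun δ hδ => ?_⟩
  obtain ⟨n0, hn0⟩ := exists_nat_gt (1 / δ)
  obtain ⟨p', q', i', k', hp', hpq', hc', hn, hq, hang, hray⟩ := h δ hδ n0
  have hq0 : (0 : ℝ) < q := by exact_mod_cast (hp.trans hpq)
  have hq'0 : (0 : ℝ) < q' := by exact_mod_cast (hp'.trans hpq')
  have hqR : (q : ℝ) * p' = p * q' + 1 := by exact_mod_cast hq
  refine ⟨(p' : ℚ) / q', ang p' q' i' + (k' + k : ℤ), ⟨p', q', i', k' + k, hp', hpq', hc', rfl, rfl⟩, ?_, ?_, ?_, ?_⟩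
  · intro heq
    have hqQ : (q : ℚ) ≠ 0 := by exact_mod_cast (hp.trans hpq).ne'
    have hq'Q : (q' : ℚ) ≠ 0 := by exact_mod_cast (hp'.trans hpq').ne'
    rw [div_eq_div_iff hq'Q hqQ] at heq
    have h1 : p' * q = p * q' := by exact_mod_cast heq
    rw [mul_comm] at h1
    omega
  · push_cast
    have h1 : (p' : ℝ) / q' - p / q = 1 / (q * q') := by
      field_simp
      linarith
    rw [h1, abs_of_pos (by positivity)]
    have hq1 : (1 : ℝ) ≤ q := by exact_mod_cast (hp.trans hpq)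
    have hn' : (n0 : ℝ) ≤ q' := by exact_mod_cast hn
    have h2 : 1 / δ < q * q' := by nlinarith
    rw [div_lt_iff₀ (by positivity)]
    rw [div_lt_iff₀ hδ] at h2
    linarith
  · push_cast
    have h1 : ang p' q' i' + (k' + k : ℝ) - (ang p q i + k) = ang p' q' i' + k' - ang p q i := by ring
    rw [h1]; exact hang
  · intro s hs hs1
    rw [ray_add_int]
    have h1 : (((p' : ℚ) / q' : ℚ) : ℝ) = (p' : ℝ) / q' := by push_cast; rfl
    rw [h1]
    exact hray s hs hs1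

/-! ### The objects of the problem -/

/-- The quadratic polynomial `z ^ 2 + e^{2πiα} z`. -/
noncomputable def P (α : ℝ) (z : ℂ) : ℂ := z ^ 2 + Complex.exp (2 * Real.pi * α * Complex.I) * z

/-- The filled Julia set of `P α`: the points with bounded forward orbit. -/
def FilledJulia (α : ℝ) : Set ℂ := {z | ∃ C : ℝ, ∀ n : ℕ, ‖(P α)^[n] z‖ ≤ C}

/-- `P α` is linearisable at `0`. -/
def Linearizable (α : ℝ) : Prop := ∃ φ : ℂ → ℂ, AnalyticAt ℂ φ 0 ∧ φ 0 = 0 ∧ deriv φ 0 ≠ 0 ∧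
  ∀ᶠ z in 𝓝 (0 : ℂ), φ (P α z) = Complex.exp (2 * Real.pi * α * Complex.I) * φ z

/-- `ψ` is the conformal isomorphism from the complement of the closed unit disc onto the complement of the filled
Julia set with `ψ w / w → 1` at infinity. -/
structure IsConformalIso (α : ℝ) (ψ : ℂ → ℂ) : Prop where
  diff : DifferentiableOn ℂ ψ {w | 1 < ‖w‖}
  bij : BijOn ψ {w | 1 < ‖w‖} (FilledJulia α)ᶜ
  normalized : Tendsto (fun w => ψ w / w) (Bornology.cobounded ℂ) (𝓝 1)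

theorem P_eq (α : ℝ) : P α = f (mu α) := rfl

theorem FilledJulia_eq (α : ℝ) : FilledJulia α = K (mu α) := by
  ext z
  rw [mem_K_iff (Z_norm_mu α).le]
  rfl

theorem isConformalIso_psi (α : ℝ) : IsConformalIso α (psi (mu α)) where
  diff := psi_differentiableOn (Z_norm_mu α).le
  bij := by rw [FilledJulia_eq]; exact psi_bijOn (Z_norm_mu α).le
  normalized := psi_div_tendsto (Z_norm_mu α).le

theorem IsConformalIso.eq {α : ℝ} {ψ : ℂ → ℂ} (h : IsConformalIso α ψ) : EqOn ψ (psi (mu α)) {w | 1 < ‖w‖} :=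
  psi_unique (Z_norm_mu α).le h.diff (by rw [← FilledJulia_eq]; exact h.bij) h.normalized

theorem not_linearizable {α t : ℝ} (h : Tendsto (ray (mu α) t) (𝓝[>] 0) (𝓝 0)) : ¬ Linearizable α := by
  rintro ⟨φ, h1, h2, h3, h4⟩
  have hK := K_mem_nhds_of_linearizable (Z_norm_mu α) h1 h2 h3 h4
  have h5 := h.eventually hK
  obtain ⟨s, hs1, hs2⟩ := (h5.and self_mem_nhdsWithin).exists
  exact ray_notMem (Z_norm_mu α).le t hs2 hs1

theorem ray_tendsto_iff {α t : ℝ} {ψ : ℂ → ℂ} (hψ : IsConformalIso α ψ)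
    (h : Tendsto (ray (mu α) t) (𝓝[>] 0) (𝓝 0)) :
    Tendsto (fun r : ℝ => ψ (r * Complex.exp (2 * Real.pi * t * Complex.I))) (𝓝[>] 1) (𝓝 0) := by
  have hlog : Tendsto Real.log (𝓝[>] 1) (𝓝[>] 0) := by
    refine tendsto_nhdsWithin_iff.2 ⟨?_, ?_⟩
    · have := (Real.continuousAt_log (x := 1) one_ne_zero).tendsto
      rw [Real.log_one] at this
      exact this.mono_left nhdsWithin_le_nhds
    · filter_upwards [self_mem_nhdsWithin] with r hr
      exact Real.log_pos hr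
  refine (h.comp hlog).congr' ?_
  filter_upwards [self_mem_nhdsWithin] with r hr
  have hr' : (1 : ℝ) < r := hr
  have hr0 : 0 < r := zero_lt_one.trans hr'
  have h1 : Complex.exp (((Real.log r : ℝ) : ℂ) + 2 * Real.pi * t * Complex.I) =
      r * Complex.exp (2 * Real.pi * t * Complex.I) := by
    rw [Complex.exp_add, ← Complex.ofReal_exp, Real.exp_log hr0]
  simp only [Function.comp_apply, ray]
  rw [h1]
  refine (hψ.eq ?_).symm
  simp only [mem_ofPred_eq, norm_mul, Complex.norm_real, Real.norm_eq_abs, abs_of_pos hr0]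
  have h2 : ‖Complex.exp (2 * Real.pi * t * Complex.I)‖ = 1 := by
    have := Complex.norm_exp_ofReal_mul_I (2 * Real.pi * t)
    push_cast at this
    exact this
  rw [h2, mul_one]; exact hr'

theorem mu_add_int (α : ℝ) (m : ℤ) : mu (α + m) = mu α := by
  unfold mu
  rw [show (2 * Real.pi * ((α + m : ℝ) : ℂ) * Complex.I : ℂ) = 2 * Real.pi * α * Complex.I + m * (2 * Real.pi * Complex.I) by
    push_cast; ring]
  rw [Complex.exp_add, Complex.exp_int_mul_two_pi_mul_I, mul_one]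

theorem Z_dense (SL : StageLemma) {a b : ℝ} (hab : a < b) :
    ∃ α t : ℝ, a < α ∧ α < b ∧ Irrational α ∧ Tendsto (ray (mu α) t) (𝓝[>] 0) (𝓝 0) := by
  -- a noninteger rational number in `(a, b)`
  obtain ⟨x, hx1, hx2⟩ := exists_rat_btwn hab
  obtain ⟨y, hy1, hy2⟩ := exists_rat_btwn hx2
  have hxy : (x : ℝ) < y := hy1
  obtain ⟨z, hz1, hz2, hz3⟩ : ∃ z : ℚ, (a : ℝ) < z ∧ (z : ℝ) < b ∧ Int.fract z ≠ 0 := by
    by_cases hx : Int.fract x = 0
    · by_cases hy : Int.fract y = 0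
      · obtain ⟨n, hn⟩ : ∃ n : ℤ, x = n := ⟨⌊x⌋, by have := Int.fract_add_floor x; rw [hx, zero_add] at this; exact this.symm⟩
        obtain ⟨m, hm⟩ : ∃ m : ℤ, y = m := ⟨⌊y⌋, by have := Int.fract_add_floor y; rw [hy, zero_add] at this; exact this.symm⟩
        have hnm : n < m := by
          rw [hn, hm] at hxy
          exact_mod_cast hxy
        refine ⟨n + 1 / 2, ?_, ?_, ?_⟩
        · push_cast
          rw [hn] at hx1
          push_cast at hx1
          linarith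
        · push_cast
          rw [hm] at hy2
          push_cast at hy2
          have : (n : ℝ) + 1 ≤ m := by exact_mod_cast hnm
          linarith
        · rw [Int.fract_intCast_add]
          norm_num
      · exact ⟨y, hx1.trans hxy, hy2, hy⟩
    · exact ⟨x, hx1, hx2, hx⟩
  set w : ℚ := Int.fract z with hw
  have hw0 : 0 < w := lt_of_le_of_ne (Int.fract_nonneg z) (Ne.symm hz3)
  have hw1 : w < 1 := Int.fract_lt_one z
  obtain ⟨p, hp⟩ : ∃ p : ℕ, (p : ℤ) = w.num := ⟨w.num.toNat, Int.toNat_of_nonneg (Rat.num_nonneg.2 hw0.le)⟩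
  have hq : 0 < w.den := w.den_pos
  have hwpq : w = (p : ℚ) / w.den := by
    rw [← Int.cast_natCast, hp]; exact (Rat.num_div_den w).symm
  have hwR : (w : ℝ) = (p : ℝ) / w.den := by
    have : ((w : ℚ) : ℝ) = (((p : ℚ) / w.den : ℚ) : ℝ) := by rw [← hwpq]
    rw [this]; push_cast; rfl
  have hp0 : 0 < p := by
    have h1 : 0 < w.num := Rat.num_pos.2 hw0
    have : (0 : ℤ) < p := by rw [hp]; exact h1
    exact_mod_cast this
  have hpq : p < w.den := by
    have h1 : (p : ℚ) / w.den < 1 := by rw [← hwpq]; exact hw1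
    rw [div_lt_one (by exact_mod_cast hq)] at h1
    exact_mod_cast h1
  have hc : Nat.Coprime p w.den := by
    have h1 := w.reduced
    have h2 : w.num.natAbs = p := by rw [← hp]; rfl
    rwa [h2] at h1
  have hε : 0 < min ((z : ℝ) - a) (b - z) / 2 := by
    have h1 : 0 < (z : ℝ) - a := by linarith
    have h2 : 0 < b - z := by linarith
    have := lt_min h1 h2
    linarith
  obtain ⟨α, t, h1, h2, h3⟩ := Z_irr SL hp0 hpq hc hε
  rw [← hwR] at h1
  have hzw : (z : ℝ) = w + (⌊z⌋ : ℤ) := by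
    have h4 := Int.fract_add_floor z
    have h9 : ((z : ℚ) : ℝ) = (((w + (⌊z⌋ : ℤ) : ℚ)) : ℝ) := by rw [hw, h4]
    rw [h9, Rat.cast_add, Rat.cast_intCast]
  have h5 := abs_le.1 h1
  have h6 := min_le_left ((z : ℝ) - a) (b - z)
  have h7 := min_le_right ((z : ℝ) - a) (b - z)
  have h8 : 0 < min ((z : ℝ) - a) (b - z) := by linarith
  refine ⟨α + (⌊z⌋ : ℤ), t, by linarith, by linarith, h2.add_intCast _, ?_⟩
  rw [mu_add_int]
  exact h3

theorem zero_mem_frontier {α t : ℝ} (h : Tendsto (ray (mu α) t) (𝓝[>] 0) (𝓝 0)) : (0 : ℂ) ∈ frontier (FilledJulia α) := by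
  rw [FilledJulia_eq, frontier_eq_closure_inter_closure]
  refine ⟨subset_closure (zero_mem_K _), ?_⟩
  refine mem_closure_of_tendsto h ?_
  filter_upwards [self_mem_nhdsWithin] with s hs
  exact ray_notMem (Z_norm_mu α).le t hs

/-- **The final theorem, from the stage lemma.** -/
theorem Z_main (SL : StageLemma) {a b : ℝ} (hab : a < b) : ∃ α t : ℝ, a < α ∧ α < b ∧ Irrational α ∧ ¬ Linearizable α ∧
    (0 : ℂ) ∈ frontier (FilledJulia α) ∧ (∃ ψ, IsConformalIso α ψ) ∧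
    ∀ ψ, IsConformalIso α ψ → (∀ w : ℂ, 1 < ‖w‖ → ψ (w ^ 2) = P α (ψ w)) ∧
      Tendsto (fun r : ℝ => ψ (r * Complex.exp (2 * Real.pi * t * Complex.I))) (𝓝[>] 1) (𝓝 0) := by
  obtain ⟨α, t, ha, hb, hα, ht⟩ := Z_dense SL hab
  refine ⟨α, t, ha, hb, hα, not_linearizable ht, zero_mem_frontier ht, ⟨_, isConformalIso_psi α⟩,
    fun ψ hψ => ⟨fun w hw => ?_, ray_tendsto_iff hψ ht⟩⟩
  have h1 : ψ w = psi (mu α) w := hψ.eq hw
  have hw2 : 1 < ‖w ^ 2‖ := by
    rw [norm_pow]; nlinarith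
  have h2 : ψ (w ^ 2) = psi (mu α) (w ^ 2) := hψ.eq hw2
  rw [h1, h2, P_eq, psi_f (Z_norm_mu α).le hw]

end Pool.Agent.CR
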